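import Pool.Agent.KCE.Stmts
import Pool.Agent.KCC.Kw
import Pool.Agent.KCC.Dat

/-!
# Column-convex polygons (MP_f6626d_co), explicit window: the data of one kernel (module EDAT)

The text of `KCC.dat_thm`, with the explicit kernel `KW.kern` (as in `KCS/DTX.lean`), explicit constants,
and the two more facts (killing probability, numbers of arches).
-/

set_option autoImplicit false

namespace Pool.Agent.KCE

open Finset Pool.Agent.Lib27 Pool.Agent.Gap Pool.Agent.KCC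

namespace DATE

/-- grouping of the allowed pieces by half length, width and target gap -/
lemma group_al (hs : K5S_Stmt) (k n : ℕ) (g : ℤ) (f : ℕ → ℝ) :
    ∑ p ∈ allowed k n g, f (hl p) = ∑ i ∈ KW.SS n,
      ∑ g' ∈ Icc (g - (n : ℤ)) (g + n), f i.1 * ((KW.alT k n i g g').card : ℝ) := by
  classical
  have hmap : ∀ p ∈ allowed k n g, (((hl p, htn p), g + jump p) : (ℕ × ℕ) × ℤ) ∈
      KW.SS n ×ˢ Icc (g - (n : ℤ)) (g + n) := by
    intro p hp
    have hp1 := ((KW.mem_allowed _ _ _ _).1 hp).1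
    obtain ⟨a1, a2⟩ := KW.piece_mem hs hp1
    rw [mem_Icc] at a2
    rw [mem_product, mem_Icc]
    refine ⟨a1, ?_, ?_⟩
    · simp only
      omega
    · simp only
      omega
  rw [← sum_fiberwise_of_maps_to hmap, sum_product]
  apply sum_congr rfl
  intro i _
  apply sum_congr rfl
  intro g' _
  have hfib : (allowed k n g).filter (fun p =>
      (((hl p, htn p), g + jump p) : (ℕ × ℕ) × ℤ) = (i, g')) = KW.alT k n i g g' := by
    ext p
    rw [mem_filter, KW.mem_alT]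
    constructor
    · rintro ⟨h1, h3⟩
      rw [Prod.mk.injEq, Prod.ext_iff] at h3
      obtain ⟨⟨b1, b2⟩, b3⟩ := h3
      simp only at b1 b2 b3
      exact ⟨h1, b1, b2, by omega⟩
    · rintro ⟨h1, h3, h4, h5⟩
      refine ⟨h1, ?_⟩
      rw [Prod.mk.injEq, Prod.ext_iff]
      simp only
      exact ⟨⟨h3, h4⟩, by omega⟩
  rw [hfib]
  have e : ∀ p ∈ KW.alT k n i g g', f (hl p) = f i.1 := by
    intro p hp
    rw [KW.mem_alT] at hp
    rw [hp.2.1]
  rw [sum_congr rfl e, sum_const, nsmul_eq_mul, mul_comm]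

/-- the killing probability of the explicit kernel -/
lemma kapEq (hs : K5S_Stmt) (hf : K5F_Stmt) (hr : K5R_Stmt) (hb : K5B_Stmt)
    (k n : ℕ) (hk : 1 ≤ k) (hn : 2 ≤ n) : KapEq k n (KW.kern hs hf hr hb k n hk hn) := by
  classical
  intro a ha
  have h1 := KW.kern_crit hs hf hr hb k n hk hn
  have h2 := group_al hs k n a (fun b => (KW.kern hs hf hr hb k n hk hn).rho ^ b)
  have h3 : ∑ g' ∈ Icc (a - ((KW.kern hs hf hr hb k n hk hn).R : ℤ))
      (a + (KW.kern hs hf hr hb k n hk hn).R),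
      (KW.kern hs hf hr hb k n hk hn).Kc a g' = ∑ p ∈ allowed k n a,
        (KW.kern hs hf hr hb k n hk hn).rho ^ hl p := by
    rw [h2, sum_comm]
    rfl
  unfold KCG.GapKernel.kap
  rw [h3]
  have h5 : (Pc k n).filter (fun p => p ∈ allowed k n a) = allowed k n a := by
    ext p
    rw [mem_filter]
    exact ⟨fun hp => hp.2, fun hp => ⟨((KW.mem_allowed _ _ _ _).1 hp).1, hp⟩⟩
  have h6 := sum_filter_add_sum_filter_not (Pc k n) (fun p => p ∈ allowed k n a)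
    (fun p => (KW.kern hs hf hr hb k n hk hn).rho ^ hl p)
  rw [h5, h1] at h6
  linarith

/-- the arrays are the numbers of arches -/
lemma arEq (h2 : K2_Stmt) (hs : K5S_Stmt) (hf : K5F_Stmt) (hr : K5R_Stmt) (hb : K5B_Stmt)
    (ha : AR_Stmt) (k n : ℕ) (hk : 1 ≤ k) (hn : 2 ≤ n) :
    ArEq k n (KW.Bv (KW.kern hs hf hr hb k n hk hn) (capS k n)) := by
  intro m a hm ha1
  rw [KW.Bv_eq h2 hs hf hr hb ha k n hk hn m hm a]
  unfold KW.arB
  rw [if_pos ha1, Polynomial.eval_finsetSum]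
  simp

end DATE

open DAT in
/-- Module EDAT. -/
theorem t_EDAT (h1 : ETAL_Stmt) (h2 : ERHO_Stmt) (hK2 : K2_Stmt) (h5S : K5S_Stmt)
    (h5F : K5F_Stmt) (h5R : K5R_Stmt) (h5B : K5B_Stmt) (h5C : K5C_Stmt) (hAR : AR_Stmt) :
    EDAT_Stmt := by
  obtain ⟨B0, hB0, ht⟩ := h1
  obtain ⟨K0, hrhoS⟩ := h2
  have hB01 : (1 : ℝ) ≤ B0 := by linarith
  -- the constant
  obtain ⟨B, hB⟩ : ∃ B : ℝ, B = 64 * B0 ^ (K0 + 1) := ⟨_, rfl⟩
  have hpow1 : (1 : ℝ) ≤ B0 ^ K0 := one_le_pow₀ hB01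
  have hBa : 64 * B0 ≤ B := by
    rw [hB, pow_succ]
    nlinarith
  have hBb : B0 ^ K0 ≤ B := by
    rw [hB, pow_succ]
    nlinarith
  have hB2 : 2 ≤ B := by linarith
  refine ⟨B, hB2, fun k n hk1 hn => ?_⟩
  obtain ⟨hq1, hq4, hTP⟩ := ht k hk1
  have hkk : 1 ≤ k ^ 2 := Nat.one_le_pow _ _ hk1
  have hD0 : (2 : ℝ) ≤ Mk B0 k := by
    unfold Mk
    calc (2 : ℝ) ≤ B0 := hB0
      _ = B0 ^ 1 := (pow_one _).symm
      _ ≤ B0 ^ (k ^ 2) := pow_le_pow_right₀ hB01 hkk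
  have hDD : 64 * Mk B0 k ≤ Mk B k := by
    unfold Mk
    calc 64 * B0 ^ (k ^ 2) ≤ 64 ^ (k ^ 2) * B0 ^ (k ^ 2) := by
          refine mul_le_mul_of_nonneg_right ?_ (by positivity)
          calc (64 : ℝ) = 64 ^ 1 := (pow_one _).symm
            _ ≤ 64 ^ (k ^ 2) := pow_le_pow_right₀ (by norm_num) hkk
      _ = (64 * B0) ^ (k ^ 2) := (mul_pow _ _ _).symm
      _ ≤ B ^ (k ^ 2) := pow_le_pow_left₀ (by positivity) hBa _
  have hDK : Mk B0 k ^ K0 ≤ Mk B k := by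
    unfold Mk
    calc (B0 ^ (k ^ 2)) ^ K0 = (B0 ^ K0) ^ (k ^ 2) := by rw [← pow_mul, ← pow_mul, mul_comm]
      _ ≤ B ^ (k ^ 2) := pow_le_pow_left₀ (by positivity) hBb _
  generalize hE : Mk B0 k = E at *
  generalize hD : Mk B k = D at *
  generalize hq : qk k = q at *
  clear hE hD hq ht hB hBa hBb hpow1
  have hE0 : 0 < E := by linarith
  have hD128 : 128 ≤ D := by linarith
  have hDpos : 0 < D := by linarith
  have hn128 : (128 : ℝ) ≤ n := hD128.trans hn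
  have hn2 : 2 ≤ n := by
    have : (2 : ℝ) ≤ n := by linarith
    exact_mod_cast this
  obtain ⟨hq0, heta, hC0, t1, t2, t3, t4, t5⟩ := id hTP
  have hloc := KW.kern_loc h5S h5F h5R h5B k n hk1 hn2
  have hcrit := KW.kern_crit h5S h5F h5R h5B k n hk1 hn2
  have htot := KW.kern_level h5S h5F h5R h5B k n hk1 hn2
  have hcs := KW.isCapS h5C k n hk1 hn2
  have hct := KW.isCapT h5C k n hk1 hn2
  have hones := KW.capS_one h5C k n hk1 hn2
  have honet := KW.capT_one h5C k n hk1 hn2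
  have hsol := KW.Bv_sol (KW.kern h5S h5F h5R h5B k n hk1 hn2) (capS k n)
  have hcount := KW.count hK2 h5S h5F h5R h5B hAR k n hk1 hn2
  have hkap := DATE.kapEq h5S h5F h5R h5B k n hk1 hn2
  have har := DATE.arEq hK2 h5S h5F h5R h5B hAR k n hk1 hn2
  generalize KW.kern h5S h5F h5R h5B k n hk1 hn2 = G at *
  obtain ⟨r1, r2, -⟩ := hrhoS E hD0 k q hk1 hTP n G.rho (hDK.trans hn) G.rho_pos hcrit
  have hEi : 0 < E⁻¹ := inv_pos.2 hE0
  have hEi2 : E⁻¹ ≤ 1 / 2 := by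
    rw [← one_div]
    exact one_div_le_one_div_of_le (by norm_num) hD0
  have hr : 0 < (1 + E⁻¹) * q := by positivity
  obtain ⟨θ0, hθ0⟩ : ∃ θ0 : ℝ, θ0 = (1 + E⁻¹ / 2) / (1 + E⁻¹) := ⟨_, rfl⟩
  have hθ0pos : 0 < θ0 := by rw [hθ0]; positivity
  have hθr : θ0 * ((1 + E⁻¹) * q) = (1 + E⁻¹ / 2) * q := by
    rw [hθ0]
    field_simp
  have hDi : D⁻¹ ≤ E⁻¹ / 64 := by
    rw [inv_le_comm₀ hDpos (by positivity)]
    rw [inv_div, div_inv_eq_mul]
    exact hDD
  have hθle : θ0 ≤ 1 - D⁻¹ := by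
    have h3 : θ0 ≤ 1 - E⁻¹ / 64 := by
      rw [hθ0, div_le_iff₀ (by positivity)]
      nlinarith
    linarith
  have hθ0half : 1 / 2 ≤ θ0 := by
    rw [hθ0, le_div_iff₀ (by positivity)]
    linarith
  have hθpos : 0 < 1 - D⁻¹ := lt_of_lt_of_le hθ0pos hθle
  have hrho1 : G.rho ≤ 1 := by
    refine r2.trans ?_
    nlinarith
  have hT0 : Tails E θ0 k n G.rho := by
    refine DAT.tails (by omega) G.rho_pos hθ0pos hr ?_ (t3 n) t4 (t5 n (by omega))
    rw [hθr]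
    exact r2
  have hED : E ≤ D := by linarith
  have hT : Tails D (1 - D⁻¹) k n G.rho := by
    obtain ⟨a1, a2, a3⟩ := hT0
    have hp : ∀ m : ℕ, θ0 ^ m ≤ (1 - D⁻¹) ^ m := fun m => pow_le_pow_left₀ hθ0pos.le hθle m
    refine ⟨fun m => (a1 m).trans ?_, fun m hm => (a2 m hm).trans ?_, a3.trans ?_⟩
    · exact mul_le_mul hED (hp m) (by positivity) hDpos.le
    · exact mul_le_mul hED (hp m) (by positivity) hDpos.le
    · exact mul_le_mul (mul_le_mul_of_nonneg_right hED (Nat.cast_nonneg _)) (hp n)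
        (by positivity) (by positivity)
  have hDi1 : D⁻¹ ≤ 1 := inv_le_one_of_one_le₀ (by linarith)
  have hDq : D⁻¹ ≤ G.rho := by
    refine le_trans ?_ (hq1.trans r1)
    rw [← one_div]
    exact one_div_le_one_div_of_le (by norm_num) (by linarith)
  refine ⟨⟨⟨G, KW.Bv G (capS k n), ⟨hloc, hDq, fun m => ?_⟩,
    ⟨hcs, Or.inr (hDi1.trans hones), fun m g h => KW.capS_supp h5C k n m g h, fun m => ?_⟩,
    ⟨hct, Or.inl (hDi1.trans honet), fun m g h => KW.capT_supp h5C k n m g h, fun m => ?_⟩,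
    hsol, hcount, hcrit, hrho1, hT⟩, hkap, har⟩⟩
  · rw [← mul_sum, htot m, mul_comm]
    exact hT.1 m
  · have h4 := dec_s h5C (C' := D) G.rho_pos hrho1 hθ0pos hE0 (by
      rw [div_le_iff₀ hθ0pos]
      nlinarith) hT0 m
    refine h4.trans ?_
    exact mul_le_mul_of_nonneg_left (pow_le_pow_left₀ hθ0pos.le hθle m) hDpos.le
  · exact dec_t hθpos hDpos hT m

end Pool.Agent.KCE
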