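import Pool.Agent.KCE.Stmts2
import Pool.Agent.KCQ.Fin
import Pool.Agent.KCS.Main

/-!
# Column-convex polygons (MP_f6626d_co), explicit window: assembly of the final theorem
-/

set_option autoImplicit false

namespace Pool.Agent.KCE

open Finset Filter Topology MeasureTheory Pool.Agent.Lib27 Pool.Agent.AreaLaw Pool.Agent.KCC
open Pool.Agent.SapR (rot2 wordsUpTo)
open Pool.Agent.Gap (IsCap closeP AreaModel)
open Pool.Agent.EXW (Slow)
open Pool.Agent.KCS (airyMoment)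
open scoped NNReal ENNReal

namespace EFIN

/-- the theorems of the old project -/
theorem old : TR_Stmt ∧ CDF_Stmt ∧ CNX_Stmt ∧ GRO_Stmt ∧ LMQ_Stmt ∧ KCS.IDN_Stmt := by
  have hK2 : K2_Stmt := k2_thm pla_thm
  have hAR : AR_Stmt := ar_thm hK2
  have hTAIL : TAIL_Stmt := tal_thm xbr_thm XM.bey_main
  have hKW : KW_Stmt := kw_thm hK2 k5s_thm k5f_thm k5r_thm k5b_thm k5c_thm hAR
  have hK1 : K1_Stmt := k1_thm rot_thm (glub_thm pos_thm) pos_thm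
  have hTR : TR_Stmt := tr_thm hK1 vcr_thm
  have hDAT : DAT_Stmt := dat_thm hTAIL hKW k5s_thm k5b_thm k5c_thm
  have hNEAR : NEAR_Stmt := near_thm hK2 k4_thm k5s_thm k5c_thm hAR pos_thm
  have hCDF : CDF_Stmt := cdf_thm hTR pos_thm
  have hC2 : KCG.GC2_Stmt := KCG.gc2
  have hC : KCG.GC_Stmt := KCG.GC.gc hC2
  have hRE : KCG.GRE_Stmt := KCG.gre hC
  have hSUP : KCG.GSUP_Stmt := KCG.gsup hC hRE
  have hW : KCG.GW_Stmt := KCG.gw hC hSUP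
  have hM2 : KCG.GM2_Stmt := KCG.gm2 hC2 hRE hSUP hW
  have hJ2 : KCG.GJ2_Stmt := KCG.GJ2.gj2 hC2 hC hRE hSUP hW
  have hV : KCG.GV_Stmt := KCG.gv hRE hSUP
  obtain ⟨oLT, oLT1, oM2, oBAL, oST, oSUP, oW⟩ := KCG.old_gap
  have hGLTX : KCG.GLTX_Stmt :=
    KCG.gltx (KCG.gex hRE hSUP hW hV KCG.gvl oST KCG.geb oSUP oW) hJ2
  have hDTX : DTX_Stmt := dtx hK2 k5s_thm k5f_thm k5r_thm k5b_thm k5c_thm hAR
  have hKEC : KEC_Stmt := kec psm k5s_thm k5c_thm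
  have hOMX : OMX_Stmt := omx hDTX psm hKEC hGLTX (KCG.acv hC) KCG.glt_main hM2 oLT1 oM2 oBAL
  have hCNX : CNX_Stmt := cnx hOMX hDTX psm hNEAR hTR vcr_thm pos_thm
  have hBND : BND_Stmt := bnd_thm KCG.glt_main hM2 oLT1 oM2 oBAL
  have hCNT : CNT_Stmt := cnt_thm hBND (sq2_thm hNEAR) rho_thm hDAT hNEAR hTR vcr_thm pos_thm
  have hGRO : GRO_Stmt := gro_thm (blo_thm pla_thm)
  have hCRA : KCS.CRA_Stmt := KCS.t_CRA KCS.mrc KCS.cv1 KCS.cv2 KCS.cba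
  have hIDN : KCS.IDN_Stmt := KCS.idn KCS.feq hCRA amg_stmt
  exact ⟨hTR, hCDF, hCNX, hGRO, lmq_thm hCNT hGRO mum_thm, hIDN⟩

lemma sumW (k n : ℕ) : ∑ y : OmS k n, wtS k n y =
    ((Om k n).card : ℝ) + ((NoCut k n).card : ℝ) * (1 / (4 * (n : ℝ))) := by
  rw [Fintype.sum_sum_type]
  simp [wtS]

lemma sumT (k n : ℕ) : ∑ y : OmS k n, wtS k n y * ((TZ k n y : ℝ) / 2) =
    ∑ q ∈ Om k n, ((|dq q| : ℤ) : ℝ) / 2 +
      (1 / (4 * (n : ℝ))) * ∑ w ∈ NoCut k n, ((|dbl 0 w| : ℤ) : ℝ) / 2 := by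
  rw [Fintype.sum_sum_type, Finset.mul_sum]
  have h1 : ∑ a : {q // q ∈ Om k n}, wtS k n (Sum.inl a) * ((TZ k n (Sum.inl a) : ℝ) / 2) =
      ∑ q ∈ Om k n, ((|dq q| : ℤ) : ℝ) / 2 := by
    rw [← Finset.sum_coe_sort (Om k n) (fun q => ((|dq q| : ℤ) : ℝ) / 2)]
    refine Finset.sum_congr rfl fun a _ => ?_
    simp [wtS, TZ]
  have h2 : ∑ a : {w // w ∈ NoCut k n}, wtS k n (Sum.inr a) * ((TZ k n (Sum.inr a) : ℝ) / 2) =
      ∑ w ∈ NoCut k n, (1 / (4 * (n : ℝ))) * (((|dbl 0 w| : ℤ) : ℝ) / 2) := by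
    rw [← Finset.sum_coe_sort (NoCut k n)
      (fun w => (1 / (4 * (n : ℝ))) * (((|dbl 0 w| : ℤ) : ℝ) / 2))]
    refine Finset.sum_congr rfl fun a _ => ?_
    simp [wtS, TZ]
  rw [h1, h2]

/-- number and total area over the sample space -/
lemma card_area (hTR : TR_Stmt) (k n : ℕ) (hk : 1 ≤ k) (hn : 2 ≤ n) :
    ((ColConvex k n).card : ℝ) = 4 * n * ∑ y : OmS k n, wtS k n y ∧
    ∑ s ∈ ColConvex k n, area n s =
      4 * n * ∑ y : OmS k n, wtS k n y * ((TZ k n y : ℝ) / 2) := by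
  obtain ⟨h1, h2⟩ := CNT.split hTR k n hk hn
  have hn0 : (0 : ℝ) < n := by exact_mod_cast (by omega : 0 < n)
  rw [h1, h2, sumW, sumT]
  constructor
  · field_simp
  · field_simp

lemma num_bd (D W rho q L : ℝ) (n Ko : ℕ) (hD : 1 ≤ D) (hD4 : 4 ≤ D ^ 2) (hn : 2 ≤ n)
    (hL : 1 ≤ L) (hq : 0 < q) (hr1 : q ≤ rho) (hr3 : (rho / q) ^ n ≤ 3)
    (o1 : (D ^ Ko)⁻¹ * 1 ≤ (n : ℝ) * Real.sqrt n * rho ^ n * W)
    (o2 : (n : ℝ) * Real.sqrt n * rho ^ n * W ≤ D ^ Ko * 1) :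
    (D ^ (Ko + 2))⁻¹ * (n : ℝ) ^ (-(1 / 2) : ℝ) ≤ 4 * n * W / (q⁻¹) ^ n ∧
    4 * n * W / (q⁻¹) ^ n ≤ D ^ (Ko + 2) * ((n : ℝ) ^ (-(1 / 2) : ℝ) * L) := by
  have hn0 : (0 : ℝ) < n := by exact_mod_cast (by omega : 0 < n)
  have hs0 : 0 < Real.sqrt n := Real.sqrt_pos.2 hn0
  have hss : Real.sqrt n * Real.sqrt n = n := Real.mul_self_sqrt hn0.le
  have hDK : 0 < D ^ Ko := pow_pos (by linarith) _
  have hqn : 0 < q ^ n := pow_pos hq n
  set t : ℝ := (rho / q) ^ n with ht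
  have ht1 : 1 ≤ t := by
    rw [ht]
    exact one_le_pow₀ ((one_le_div hq).2 hr1)
  have htr : rho ^ n = q ^ n * t := by
    rw [ht, div_pow]
    field_simp
  set Y : ℝ := (n : ℝ) * Real.sqrt n * q ^ n * W with hY
  have hYt : (n : ℝ) * Real.sqrt n * rho ^ n * W = Y * t := by
    rw [hY, htr]
    ring
  rw [hYt, mul_one] at o1 o2
  have hY0 : 0 < Y := by
    have h1 : 0 < Y * t := lt_of_lt_of_le (inv_pos.2 hDK) o1
    exact pos_of_mul_pos_left h1 (by linarith)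
  have hY1 : Y ≤ D ^ Ko := by nlinarith
  have hY3 : (D ^ Ko)⁻¹ ≤ 3 * Y := by nlinarith
  have hrp : (n : ℝ) ^ (-(1 / 2) : ℝ) = (Real.sqrt n)⁻¹ := by
    rw [Real.rpow_neg hn0.le, Real.sqrt_eq_rpow]
  have hx : 4 * n * W / (q⁻¹) ^ n = 4 * Y * (n : ℝ) ^ (-(1 / 2) : ℝ) := by
    rw [hrp, hY, inv_pow, div_inv_eq_mul]
    field_simp
  have hr0 : 0 < (n : ℝ) ^ (-(1 / 2) : ℝ) := Real.rpow_pos_of_pos hn0 _
  rw [hx]
  have hp : D ^ (Ko + 2) = D ^ Ko * D ^ 2 := pow_add _ _ _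
  constructor
  · refine mul_le_mul_of_nonneg_right ?_ hr0.le
    have h1 : (D ^ (Ko + 2))⁻¹ ≤ (D ^ Ko)⁻¹ := by
      refine inv_anti₀ hDK ?_
      rw [hp]
      nlinarith
    linarith
  · have h1 : 4 * Y ≤ D ^ (Ko + 2) := by
      rw [hp]
      nlinarith
    have h2 : 0 < D ^ (Ko + 2) := pow_pos (by linarith) _
    calc 4 * Y * (n : ℝ) ^ (-(1 / 2) : ℝ) ≤ D ^ (Ko + 2) * (n : ℝ) ^ (-(1 / 2) : ℝ) :=
          mul_le_mul_of_nonneg_right h1 hr0.le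
      _ ≤ D ^ (Ko + 2) * ((n : ℝ) ^ (-(1 / 2) : ℝ) * L) := by
          refine mul_le_mul_of_nonneg_left ?_ h2.le
          nlinarith

lemma sqrt3 (n : ℕ) (hn : 1 ≤ n) : (n : ℝ) * Real.sqrt n = (n : ℝ) ^ (3 / 2 : ℝ) := by
  have hn0 : (0 : ℝ) < n := by exact_mod_cast (by omega : 0 < n)
  rw [Real.sqrt_eq_rpow]
  nth_rewrite 1 [← Real.rpow_one (n : ℝ)]
  rw [← Real.rpow_add hn0]
  norm_num

lemma mean_bd (A B S : ℝ) (n : ℕ) (hn : 2 ≤ n) (W : ℝ) (h1 : A = 4 * n * S) (h2 : B = 4 * n * W) :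
    A / B = S / W := by
  have hn0 : (0 : ℝ) < n := by exact_mod_cast (by omega : 0 < n)
  rw [h1, h2]
  exact mul_div_mul_left _ _ (by positivity)

end EFIN

open EFIN

/-- the final theorem with the explicit window -/
theorem t_EFIN (hTAL : ETAL_Stmt) (hRHO : ERHO_Stmt) (hDAT : EDAT_Stmt) (hQCS : EQCS_Stmt)
    (hMOD : EMOD_Stmt) (hORD : EORD_Stmt) (hSLW : ESLW_Stmt) (hLOG : ELOG_Stmt)
    (hTRM : ETRM_Stmt) : FINAL4_Stmt := by
  obtain ⟨hTR, hCDF, hCNX, hGRO, hLMQ, hIDN⟩ := old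
  obtain ⟨ν, hν, hold, hnew⟩ := KCG.m_QFIN
  obtain ⟨B0, hB0, hTP⟩ := hTAL
  obtain ⟨B, hB, hD⟩ := hDAT
  obtain ⟨K, hK⟩ := hQCS B hB
  obtain ⟨Kr, hKr⟩ := hRHO
  obtain ⟨Kn, hM⟩ := hMOD
  have hT : ∀ k, 1 ≤ k → ∃ eta C, TP k (qk k) eta C := fun k hk => ⟨_, _, (hTP k hk).2.2⟩
  obtain ⟨M0, hM1, hM2⟩ := hLMQ qk hT
  have hqpos : ∀ k, 1 ≤ k → 0 < qk k := fun k hk => (hTP k hk).2.2.1
  refine ⟨ν, hν, hIDN ν hν hold, ?_, fun k => (qk k)⁻¹, M0, fun k hk => ?_, hM2, hM1, ?_, ?_, ?_⟩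
  · intro x hx
    have key : Tendsto (fun n : ℕ => areaCdf n (Short 1 n) x) atTop (𝓝 (ν (Set.Iic x)).toReal) := by
      refine (hold (SapR.M41.mdl 1 le_rfl) x hx).congr' ?_
      filter_upwards [eventually_gt_atTop 1] with n hn
      exact (SapR.M41.short_cdf 1 le_rfl n (by omega) x).symm
    refine key.congr' ?_
    filter_upwards [eventually_ge_atTop 2] with n hn
    exact (SapR.M41.stair_cdf n hn x).symm
  · have ha := hqpos k hk
    have hb := hqpos (k + 1) (by omega)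
    refine ⟨inv_pos.2 ha, ?_⟩
    exact (inv_lt_inv₀ ha hb).2 (mum_thm k _ _ _ _ _ _ hk (hTP k hk).2.2
      (hTP (k + 1) (by omega)).2.2)
  · intro k hk1 hk2
    obtain ⟨h1, h2, h3, h4⟩ := hSLW B Kn hB k hk2
    obtain ⟨r1, -, -, -⟩ := hSLW B0 0 hB0 k hk2
    obtain ⟨K', hK'⟩ : ∃ K' : ℕ, K' = K + 1 := ⟨_, rfl⟩
    obtain ⟨N1, hN1⟩ := eventually_atTop.1 hk1
    obtain ⟨N2, hN2⟩ := eventually_atTop.1 (h1 K')
    set N0 : ℕ := max (max N1 N2) 2 with hN0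
    have hN0' : 2 ≤ N0 := le_max_right _ _
    have hN01 : N1 ≤ N0 := (le_max_left _ _).trans (le_max_left _ _)
    have hN02 : N2 ≤ N0 := (le_max_right _ _).trans (le_max_left _ _)
    have hmx : ∀ n, N0 ≤ SEQ.mx N0 n := fun n => le_max_right _ _
    set k' : ℕ → ℕ := fun n => k (SEQ.mx N0 n) with hk'
    have hk'1 : ∀ n, 1 ≤ k' n := fun n => hN1 _ (hN01.trans (hmx n))
    set M : ℕ → ℝ := fun n => Mk B (k' n) with hMdef
    have hMk2 : ∀ (A : ℝ) (j : ℕ), 2 ≤ A → 1 ≤ j → 2 ≤ Mk A j := by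
      intro A j hA hj
      have h5 : A ^ 1 ≤ A ^ (j ^ 2) :=
        pow_le_pow_right₀ (by linarith) (Nat.one_le_pow _ _ (by omega))
      rw [pow_one] at h5
      exact hA.trans h5
    have hM2' : ∀ n, 2 ≤ M n := fun n => hMk2 B (k' n) hB (hk'1 n)
    have hM1' : ∀ n, 1 ≤ M n := fun n => by linarith [hM2' n]
    set D : ℕ → ℝ := fun n => M n ^ K' with hDdef
    have hMD : ∀ n, M n ≤ D n := fun n => le_self_pow₀ (hM1' n) (by omega)
    have hev : ∀ᶠ n : ℕ in atTop, k' n = k n := by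
      filter_upwards [eventually_ge_atTop N0] with n hn
      simp only [hk', SEQ.mx_eq N0 n hn]
    have hslow : Slow D := by
      refine ⟨fun n => (hM2' n).trans (hMD n), fun J => ?_⟩
      refine (h2 (K' * J)).congr' ?_
      filter_upwards [hev] with n hn
      simp only [hDdef, hMdef, hn, ← pow_mul]
    have hbig : ∀ n, M n ^ K' ≤ (SEQ.mx N0 n : ℕ) := fun n => hN2 _ (hN02.trans (hmx n))
    have hdat : ∀ n, Nonempty (Dat2 (M n) (1 - (M n)⁻¹) (k' n) (SEQ.mx N0 n)) :=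
      fun n => hD (k' n) (SEQ.mx N0 n) (hk'1 n) ((hMD n).trans (hbig n))
    obtain ⟨d⟩ : Nonempty (∀ n, Dat2 (M n) (1 - (M n)⁻¹) (k' n) (SEQ.mx N0 n)) :=
      ⟨fun n => (hdat n).some⟩
    have hcrit : ∀ n, ∃ Vs Vt : ℤ → ℝ,
        KCG.CritSol (M n ^ K) (d n).G
          (KCG.GE.sr (d n).G.rho (SEQ.mx N0 n) (capS (k' n) (SEQ.mx N0 n))) Vs ∧
        KCG.CritSol (M n ^ K) (d n).G
          (KCG.GE.sr (d n).G.rho (SEQ.mx N0 n) (capT (k' n) (SEQ.mx N0 n))) Vt :=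
      fun n => hK (k' n) (SEQ.mx N0 n) (hk'1 n)
        (le_trans (pow_le_pow_right₀ (hM1' n) (by omega)) (hbig n)) (d n)
    choose Vs Vt hVs hVt using hcrit
    have hmono : ∀ n, M n ^ K ≤ D n := fun n => pow_le_pow_right₀ (hM1' n) (by omega)
    obtain ⟨Q, hQ, hQm, hQn, hQb, hQr⟩ := hM M D k' N0 hN0' hM2' hMD hk'1
      (fun j => by
        refine (h3 (K' * j)).congr' ?_
        filter_upwards [hev] with n hn
        simp only [hDdef, hMdef, hn, ← pow_mul])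
      (fun i j => by
        refine (h4 i (K' * j)).congr' ?_
        filter_upwards [hev] with n hn
        simp only [hDdef, hMdef, hn, ← pow_mul])
      (fun n => (d n).toDat) Vs Vt
      (fun n => KCG.QGV.sol_mono (pow_pos (by linarith [hM1' n]) _) (hmono n) (hVs n))
      (fun n => KCG.QGV.sol_mono (pow_pos (by linarith [hM1' n]) _) (hmono n) (hVt n))
    obtain ⟨Ko, hKo⟩ := hORD D hslow Q hQn hQb
    -- the numbers
    have hbasic : ∀ᶠ n : ℕ in atTop, k' n = k n ∧ SEQ.mx N0 n = n ∧ 2 ≤ n ∧ 1 ≤ k n ∧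
        1 ≤ Real.log n := by
      filter_upwards [hev, eventually_ge_atTop N0,
        (Real.tendsto_log_atTop.comp tendsto_natCast_atTop_atTop).eventually_ge_atTop 1]
        with n hn hn2 hn3
      refine ⟨hn, SEQ.mx_eq N0 n hn2, hN0'.trans hn2, ?_, hn3⟩
      rw [← hn]
      exact hk'1 n
    have hD4 : ∀ n, 4 ≤ D n ^ 2 := fun n => by
      have := hslow.1 n
      nlinarith
    have hD1 : ∀ n, 1 ≤ D n := fun n => by linarith [hslow.1 n]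
    refine ⟨fun x hx => ?_, fun r => ?_, ?_, ?_⟩
    · refine (hnew D hslow Q x hx).congr' ?_
      filter_upwards [hbasic] with n hn
      rw [hQ, hn.1, hn.2.1, hCDF (k n) n hn.2.2.2.1 hn.2.2.1]
    · refine (KCG.m_MOMK D hslow Q hQn hQb r).congr' ?_
      filter_upwards [hbasic] with n hn
      rw [hQm, hn.1, hn.2.1, hTRM (k n) n r hn.2.2.2.1 hn.2.2.1]
    · refine hLOG D hslow (fun n => ((ColConvex (k n) n).card : ℝ) / ((qk (k n))⁻¹) ^ n)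
        (-(1 / 2)) (Ko + 2) ?_
      filter_upwards [hbasic, hKo, r1 Kr] with n hn hord hr1
      obtain ⟨e1, e2, e3, e4, e5⟩ := hn
      obtain ⟨o1, o2, -, -⟩ := hord
      obtain ⟨hc, -, hW, -⟩ := hQr n
      have hrr : (Q.G n).rho = (d n).G.rho := (hQr n).2.1
      have hcr : ∑ p ∈ Pc (k' n) (SEQ.mx N0 n), (Q.G n).rho ^ hl p = 1 := by
        rw [hrr]
        exact (d n).crit
      have hr0 : 0 < (Q.G n).rho := (Q.G n).rho_pos
      rw [e1, e2] at hW hcr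
      obtain ⟨f1, -, f3⟩ := hKr (Mk B0 (k n)) (hMk2 B0 (k n) hB0 e4) (k n) (qk (k n)) e4
        (hTP (k n) e4).2.2 n (Q.G n).rho hr1 hr0 hcr
      rw [hc] at o1 o2
      have h6 := (card_area hTR (k n) n e4 e3).1
      rw [← hW] at h6
      rw [h6]
      exact num_bd (D n) (Q.W n) (Q.G n).rho (qk (k n)) (Real.log n) n Ko (hD1 n) (hD4 n) e3 e5
        (hqpos (k n) e4) f1 f3 o1 o2
    · refine hLOG D hslow (fun n => (∑ s ∈ ColConvex (k n) n, area n s) /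
        ((ColConvex (k n) n).card : ℝ)) (3 / 2) Ko ?_
      filter_upwards [hbasic, hKo] with n hn hord
      obtain ⟨e1, e2, e3, e4, e5⟩ := hn
      obtain ⟨-, -, o3, o4⟩ := hord
      obtain ⟨-, -, hW, hTt⟩ := hQr n
      rw [e1, e2] at hW hTt
      have h6 := card_area hTR (k n) n e4 e3
      rw [← hW, ← hTt] at h6
      rw [mean_bd _ _ _ n e3 _ h6.2 h6.1, ← sqrt3 n (by omega)]
      exact ⟨o3, o4⟩
  · intro k hk ε hε
    obtain ⟨k0, -, hk0⟩ := hGRO ε hε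
    filter_upwards [hk0, hk.eventually_ge_atTop k0] with n h1 h2
    refine h1.trans ?_
    exact_mod_cast card_le_card (FIN.colConvex_mono h2 n)
  · intro k hk
    obtain ⟨a, b, ha, hb, h1, h2⟩ := hCNX k _ _ _ hk (hTP k hk).2.2
    refine ⟨a, b, ha, hb, h1.congr fun n => ?_, h2⟩
    rw [inv_pow, div_inv_eq_mul]

end Pool.Agent.KCE
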