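import Pool.Agent.KCE.Stmts
import Pool.Agent.OC.Gs

/-!
# Column-convex polygons, explicit window: KAP

The weight of the pieces which are not allowed at the gap `a` is bounded by the weight of the
arches of gap `a`.
-/

set_option autoImplicit false

namespace Pool.Agent.KCE

open Finset Filter Topology MeasureTheory Pool.Agent.Lib27 Pool.Agent.AreaLaw Pool.Agent.KCC
open Pool.Agent.SapR (rot2 wordsUpTo)
open Pool.Agent.Gap (IsCap closeP AreaModel)
open scoped NNReal ENNReal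

namespace EKAP

/-- the weight of a pair, restricted to the pairs of width `b` -/
noncomputable def gi (z : ℝ≥0) (c b : ℕ) (q : Wd × Wd) : ℝ≥0∞ :=
  (XMX.Gxp c b).indicator (XM.Wz z) q

lemma sum_gi (z : ℝ≥0) (c b : ℕ) (S : Finset (Wd × Wd)) :
    ∑ q ∈ S, gi z c b q ≤ OC.gs (XM.Wz z) (XMX.Gxp c b) := by
  rw [OC.gs_indicator]
  exact ENNReal.sum_le_tsum S

/-- the weight of an arch -/
noncomputable def AA (rho : ℝ) (T : Wd) : ℝ≥0∞ := ENNReal.ofReal (rho ^ (T.length / 2))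

/-- the weight of the decomposition `(T, j, b, V, E)` -/
noncomputable def GG (rho : ℝ) (z : ℝ≥0) (c : ℕ) (q : Wd × ℕ × ℕ × Wd × Wd) : ℝ≥0∞ :=
  AA rho q.1 * gi z c q.2.2.1 q.2.2.2

/-- the piece of a decomposition -/
def dec (q : Wd × ℕ × ℕ × Wd × Wd) : Wd × Wd :=
  (q.1.take q.2.1 ++ q.2.2.2.1, rv q.2.2.2.2 ++ q.1.drop q.2.1)

/-- the weight inequality -/
lemma weight {rho : ℝ} {z : ℝ≥0} (hrho : 0 < rho) (hz : rho ≤ (z : ℝ) ^ 2) {h m e l : ℕ}
    (hh : h = m + e) (hl : l = 2 * e) :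
    ENNReal.ofReal (rho ^ h) ≤ ENNReal.ofReal (rho ^ m) * (z : ℝ≥0∞) ^ l := by
  have hz2 : (z : ℝ≥0∞) ^ 2 = ENNReal.ofReal ((z : ℝ) ^ 2) := by
    rw [ENNReal.ofReal_pow (NNReal.coe_nonneg z), ENNReal.ofReal_coe_nnreal]
  rw [hl, pow_mul, hz2, ← ENNReal.ofReal_pow (by positivity), ← ENNReal.ofReal_mul (by positivity)]
  apply ENNReal.ofReal_le_ofReal
  rw [hh, pow_add]
  exact mul_le_mul_of_nonneg_left (pow_le_pow_left₀ hrho.le hz e) (by positivity)

lemma mem_Pc' (k n : ℕ) (p : Wd × Wd) (h : p ∈ Pc k n) :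
    StripPair p.1 p.2 ∧ p.1.length + p.2.length ≤ 2 * n := by
  classical
  unfold Pc at h
  simp only [mem_filter] at h
  exact ⟨h.2.1.1, h.2.2⟩

lemma not_allowed (hp : PLA_Stmt) (hs : K5S_Stmt) {k n : ℕ} {a : ℤ} {p : Wd × Wd} (ha : 1 ≤ a)
    (h : p ∈ Pc k n) (hna : p ∉ allowed k n a) : ¬ Disj a p := by
  classical
  intro hd
  apply hna
  have h1 := hp (2 * a) (2 * (a + jump p)) p.1 p.2 (by omega) (mem_Pc' k n p h).1
    (by
      have h2 := (hs k n p h).2.2.2.2.2.2.2.2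
      linarith) hd
  unfold allowed
  simp only [mem_filter]
  exact ⟨h, ha, by omega, hd⟩

lemma mem_ArchSet' (k : ℕ) (x : ℤ) (N : ℕ) (w : Wd) :
    w ∈ ArchSet k x N ↔ w.length = N ∧ Arch x w ∧ Nar k w := by
  classical
  unfold ArchSet
  simp only [mem_filter, mem_words]

lemma mem_upTo (M : ℕ) (w : Wd) (h : w.length ≤ M) : w ∈ wordsUpTo M := by
  unfold wordsUpTo
  rw [mem_biUnion]
  exact ⟨w.length, by rw [mem_range]; omega, by rw [mem_words]⟩

/-- the decomposition of a piece which is not allowed -/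
lemma piece (hSPL : ESPL_Stmt) (hp : PLA_Stmt) (hs : K5S_Stmt) {k n L : ℕ} {rho : ℝ} {z : ℝ≥0}
    (hk : 1 ≤ k) (hrho : 0 < rho) (hz : rho ≤ (z : ℝ) ^ 2) {a : ℤ} (ha : 1 ≤ a)
    (p : Wd × Wd) (hPc : p ∈ Pc k n) (hna : p ∉ allowed k n a) (hlL : hl p ≤ L) :
    ∃ q : Wd × ℕ × ℕ × Wd × Wd,
      (∃ m, m ≤ L ∧ q.1 ∈ ArchSet k a (2 * m)) ∧ q.2.1 < 2 * L + 1 ∧
      q.2.2.1 < L + 1 ∧ q.2.2.2.1 ∈ wordsUpTo (2 * n) ∧ q.2.2.2.2 ∈ wordsUpTo (2 * n) ∧
      dec q = p ∧ ENNReal.ofReal (rho ^ hl p) ≤ GG rho z (2 * k - 2) q := by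
  have hnd := not_allowed hp hs ha hPc hna
  obtain ⟨-, -, hhn, -, -, hhtn, -, -, -⟩ := hs k n p hPc
  obtain ⟨T, V, E, j, b, m, hU, hD, hj, hT, hm, hVE, hb, hlen⟩ := hSPL k n a p hk ha hPc hnd
  have hTl : T.length = 2 * m := ((mem_ArchSet' k a (2 * m) T).mp hT).1
  refine ⟨(T, j, b, V, E), ⟨m, by omega, hT⟩, ?_, ?_, ?_, ?_, ?_, ?_⟩
  · show j < 2 * L + 1
    omega
  · show b < L + 1
    omega
  · exact mem_upTo _ _ (by show V.length ≤ _; omega)
  · exact mem_upTo _ _ (by show E.length ≤ _; omega)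
  · unfold dec
    simp only
    rw [← hU, ← hD]
  · unfold GG AA
    simp only
    have g1 : gi z (2 * k - 2) b (V, E) = (z : ℝ≥0∞) ^ (V.length + E.length) :=
      Set.indicator_of_mem hVE _
    rw [g1]
    exact weight (e := hl p - m) hrho hz (by omega) (by omega)

/-- the sum over all decompositions -/
lemma sum_GG {L c : ℕ} {rho X : ℝ} {z : ℝ≥0}
    (hb : ∀ b : ℕ, b ≤ L → OC.gs (XM.Wz z) (XMX.Gxp c b) ≤ ENNReal.ofReal X)
    (S Wf : Finset Wd) :
    ∑ q ∈ S ×ˢ range (2 * L + 1) ×ˢ range (L + 1) ×ˢ Wf ×ˢ Wf, GG rho z c q ≤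
      (((2 * L + 1 : ℕ) : ℝ≥0∞) * ((L + 1 : ℕ) : ℝ≥0∞) * ENNReal.ofReal X) *
        ∑ T ∈ S, AA rho T := by
  have h2 : ∑ q ∈ S ×ˢ range (2 * L + 1) ×ˢ range (L + 1) ×ˢ Wf ×ˢ Wf, GG rho z c q ≤
      ∑ T ∈ S, ∑ _j ∈ range (2 * L + 1), ∑ _k ∈ range (L + 1), AA rho T * ENNReal.ofReal X := by
    rw [Finset.sum_product]
    refine Finset.sum_le_sum fun T _ => ?_
    rw [Finset.sum_product]
    refine Finset.sum_le_sum fun j _ => ?_
    rw [Finset.sum_product]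
    refine Finset.sum_le_sum fun b hb' => ?_
    unfold GG
    simp only
    rw [← Finset.mul_sum]
    refine mul_le_mul' le_rfl ?_
    exact (sum_gi z c b (Wf ×ˢ Wf)).trans (hb b (by rw [mem_range] at hb'; omega))
  refine h2.trans (le_of_eq ?_)
  simp only [Finset.sum_const, card_range, nsmul_eq_mul]
  rw [← Finset.mul_sum, ← Finset.mul_sum, ← Finset.sum_mul]
  ring

/-- the sum over the arches -/
lemma sum_AA {L k : ℕ} {rho : ℝ} (hrho : 0 < rho) (a : ℤ) :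
    ∑ T ∈ (range (L + 1)).biUnion (fun m => ArchSet k a (2 * m)), AA rho T =
      ENNReal.ofReal (∑ m ∈ range (L + 1), ((ArchSet k a (2 * m)).card : ℝ) * rho ^ m) := by
  rw [Finset.sum_biUnion]
  · rw [ENNReal.ofReal_sum_of_nonneg]
    · refine Finset.sum_congr rfl fun m _ => ?_
      have h1 : ∑ w ∈ ArchSet k a (2 * m), AA rho w =
          ∑ _w ∈ ArchSet k a (2 * m), ENNReal.ofReal (rho ^ m) := by
        refine Finset.sum_congr rfl fun w hw => ?_
        rw [mem_ArchSet'] at hw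
        unfold AA
        rw [hw.1, Nat.mul_div_cancel_left m (by norm_num : 0 < 2)]
      rw [h1, Finset.sum_const, nsmul_eq_mul, ENNReal.ofReal_mul (by positivity),
        ENNReal.ofReal_natCast]
    · intro m _
      positivity
  · intro m _ m' _ hmm
    rw [Function.onFun, Finset.disjoint_left]
    intro w hw hw'
    rw [mem_ArchSet'] at hw hw'
    apply hmm
    have h1 := hw.1
    have h2 := hw'.1
    omega

end EKAP

open EKAP

theorem t_EKAP (h : ESPL_Stmt) (hp : PLA_Stmt) (hs : K5S_Stmt) : EKAP_Stmt := by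
  classical
  intro k n L rho X z hk hn hrho hX hz hb a ha
  set F := (Pc k n).filter (fun p => p ∉ allowed k n a ∧ hl p ≤ L) with hF
  set S : Finset Wd := (range (L + 1)).biUnion (fun m => ArchSet k a (2 * m)) with hS
  set Wf : Finset Wd := wordsUpTo (2 * n) with hWf
  have H : ∀ p ∈ F, ∃ q : Wd × ℕ × ℕ × Wd × Wd,
      q ∈ S ×ˢ range (2 * L + 1) ×ˢ range (L + 1) ×ˢ Wf ×ˢ Wf ∧ dec q = p ∧
      ENNReal.ofReal (rho ^ hl p) ≤ GG rho z (2 * k - 2) q := by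
    intro p hpF
    rw [hF, mem_filter] at hpF
    obtain ⟨hPc, hna, hlL⟩ := hpF
    obtain ⟨q, ⟨m, hm, hq1⟩, hq2, hq3, hq4, hq5, hq6, hq7⟩ :=
      piece h hp hs hk hrho hz ha p hPc hna hlL
    refine ⟨q, ?_, hq6, hq7⟩
    rw [mem_product, mem_product, mem_product, mem_product, mem_range, mem_range]
    refine ⟨?_, hq2, hq3, hq4, hq5⟩
    rw [hS, mem_biUnion]
    exact ⟨m, by rw [mem_range]; omega, hq1⟩
  choose! c hc using H
  have hinj : Set.InjOn c (F : Set (Wd × Wd)) := by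
    intro p hpF p' hpF' hh
    rw [← (hc p hpF).2.1, ← (hc p' hpF').2.1, hh]
  have h1 : ∑ p ∈ F, ENNReal.ofReal (rho ^ hl p) ≤
      ∑ q ∈ S ×ˢ range (2 * L + 1) ×ˢ range (L + 1) ×ˢ Wf ×ˢ Wf, GG rho z (2 * k - 2) q := by
    calc ∑ p ∈ F, ENNReal.ofReal (rho ^ hl p)
        ≤ ∑ p ∈ F, GG rho z (2 * k - 2) (c p) := Finset.sum_le_sum fun p hpF => (hc p hpF).2.2
      _ = ∑ q ∈ F.image c, GG rho z (2 * k - 2) q := (Finset.sum_image hinj).symm
      _ ≤ _ := by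
          apply Finset.sum_le_sum_of_subset
          intro q hq
          rw [mem_image] at hq
          obtain ⟨p, hpF, rfl⟩ := hq
          exact (hc p hpF).1
  have h2 := h1.trans (sum_GG (rho := rho) hb S Wf)
  rw [hS, sum_AA hrho a] at h2
  have e1 : ((2 * L + 1 : ℕ) : ℝ≥0∞) = ENNReal.ofReal (2 * (L : ℝ) + 1) := by
    rw [← ENNReal.ofReal_natCast]
    push_cast
    rfl
  have e2 : ((L + 1 : ℕ) : ℝ≥0∞) = ENNReal.ofReal ((L : ℝ) + 1) := by
    rw [← ENNReal.ofReal_natCast]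
    push_cast
    rfl
  rw [e1, e2, ← ENNReal.ofReal_mul (by positivity), ← ENNReal.ofReal_mul (by positivity),
    ← ENNReal.ofReal_mul (by positivity), ← ENNReal.ofReal_sum_of_nonneg (fun p _ => by positivity),
    ENNReal.ofReal_le_ofReal_iff] at h2
  · exact h2
  · have h7 : 0 ≤ ∑ m ∈ range (L + 1), ((ArchSet k a (2 * m)).card : ℝ) * rho ^ m :=
      Finset.sum_nonneg fun m _ => by positivity
    have h8 : (0 : ℝ) ≤ (2 * (L : ℝ) + 1) * ((L : ℝ) + 1) * X :=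
      mul_nonneg (mul_nonneg (by linarith [L.cast_nonneg (α := ℝ)])
        (by linarith [L.cast_nonneg (α := ℝ)])) hX
    exact mul_nonneg h8 h7

end Pool.Agent.KCE
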