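import Pool.Agent.KCE.Stmts2

/-!
# Column-convex polygons (MP_f6626d_co), explicit window: logarithms (module LOG)
-/

set_option autoImplicit false

namespace Pool.Agent.KCE

open Finset Filter Topology MeasureTheory
open Pool.Agent.EXW (Slow)

namespace LOGaux

lemma tend_log : Tendsto (fun n : ℕ => Real.log (n : ℝ)) atTop atTop :=
  Real.tendsto_log_atTop.comp tendsto_natCast_atTop_atTop

lemma tend_loglog : Tendsto (fun n : ℕ => Real.log (Real.log (n : ℝ)) / Real.log n) atTop
    (𝓝 0) :=
  (Real.isLittleO_log_id_atTop.tendsto_div_nhds_zero).comp tend_log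

lemma nat_exp {n : ℕ} (hn : 1 ≤ Real.log n) : (0 : ℝ) < n := by
  rcases Nat.eq_zero_or_pos n with h | h
  · subst h
    rw [Nat.cast_zero, Real.log_zero] at hn
    linarith
  · exact_mod_cast h

lemma tend_D (D : ℕ → ℝ) (hD : Slow D) :
    Tendsto (fun n : ℕ => Real.log (D n) / Real.log n) atTop (𝓝 0) := by
  rw [Metric.tendsto_atTop']
  intro e he
  obtain ⟨K, hK⟩ := exists_nat_gt (1 / e)
  have hK0 : (0 : ℝ) < K := lt_trans (by positivity) hK
  have h1 := (hD.2 K).eventually (gt_mem_nhds (show (0 : ℝ) < 1 by norm_num))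
  obtain ⟨N, hN⟩ := eventually_atTop.1 (h1.and (tend_log.eventually_ge_atTop 1))
  refine ⟨N, fun n hn => ?_⟩
  obtain ⟨h2, h3⟩ := hN n hn.le
  have h4 := nat_exp h3
  have hl : 0 < Real.log n := by linarith
  have h5 : 0 < D n := by linarith [hD.1 n]
  have h6 : 0 ≤ Real.log (D n) := Real.log_nonneg (by linarith [hD.1 n])
  rw [div_lt_one h4] at h2
  have h7 : K * Real.log (D n) ≤ Real.log n := by
    rw [← Real.log_pow]
    exact Real.log_le_log (by positivity) h2.le
  rw [Real.dist_eq, sub_zero, abs_of_nonneg (div_nonneg h6 hl.le), div_lt_iff₀ hl]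
  have h8 : 1 < e * K := by
    rw [div_lt_iff₀ he] at hK
    linarith
  nlinarith

end LOGaux

open LOGaux in
theorem t_ELOG : ELOG_Stmt := by
  intro D hD x a K hx
  have hf : Tendsto (fun n : ℕ => (K : ℝ) * (Real.log (D n) / Real.log n) +
      Real.log (Real.log (n : ℝ)) / Real.log n) atTop (𝓝 0) := by
    have h := ((tend_D D hD).const_mul (K : ℝ)).add tend_loglog
    simpa using h
  rw [tendsto_iff_norm_sub_tendsto_zero]
  refine squeeze_zero' (Eventually.of_forall fun n => norm_nonneg _) ?_ hf
  filter_upwards [hx, tend_log.eventually_ge_atTop 1] with n h1 h2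
  have h4 := nat_exp h2
  have hl : 0 < Real.log n := by linarith
  have h5 : 0 < D n := by linarith [hD.1 n]
  have h6 : 0 ≤ Real.log (D n) := Real.log_nonneg (by linarith [hD.1 n])
  have hll : 0 ≤ Real.log (Real.log n) := Real.log_nonneg h2
  have hna : 0 < (n : ℝ) ^ a := Real.rpow_pos_of_pos h4 a
  have hDK : 0 < D n ^ K := by positivity
  have hx0 : 0 < x n := lt_of_lt_of_le (by positivity) h1.1
  have e1 : Real.log ((D n ^ K)⁻¹ * (n : ℝ) ^ a) = -(K * Real.log (D n)) + a * Real.log n := by
    rw [Real.log_mul (by positivity) hna.ne', Real.log_inv, Real.log_pow, Real.log_rpow h4]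
  have e2 : Real.log (D n ^ K * ((n : ℝ) ^ a * Real.log n)) =
      K * Real.log (D n) + (a * Real.log n + Real.log (Real.log n)) := by
    rw [Real.log_mul hDK.ne' (by positivity), Real.log_pow, Real.log_mul hna.ne' hl.ne',
      Real.log_rpow h4]
  have g1 : -(K * Real.log (D n)) + a * Real.log n ≤ Real.log (x n) := by
    rw [← e1]
    exact Real.log_le_log (by positivity) h1.1
  have g2 : Real.log (x n) ≤ K * Real.log (D n) + (a * Real.log n + Real.log (Real.log n)) := by
    rw [← e2]
    exact Real.log_le_log hx0 h1.2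
  have e3 : Real.log (x n) / Real.log n - a = (Real.log (x n) - a * Real.log n) / Real.log n := by
    field_simp
  have e4 : (K : ℝ) * (Real.log (D n) / Real.log n) + Real.log (Real.log (n : ℝ)) / Real.log n =
      (K * Real.log (D n) + Real.log (Real.log n)) / Real.log n := by
    field_simp
  rw [Real.norm_eq_abs, e3, e4, abs_div, abs_of_pos hl]
  refine div_le_div_of_nonneg_right (abs_le.2 ⟨?_, ?_⟩) hl.le
  · linarith
  · linarith

end Pool.Agent.KCE
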