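import Pool.Agent.KCE.Stmts2
import Pool.Agent.KCQ.Base
import Pool.Agent.KCC.Seq

/-!
# EMOD: the sequence of models
-/

set_option autoImplicit false

namespace Pool.Agent.KCE

open Finset Filter Topology MeasureTheory Pool.Agent.Lib27 Pool.Agent.AreaLaw Pool.Agent.KCC
open Pool.Agent.KCC.SEQ
open Pool.Agent.Gap (IsCap closeP AreaModel)
open scoped NNReal ENNReal

namespace MOD

/-- the moments of the error for one model -/
lemma near_p (p K : ℕ) (hK : ∀ D : ℝ, 2 ≤ D →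
    ∀ (k n : ℕ) (rho : ℝ), 1 ≤ k → 2 ≤ n → 0 < rho → rho ≤ 1 →
      ∑ p ∈ Pc k n, rho ^ hl p = 1 → Tails D (1 - D⁻¹) k n rho →
      ∑ x ∈ Om k n, |((|dq x| : ℤ) : ℝ) / 2 - (Ar k n x.2.2.2 : ℝ)| ^ p ≤
        (D ^ K * n * Real.log n) ^ p * ((Om k n).card : ℝ) + D ^ K * (1 / ((n : ℝ) ^ 2 * rho ^ n)))
    (M D : ℝ) (hM : 2 ≤ M) (hMD : M ≤ D) (k : ℕ) (hk : 1 ≤ k) (n' n : ℕ) (hnn : n' = n)
    (hn : 2 ≤ n) (d : Dat M (1 - M⁻¹) k n') :
    ∑ x ∈ Om k n', |((|dq x| : ℤ) : ℝ) / 2 - (Ar k n' x.2.2.2 : ℝ)| ^ p ≤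
      (D ^ K * n * Real.log n) ^ p * ((Om k n').card : ℝ) +
        D ^ K * (1 / ((n : ℝ) ^ 2 * d.G.rho ^ n)) := by
  subst hnn
  have h1 := hK M hM k n' d.G.rho hk hn d.G.rho_pos d.rho_le d.crit d.tails
  refine h1.trans ?_
  have hn1 : (1 : ℝ) ≤ n' := by
    have : 1 ≤ n' := by omega
    exact_mod_cast this
  have hn0 : (0 : ℝ) < n' := by linarith
  have hlog : 0 ≤ Real.log n' := Real.log_nonneg hn1
  have hρ := pow_pos d.G.rho_pos n'
  have hM0 : 0 ≤ M := by linarith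
  have hpow : M ^ K ≤ D ^ K := pow_le_pow_left₀ hM0 hMD K
  have h2 : (M ^ K * n' * Real.log n') ^ p ≤ (D ^ K * n' * Real.log n') ^ p := by
    apply pow_le_pow_left₀ (by positivity)
    exact mul_le_mul_of_nonneg_right (mul_le_mul_of_nonneg_right hpow hn0.le) hlog
  exact add_le_add (mul_le_mul_of_nonneg_right h2 (Nat.cast_nonneg _))
    (mul_le_mul_of_nonneg_right hpow (by positivity))

/-- the moments on the bad part for one model -/
lemma bad_p (p : ℕ) (M D θ : ℝ) (hMD : M ≤ D) (hθ : 0 < θ) (k n' n : ℕ) (hnn : n' = n)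
    (hn : 2 ≤ n) (d : Dat M θ k n')
    (hsmall : (n : ℝ) ^ (2 * p + 2) * D ^ 1 * θ ^ n ≤ 1 / 4 ^ p) :
    ∑ w ∈ NoCut k n', 1 / (4 * (n' : ℝ)) * (|((dbl 0 w : ℤ) : ℝ)| / 2) ^ p ≤
      1 / ((n : ℝ) ^ 2 * d.G.rho ^ n) := by
  subst hnn
  have hn0 : (0 : ℝ) < n' := by
    have : 0 < n' := by omega
    exact_mod_cast this
  have hρ := pow_pos d.G.rho_pos n'
  have hθn : 0 < θ ^ n' := pow_pos hθ n'
  have h3 := d.tails.2.2
  obtain ⟨S, hS⟩ : ∃ S, S = ((NoCut k n').card : ℝ) := ⟨_, rfl⟩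
  rw [← hS] at h3
  have h4 : S ≤ D * n' * θ ^ n' / d.G.rho ^ n' := by
    rw [le_div_iff₀ hρ]
    have h5 : M * n' * θ ^ n' ≤ D * n' * θ ^ n' :=
      mul_le_mul_of_nonneg_right (mul_le_mul_of_nonneg_right hMD hn0.le) hθn.le
    linarith
  have h5 : ∑ w ∈ NoCut k n', 1 / (4 * (n' : ℝ)) * (|((dbl 0 w : ℤ) : ℝ)| / 2) ^ p ≤
      1 / (4 * (n' : ℝ)) * (4 * (n' : ℝ) ^ 2) ^ p * S := by
    have h6 : ∑ w ∈ NoCut k n', 1 / (4 * (n' : ℝ)) * (|((dbl 0 w : ℤ) : ℝ)| / 2) ^ p ≤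
        ∑ _w ∈ NoCut k n', 1 / (4 * (n' : ℝ)) * (4 * (n' : ℝ) ^ 2) ^ p := by
      refine Finset.sum_le_sum fun w hw => ?_
      have hw' : w ∈ W n' := by
        classical
        exact (Finset.mem_filter.1 hw).1
      have hlen := ((mem_W n' w).1 hw').1
      have h6 := Pool.Agent.SapR.H66.abs_dbl_le w
      rw [hlen] at h6
      have h7 : |((dbl 0 w : ℤ) : ℝ)| ≤ 4 * (n' : ℝ) ^ 2 := by
        have h8 : ((|dbl 0 w| : ℤ) : ℝ) ≤ (((2 * n' : ℕ) : ℤ) ^ 2 : ℤ) := by exact_mod_cast h6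
        push_cast at h8
        nlinarith
      have h70 : 0 ≤ |((dbl 0 w : ℤ) : ℝ)| := abs_nonneg _
      have h9 : (|((dbl 0 w : ℤ) : ℝ)| / 2) ^ p ≤ (4 * (n' : ℝ) ^ 2) ^ p :=
        pow_le_pow_left₀ (by positivity) (by linarith) p
      exact mul_le_mul_of_nonneg_left h9 (by positivity)
    rw [Finset.sum_const, nsmul_eq_mul, ← hS] at h6
    linarith
  refine h5.trans ?_
  have h11 : 1 / (4 * (n' : ℝ)) * (4 * (n' : ℝ) ^ 2) ^ p * S ≤
      1 / (4 * (n' : ℝ)) * (4 * (n' : ℝ) ^ 2) ^ p * (D * n' * θ ^ n' / d.G.rho ^ n') :=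
    mul_le_mul_of_nonneg_left h4 (by positivity)
  refine h11.trans ?_
  rw [one_div ((n' : ℝ) ^ 2 * d.G.rho ^ n'), mul_inv, ← div_eq_mul_inv, ← mul_div_assoc]
  refine div_le_div_of_nonneg_right ?_ hρ.le
  have e1 : 1 / (4 * (n' : ℝ)) * (4 * (n' : ℝ) ^ 2) ^ p * (D * n' * θ ^ n') =
      (1 / 4) * 4 ^ p * (((n' : ℝ) ^ (2 * p + 2) * D ^ 1 * θ ^ n')) * ((n' : ℝ) ^ 2)⁻¹ := by
    rw [mul_pow, pow_add (n' : ℝ) (2 * p) 2, pow_mul, pow_one]
    field_simp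
  rw [e1]
  have h12 : (1 / 4) * 4 ^ p * (((n' : ℝ) ^ (2 * p + 2) * D ^ 1 * θ ^ n')) ≤ 1 := by
    calc (1 / 4) * 4 ^ p * (((n' : ℝ) ^ (2 * p + 2) * D ^ 1 * θ ^ n'))
        ≤ (1 / 4) * 4 ^ p * (1 / 4 ^ p) := mul_le_mul_of_nonneg_left hsmall (by positivity)
      _ = 1 / 4 := by field_simp
      _ ≤ 1 := by norm_num
  have h13 : 0 < ((n' : ℝ) ^ 2)⁻¹ := by positivity
  nlinarith [mul_le_mul_of_nonneg_right h12 h13.le]

open Classical in
/-- the distribution function -/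
lemma cdf_eq (k n : ℕ) (x : ℝ) :
    (∑ y ∈ univ.filter fun y : OmS k n =>
        (TZ k n y : ℝ) / 2 * ∑ y' : OmS k n, wtS k n y' ≤
        x * ∑ y' : OmS k n, wtS k n y' * ((TZ k n y' : ℝ) / 2),
        wtS k n y) / ∑ y' : OmS k n, wtS k n y' = cdfS k n x := by
  have key : ∀ y : OmS k n,
      ((TZ k n y : ℝ) / 2 * ∑ y' : OmS k n, wtS k n y' ≤
        x * ∑ y' : OmS k n, wtS k n y' * ((TZ k n y' : ℝ) / 2)) ↔
      ((TZ k n y : ℝ) * ∑ y' : OmS k n, wtS k n y' ≤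
        x * ∑ y' : OmS k n, wtS k n y' * (TZ k n y' : ℝ)) := by
    intro y
    have e : ∑ y' : OmS k n, wtS k n y' * ((TZ k n y' : ℝ) / 2) =
        (∑ y' : OmS k n, wtS k n y' * (TZ k n y' : ℝ)) / 2 := by
      rw [Finset.sum_div]
      refine Finset.sum_congr rfl fun y' _ => ?_
      ring
    rw [e]
    constructor
    · intro h
      linarith
    · intro h
      linarith
  unfold cdfS
  congr 1
  refine Finset.sum_congr ?_ fun _ _ => rfl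
  ext y
  rw [Finset.mem_filter, Finset.mem_filter, key y]

end MOD

theorem t_EMOD (h : EPDF_Stmt) : EMOD_Stmt := by
  obtain ⟨⟨Kn, hN⟩, hPDIF⟩ := h
  refine ⟨Kn, fun M D k N0 hN0 hM hMD1 hk hκ hexp d Vs Vt hVs hVt => ?_⟩
  have hM0 : ∀ n, 0 < M n := fun n => by linarith [hM n]
  have hθ0 : ∀ n, 0 < 1 - (M n)⁻¹ := fun n => by
    have : (M n)⁻¹ ≤ 1 / 2 := by
      rw [← one_div]
      exact one_div_le_one_div_of_le (by norm_num) (hM n)
    linarith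
  have key : ∃ Q : KCG.QModel D, (∀ n x, Q.cdf n x = cdfS (k n) (mx N0 n) x) ∧
      (∀ n r, Q.mom n r = momS (k n) (mx N0 n) r) ∧
      (∀ n, Q.G n = (d n).G) ∧ (∀ n, Q.c n = 1) ∧
      (∀ n, ∑ x ∈ Q.good n, Q.wt n x = ((Om (k n) (mx N0 n)).card : ℝ)) ∧
      (∀ n p, ∑ x ∈ Q.good n, Q.wt n x * |Q.T n x - Q.A n x| ^ p =
        ∑ x ∈ Om (k n) (mx N0 n),
          |((|dq x| : ℤ) : ℝ) / 2 - (Ar (k n) (mx N0 n) x.2.2.2 : ℝ)| ^ p) ∧
      (∀ n p, ∑ x : Q.Omega n, Q.wt n x * Q.T n x ^ p - ∑ x ∈ Q.good n, Q.wt n x * Q.T n x ^ p =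
        ∑ w ∈ NoCut (k n) (mx N0 n), 1 / (4 * ((mx N0 n : ℕ) : ℝ)) *
          (|((dbl 0 w : ℤ) : ℝ)| / 2) ^ p) ∧
      (∀ n, Q.W n = ∑ y : OmS (k n) (mx N0 n), wtS (k n) (mx N0 n) y) ∧
      (∀ n, ∑ y : Q.Omega n, Q.wt n y * Q.T n y =
        ∑ y : OmS (k n) (mx N0 n), wtS (k n) (mx N0 n) y *
          ((TZ (k n) (mx N0 n) y : ℝ) / 2)) := by
   refine ⟨{
    G := fun n => (d n).G
    C0 := fun n => mx N0 n
    s := fun n => capS (k n) (mx N0 n)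
    t := fun n => capT (k n) (mx N0 n)
    Vs := Vs
    Vt := Vt
    cls := fun n => KCG.cls_mono (hM n) (hMD1 n) (d n).cls
    cap_s := fun n => KCG.clsCap_mono (hM n) (hMD1 n) (d n).cap_s
    cap_t := fun n => KCG.clsCap_mono (hM n) (hMD1 n) (d n).cap_t
    crit_s := hVs
    crit_t := hVt
    B := fun n => (d n).B
    sol := fun n => (d n).sol
    Omega := fun n => OmS (k n) (mx N0 n)
    fin := fun n => inferInstance
    good := fun n => goodO (k n) (mx N0 n)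
    wt := fun n => wtS (k n) (mx N0 n)
    T := fun n x => (TZ (k n) (mx N0 n) x : ℝ) / 2
    A := fun n => AO (k n) (mx N0 n)
    wt_nonneg := fun n x => wtS_nonneg _ _ x
    T_nonneg := fun n x => div_nonneg (TZ_nonneg _ _ x) zero_le_two
    c := fun _ => 1
    c_pos := fun _ => one_pos
    κ := fun n => kap0 (M n ^ Kn) (M n) (1 - (M n)⁻¹) n
    κ_lim := hκ
    n1 := N0
    count := ?_
    near := ?_
    bad := ?_ }, ?_, ?_, ?_, ?_, ?_, ?_, ?_, ?_, ?_⟩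
   · intro n hn
     have h1 := (d n).count
     rw [Polynomial.C_1, one_mul]
     have h2 : closeP (mx N0 n) (capT (k n) (mx N0 n)) (d n).B (mx N0 n) =
         closeP (mx N0 n) (capT (k n) (mx N0 n)) (d n).B n :=
       congrArg (closeP (mx N0 n) (capT (k n) (mx N0 n)) (d n).B) (mx_eq N0 n hn)
     rw [← h2, ← h1]
     refine sum_goodO (k n) (mx N0 n) (fun q =>
       (Polynomial.X : Polynomial ℝ) ^ (Ar (k n) (mx N0 n) q.2.2.2)) _ (fun q => ?_)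
     simp only [wtS, AO, Sum.elim_inl, Polynomial.C_1, one_mul]
   · intro n hn
     have h1 := near_bound (hM0 n) (hθ0 n) (show 0 < M n ^ Kn from pow_pos (hM0 n) _)
       (hN (M n) (hM n)) (k n) (hk n) (mx N0 n) n (mx_eq N0 n hn) (hN0.trans hn) (d n)
     have e1 : ∑ x ∈ goodO (k n) (mx N0 n), wtS (k n) (mx N0 n) x *
         |(TZ (k n) (mx N0 n) x : ℝ) / 2 - AO (k n) (mx N0 n) x| =
         ∑ q ∈ Om (k n) (mx N0 n),
           |((|dq q| : ℤ) : ℝ) / 2 - (Ar (k n) (mx N0 n) q.2.2.2 : ℝ)| := by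
       refine sum_goodO (k n) (mx N0 n) (fun q =>
         |((|dq q| : ℤ) : ℝ) / 2 - (Ar (k n) (mx N0 n) q.2.2.2 : ℝ)|) _ (fun q => ?_)
       simp only [wtS, TZ, AO, Sum.elim_inl, one_mul]
     have e2 : ∑ x ∈ goodO (k n) (mx N0 n), wtS (k n) (mx N0 n) x =
         ((Om (k n) (mx N0 n)).card : ℝ) := by
       rw [sum_goodO (k n) (mx N0 n) (fun _ => (1 : ℝ)) _ (fun q => rfl)]
       simp
     rw [e1, e2]
     exact h1
   · intro n hn
     have h1 := bad_bound (hM0 n) (hθ0 n) (show 0 < M n ^ Kn from pow_pos (hM0 n) _)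
       (k n) (mx N0 n) n (mx_eq N0 n hn) (hN0.trans hn) (d n)
     refine le_trans (le_of_eq ?_) h1
     have e1 : ∑ x : OmS (k n) (mx N0 n), wtS (k n) (mx N0 n) x *
           (1 + (TZ (k n) (mx N0 n) x : ℝ) / 2) =
         ∑ q ∈ Om (k n) (mx N0 n), (1 + ((|dq q| : ℤ) : ℝ) / 2) +
         ∑ w ∈ NoCut (k n) (mx N0 n), 1 / (4 * ((mx N0 n : ℕ) : ℝ)) *
           (1 + |((dbl 0 w : ℤ) : ℝ)| / 2) := by
       refine sum_OmS (k n) (mx N0 n) _ _ _ (fun q => ?_) (fun w => ?_)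
       · simp only [wtS, TZ, Sum.elim_inl, one_mul]
       · simp only [wtS, TZ, Sum.elim_inr, Int.cast_abs]
     have e2 : ∑ x ∈ goodO (k n) (mx N0 n), wtS (k n) (mx N0 n) x *
           (1 + (TZ (k n) (mx N0 n) x : ℝ) / 2) =
         ∑ q ∈ Om (k n) (mx N0 n), (1 + ((|dq q| : ℤ) : ℝ) / 2) := by
       refine sum_goodO (k n) (mx N0 n) (fun q => (1 + ((|dq q| : ℤ) : ℝ) / 2)) _ (fun q => ?_)
       simp only [wtS, TZ, Sum.elim_inl, one_mul]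
     rw [e1, e2]
     ring
   · intro n x
     rw [← MOD.cdf_eq (k n) (mx N0 n) x]
     unfold KCG.QModel.cdf KCG.QModel.W
     congr 1
   · intro n r
     rfl
   · intro n
     rfl
   · intro n
     rfl
   · intro n
     change ∑ x ∈ goodO (k n) (mx N0 n), wtS (k n) (mx N0 n) x = _
     rw [sum_goodO (k n) (mx N0 n) (fun _ => (1 : ℝ)) _ (fun q => rfl)]
     simp
   · intro n p
     refine sum_goodO (k n) (mx N0 n) (fun q =>
       |((|dq q| : ℤ) : ℝ) / 2 - (Ar (k n) (mx N0 n) q.2.2.2 : ℝ)| ^ p) _ (fun q => ?_)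
     simp only [wtS, TZ, AO, Sum.elim_inl, one_mul]
   · intro n p
     have e1 : ∑ x : OmS (k n) (mx N0 n), wtS (k n) (mx N0 n) x *
          ((TZ (k n) (mx N0 n) x : ℝ) / 2) ^ p =
        ∑ q ∈ Om (k n) (mx N0 n), (((|dq q| : ℤ) : ℝ) / 2) ^ p +
        ∑ w ∈ NoCut (k n) (mx N0 n), 1 / (4 * ((mx N0 n : ℕ) : ℝ)) *
          (|((dbl 0 w : ℤ) : ℝ)| / 2) ^ p := by
       refine sum_OmS (k n) (mx N0 n) _ _ _ (fun q => ?_) (fun w => ?_)
       · simp only [wtS, TZ, Sum.elim_inl, one_mul]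
       · simp only [wtS, TZ, Sum.elim_inr, Int.cast_abs]
     have e2 : ∑ x ∈ goodO (k n) (mx N0 n), wtS (k n) (mx N0 n) x *
          ((TZ (k n) (mx N0 n) x : ℝ) / 2) ^ p =
        ∑ q ∈ Om (k n) (mx N0 n), (((|dq q| : ℤ) : ℝ) / 2) ^ p := by
       refine sum_goodO (k n) (mx N0 n) (fun q => (((|dq q| : ℤ) : ℝ) / 2) ^ p) _ (fun q => ?_)
       simp only [wtS, TZ, Sum.elim_inl, one_mul]
     change ∑ x : OmS (k n) (mx N0 n), wtS (k n) (mx N0 n) x *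
         ((TZ (k n) (mx N0 n) x : ℝ) / 2) ^ p -
       ∑ x ∈ goodO (k n) (mx N0 n), wtS (k n) (mx N0 n) x *
         ((TZ (k n) (mx N0 n) x : ℝ) / 2) ^ p = _
     rw [e1, e2]
     ring
   · intro n
     rfl
   · intro n
     rfl
  obtain ⟨Q, hcdf, hmom, hG, hc, hgood, hnear, hbad, hW, hT⟩ := key
  refine ⟨Q, hcdf, hmom, ?_, ?_, fun n => ⟨hc n, by rw [hG n], hW n, hT n⟩⟩
  · intro p
    obtain ⟨K, hK⟩ := hPDIF p
    refine ⟨K, ?_⟩
    filter_upwards [eventually_ge_atTop N0] with n hn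
    rw [hnear n p, hgood n, hG n, hc n]
    exact MOD.near_p p K hK (M n) (D n) (hM n) (hMD1 n) (k n) (hk n) (mx N0 n) n (mx_eq N0 n hn)
      (hN0.trans hn) (d n)
  · intro p
    have h1 : ∀ᶠ n : ℕ in atTop,
        (n : ℝ) ^ (2 * p + 2) * D n ^ 1 * (1 - (M n)⁻¹) ^ n < 1 / 4 ^ p :=
      (hexp (2 * p + 2) 1).eventually_lt_const (by positivity)
    filter_upwards [eventually_ge_atTop N0, h1] with n hn h2
    rw [hbad n p, hG n, hc n]
    exact MOD.bad_p p (M n) (D n) _ (hMD1 n) (hθ0 n) (k n) (mx N0 n) n (mx_eq N0 n hn)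
      (hN0.trans hn) (d n) h2.le

end Pool.Agent.KCE
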