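import Pool.Agent.KCE.Stmts
import Pool.Agent.KCS.NED
import Pool.Agent.KCC.Near
import Pool.Agent.EXW.Base
import Pool.Agent.EXW.NEARP

/-!
# Project KCE (MP_f6626d_co), module NRP: excess of the error of the area functional, explicit constants

`NED` (`KCS/NED.lean`) with the constants of `EXW/NEARP.lean`.
-/

set_option autoImplicit false

namespace Pool.Agent.KCE

namespace NRP

open Finset Filter Topology Pool.Agent.Lib27 Pool.Agent.KCC Pool.Agent.KCC.NEAR Pool.Agent.KCC.NED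

/-- mean excess of the error of the area functional, explicit constants -/
theorem core (h2 : K2_Stmt) (h4 : K4_Stmt) (hs : K5S_Stmt) (hc : K5C_Stmt) (har : AR_Stmt)
    (hpos : POS_Stmt) (D : ℕ) {C θ q B : ℝ} (hC : 0 < C) (hθ0 : 0 < θ) (hθ1 : θ < 1)
    (hq3 : q ^ 3 = θ) (hq0 : 0 < q) (hq1 : q < 1) (hB0 : 0 < B)
    (hB : ∀ m : ℕ, 4 * (m : ℝ) ^ 2 * q ^ m ≤ B) :
  ∀ (k n : ℕ) (rho : ℝ), 1 ≤ k → 2 ≤ n → 0 < rho → rho ≤ 1 →
    ∑ p ∈ Pc k n, rho ^ hl p = 1 → Tails C θ k n rho →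
    ∑ x ∈ Om k n, max 0 (|((|dq x| : ℤ) : ℝ) / 2 - (Ar k n x.2.2.2 : ℝ)| -
      16 * (((D + 1 : ℕ) : ℝ) / (-Real.log q) + 2) * Real.log n * n) ≤
    ((C / θ * (B * (1 / (1 - q)))) * (C / θ * (1 / (1 - θ))) *
      (5 + C / θ * (1 / (1 - θ)))) / ((n : ℝ) ^ D * rho ^ n) := by
  classical
  have hlq : 0 < -Real.log q := by
    have := Real.log_neg hq0 hq1
    linarith
  set K : ℝ := ((D + 1 : ℕ) : ℝ) / (-Real.log q) with hK
  have hK0 : 0 < K := div_pos (by positivity) hlq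
  have h1θ : 0 < 1 - θ := by linarith
  have h1q : 0 < 1 - q := by linarith
  set C' : ℝ := C / θ with hC'
  have hC'0 : 0 < C' := by positivity
  have hCC' : C ≤ C' := by
    rw [hC', le_div_iff₀ hθ0]
    nlinarith
  set Zb : ℝ := C' * (1 / (1 - θ)) with hZb
  have hZb0 : 0 < Zb := by positivity
  set a0 : ℝ := C' * (B * (1 / (1 - q))) with ha0
  have ha00 : 0 < a0 := by positivity
  intro k n rho hk hn hrho hrho1 hmass ht
  obtain ⟨ht1, ht2, -⟩ := ht
  set L : ℕ := ⌈K * Real.log n⌉₊ with hL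
  set a : ℝ := a0 * q ^ L with ha
  have ha1 : 0 < a := by positivity
  have hn0 : (0 : ℝ) < n := by positivity
  have hn2 : (2 : ℝ) ≤ n := by exact_mod_cast hn
  have hlog : 1 ≤ 2 * Real.log n := by
    have h1 : Real.log 2 ≤ Real.log n := Real.log_le_log (by norm_num) hn2
    have h2 := Real.log_two_gt_d9
    norm_num at h2 ⊢
    linarith
  -- caps
  have hcap : ∀ N x, N ≤ n → 1 ≤ x → Cs k rho N x ≤ C' * θ ^ N := by
    intro N x hN hx
    rcases lt_or_ge (N : ℤ) (x + 1) with hNx | hNx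
    · unfold NEAR.Cs
      rw [CapSet_far hc hx hNx, card_empty, Nat.cast_zero, mul_zero]
      positivity
    · obtain ⟨m, rfl⟩ : ∃ m, N = m + 1 := ⟨N - 1, by omega⟩
      push_cast at hNx
      have h3 : ((CapSet k x (2 * m + 2)).card : ℝ) * rho ^ m ≤ C * θ ^ m := by
        refine le_trans ?_ (ht2 m (by omega))
        exact single_le_sum (f := fun g => ((CapSet k g (2 * m + 2)).card : ℝ) * rho ^ m)
          (fun g _ => by positivity) (mem_Icc.2 ⟨hx, by omega⟩)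
      have h4 : C' * θ ^ (m + 1) = C * θ ^ m := by
        rw [hC']
        field_simp
        ring
      rw [h4]
      refine le_trans ?_ h3
      unfold NEAR.Cs
      rw [show 2 * (m + 1) = 2 * m + 2 by ring, mul_comm]
      apply mul_le_mul_of_nonneg_left _ (by positivity)
      exact pow_le_pow_of_le_one hrho.le hrho1 (Nat.le_succ m)
  -- long pieces
  have hvv : ∀ m, θ ^ m * vv L m ≤ (B * q ^ L) * q ^ m := by
    intro m
    unfold vv
    split_ifs with hm
    · have e1 : θ ^ m = q ^ m * q ^ m * q ^ m := by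
        rw [← hq3, ← pow_mul, ← pow_add, ← pow_add]; congr 1; ring
      have e2 : q ^ m ≤ q ^ L := pow_le_pow_of_le_one hq0.le hq1.le hm.le
      have e3 : 4 * (m : ℝ) ^ 2 * q ^ m * q ^ m ≤ B * q ^ L :=
        mul_le_mul (hB m) e2 (by positivity) hB0.le
      have e4 : θ ^ m * (4 * (m : ℝ) ^ 2) =
          (4 * (m : ℝ) ^ 2 * q ^ m * q ^ m) * q ^ m := by rw [e1]; ring
      rw [e4]
      exact mul_le_mul_of_nonneg_right e3 (by positivity)
    · rw [mul_zero]; positivity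
  have hvsum : ∀ (D' : ℝ) (N : ℕ), 0 ≤ D' → D' ≤ C' →
      ∑ m ∈ range N, D' * θ ^ m * vv L m ≤ a := by
    intro D' N hD0 hD
    have h3 : ∑ m ∈ range N, D' * θ ^ m * vv L m ≤
        ∑ m ∈ range N, (C' * (B * q ^ L)) * q ^ m := by
      apply sum_le_sum
      intro m _
      have e1 := mul_le_mul_of_nonneg_left (hvv m) hD0
      have e2 : D' * (B * q ^ L * q ^ m) ≤ C' * (B * q ^ L * q ^ m) :=
        mul_le_mul_of_nonneg_right hD (by positivity)
      linarith
    refine h3.trans ?_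
    rw [← mul_sum]
    have e1 := mul_le_mul_of_nonneg_left (geo hq0.le hq1 N)
      (show 0 ≤ C' * (B * q ^ L) by positivity)
    refine e1.trans (le_of_eq ?_)
    rw [ha, ha0]; ring
  have hA : ∑ p ∈ Pc k n, mu rho p * vv L (hl p) ≤ a := by
    have hmaps : ∀ p ∈ Pc k n, hl p ∈ range (n + 1) := by
      intro p hp
      have := len_hl hs hp
      rw [mem_range]; omega
    rw [← sum_fiberwise_of_maps_to hmaps]
    refine le_trans (sum_le_sum fun m _ => ?_) (hvsum C (n + 1) hC.le hCC')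
    have e1 : ∑ p ∈ (Pc k n).filter (fun p => hl p = m), mu rho p * vv L (hl p) =
        (((Pc k n).filter (fun p => hl p = m)).card : ℝ) * rho ^ m * vv L m := by
      rw [mul_assoc, ← nsmul_eq_mul, ← sum_const]
      apply sum_congr rfl
      intro p hp
      rw [mem_filter] at hp
      unfold mu
      rw [hp.2]
    rw [e1]
    exact mul_le_mul_of_nonneg_right (ht1 m) (vv_nonneg _ _)
  have hmass' : ∑ p ∈ Pc k n, mu rho p = 1 := hmass
  -- total weight of the arches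
  have hZ : ∀ j x, j ≤ n → 1 ≤ x → Gs k rho (fun _ _ => 1) j x ≤ Zb := by
    intro j x hj hx
    have := solve h2 hs hk hrho (f := fun _ _ => 1) (u := fun _ => 1) (v := fun _ => 0)
      (cN := fun N => C' * θ ^ N) (Zb := 0) (A := 0) (fun _ => le_rfl) (fun _ => zero_le_one)
      hcap (fun N => by positivity) hmass' (by simp) (fun _ _ _ _ _ _ => le_rfl)
      (fun _ _ _ _ _ _ _ _ _ => by simp) le_rfl (fun _ _ _ _ _ => by simp) j hj j x le_rfl hx
    refine this.trans ?_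
    simp only [mul_one, mul_zero, add_zero]
    rw [← mul_sum]
    exact mul_le_mul_of_nonneg_left (geo hθ0.le hθ1 _) hC'0.le
  -- error of the arches
  have hE : ∀ j x, j ≤ n → 1 ≤ x → Gs k rho (fE k n L) j x ≤ a + n * (a * Zb) := by
    intro j x hj hx
    have := solve h2 hs hk hrho (f := fE k n L) (u := vv L) (v := vv L)
      (cN := fun N => C' * θ ^ N) (Zb := Zb) (A := a) (vv_nonneg L) (vv_nonneg L)
      hcap (fun N => by positivity) hmass' hA
      (fun N x T hN hx hT => fE_cap hc har hk hN hx hT)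
      (fun N x p w hNn hx hp hN hw => fE_step h4 hs har hk hNn hx hp hN hw) hZb0.le
      (fun j x m hj hx => mul_le_mul_of_nonneg_left (hZ j x hj hx) (vv_nonneg _ _)) n le_rfl
      j x hj hx
    refine this.trans ?_
    exact add_le_add (hvsum C' _ hC'0.le le_rfl) le_rfl
  set e : ℝ := a + n * (a * Zb) with he
  have he0 : 0 ≤ e := by positivity
  -- the polygons
  have hsumOm : ∀ F : (_ : ℤ) × (_ : ℕ) × (Wd × Wd) → ℝ, ∑ q ∈ Om k n, F q =
      ∑ x ∈ Icc (1 : ℤ) n, ∑ m ∈ range (n + 1), ∑ T ∈ CapSet k x (2 * m + 2),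
        ∑ w ∈ ArchSet k x (2 * (n - m)), F ⟨x, m, T, w⟩ := by
    intro F
    unfold Om
    rw [sum_sigma]
    apply sum_congr rfl
    intro x _
    rw [sum_sigma]
    apply sum_congr rfl
    intro M _
    rw [sum_product]
  have hmain : ∑ q ∈ Om k n, max 0 (|((|dq q| : ℤ) : ℝ) / 2 - (Ar k n q.2.2.2 : ℝ)| -
      16 * L * n) ≤ (rho ^ n)⁻¹ *
        ∑ m ∈ range (n + 1), C * θ ^ m * (e + 4 * vv L m * Zb) := by
    have hc3 := caps hc (L := L) he0 hZb0.le ht2
    refine le_trans ?_ (mul_le_mul_of_nonneg_left hc3 (by positivity : (0 : ℝ) ≤ (rho ^ n)⁻¹))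
    rw [hsumOm]
    simp only [mul_sum]
    apply sum_le_sum
    intro x hx
    apply sum_le_sum
    intro m hm
    apply sum_le_sum
    intro T hT
    rw [mem_Icc] at hx
    rw [mem_range] at hm
    exact inner' h4 hc hpos (L := L) hrho hx.1 (by omega) hT
      (hE _ _ (by omega) hx.1) (hZ _ _ (by omega) hx.1)
  have hsum : ∑ m ∈ range (n + 1), C * θ ^ m * (e + 4 * vv L m * Zb) ≤ Zb * e + 4 * a * Zb := by
    have e1 : ∑ m ∈ range (n + 1), C * θ ^ m * (e + 4 * vv L m * Zb) =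
        (C * ∑ m ∈ range (n + 1), θ ^ m) * e +
          4 * (∑ m ∈ range (n + 1), C * θ ^ m * vv L m) * Zb := by
      rw [mul_sum, sum_mul, mul_sum, sum_mul, ← sum_add_distrib]
      apply sum_congr rfl
      intro k _
      ring
    rw [e1]
    apply add_le_add
    · apply mul_le_mul_of_nonneg_right _ he0
      refine (mul_le_mul_of_nonneg_left (geo hθ0.le hθ1 _) hC.le).trans ?_
      exact mul_le_mul_of_nonneg_right hCC' (by positivity)
    · apply mul_le_mul_of_nonneg_right _ hZb0.le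
      have := hvsum C (n + 1) hC.le hCC'
      linarith
  have hqL : q ^ L ≤ ((n : ℝ) ^ (D + 1))⁻¹ := by
    have e1 : q ^ L = Real.exp (L * Real.log q) := by
      rw [Real.exp_nat_mul, Real.exp_log hq0]
    have e2 : ((n : ℝ) ^ (D + 1))⁻¹ = Real.exp (-(((D + 1 : ℕ) : ℝ) * Real.log n)) := by
      rw [Real.exp_neg, Real.exp_nat_mul, Real.exp_log hn0]
    rw [e1, e2]
    apply Real.exp_le_exp.2
    have e3 : K * Real.log n ≤ L := Nat.le_ceil _
    have e4 := mul_le_mul_of_nonneg_right e3 hlq.le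
    have hKq : K * (-Real.log q) = ((D + 1 : ℕ) : ℝ) := div_mul_cancel₀ _ hlq.ne'
    have e5 : K * Real.log n * (-Real.log q) = ((D + 1 : ℕ) : ℝ) * Real.log n := by
      rw [← hKq]; ring
    rw [e5] at e4
    linarith
  have hL2 : 16 * (L : ℝ) ≤ 16 * (K + 2) * Real.log n := by
    have e1 : (L : ℝ) < K * Real.log n + 1 := Nat.ceil_lt_add_one (by positivity)
    linarith
  have hrn : 0 < rho ^ n := by positivity
  have hfirst : 16 * (L : ℝ) * n ≤ 16 * (K + 2) * Real.log n * n :=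
    mul_le_mul_of_nonneg_right hL2 hn0.le
  have hsecond : (rho ^ n)⁻¹ * ∑ m ∈ range (n + 1), C * θ ^ m * (e + 4 * vv L m * Zb) ≤
      (a0 * Zb * (5 + Zb)) / ((n : ℝ) ^ D * rho ^ n) := by
    have e1 : Zb * e + 4 * a * Zb ≤ a0 * Zb * (5 + Zb) / (n : ℝ) ^ D := by
      have e2 : Zb * e + 4 * a * Zb = a0 * Zb * (5 + n * Zb) * q ^ L := by
        rw [he, ha]; ring
      rw [e2]
      have e3 : a0 * Zb * (5 + n * Zb) ≤ a0 * Zb * (5 + Zb) * n := by
        have : 5 + n * Zb ≤ (5 + Zb) * n := by nlinarith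
        have h2 := mul_le_mul_of_nonneg_left this (show 0 ≤ a0 * Zb by positivity)
        linarith
      have e4 : a0 * Zb * (5 + n * Zb) * q ^ L ≤
          a0 * Zb * (5 + Zb) * n * ((n : ℝ) ^ (D + 1))⁻¹ :=
        mul_le_mul e3 hqL (by positivity) (by positivity)
      refine e4.trans (le_of_eq ?_)
      rw [pow_succ]
      field_simp
    have e5 := hsum.trans e1
    have e6 := mul_le_mul_of_nonneg_left e5 (inv_nonneg.2 hrn.le)
    refine e6.trans (le_of_eq ?_)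
    field_simp
  refine le_trans (sum_le_sum fun x _ => ?_) (hmain.trans hsecond)
  exact max_le_max le_rfl (by linarith)

/-- the constant -/
lemma const_le {D q : ℝ} (hD : 2 ≤ D) (hq : q ≤ 1 - (3 * D)⁻¹) :
    (D / (1 - D⁻¹) * (216 * D ^ 3 * (1 / (1 - q)))) * (D / (1 - D⁻¹) * (1 / (1 - (1 - D⁻¹)))) *
      (5 + D / (1 - D⁻¹) * (1 / (1 - (1 - D⁻¹)))) ≤ D ^ 23 := by
  have hD0 : 0 < D := by linarith
  have hi : 0 < (3 * D)⁻¹ := by positivity
  have h1 : (3 * D)⁻¹ ≤ 1 - q := by linarith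
  have h2 : 1 / (1 - q) ≤ 3 * D := by
    rw [one_div]
    have := inv_anti₀ hi h1
    rwa [inv_inv] at this
  have hDi : D⁻¹ ≤ 1 / 2 := by
    rw [inv_le_comm₀ hD0 (by norm_num)]
    norm_num
    exact hD
  have h3 : D / (1 - D⁻¹) ≤ 2 * D := by
    rw [div_le_iff₀ (by linarith)]
    nlinarith
  have h3' : 0 ≤ D / (1 - D⁻¹) := div_nonneg hD0.le (by linarith)
  have h5 : 1 / (1 - (1 - D⁻¹)) = D := by
    rw [sub_sub_cancel, one_div, inv_inv]
  rw [h5]
  have h6 : 0 ≤ 1 / (1 - q) := by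
    have : 0 < 1 - q := by linarith
    positivity
  have h7 : (D / (1 - D⁻¹) * (216 * D ^ 3 * (1 / (1 - q)))) * (D / (1 - D⁻¹) * D) *
      (5 + D / (1 - D⁻¹) * D) ≤
      (2 * D * (216 * D ^ 3 * (3 * D))) * (2 * D * D) * (5 + 2 * D * D) := by gcongr
  have p : ∀ k : ℕ, (2 : ℝ) ^ k ≤ D ^ k := fun k => pow_le_pow_left₀ (by norm_num) hD k
  have h8 : (5 : ℝ) + 2 * D * D ≤ 4 * D ^ 2 := by nlinarith
  have h9 : (2 * D * (216 * D ^ 3 * (3 * D))) * (2 * D * D) * (5 + 2 * D * D) ≤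
      (2 * D * (216 * D ^ 3 * (3 * D))) * (2 * D * D) * (4 * D ^ 2) :=
    mul_le_mul_of_nonneg_left h8 (by positivity)
  have h10 : (2 * D * (216 * D ^ 3 * (3 * D))) * (2 * D * D) * (4 * D ^ 2) =
      10368 * D ^ 9 := by ring
  have h11 : (10368 : ℝ) * D ^ 9 ≤ D ^ 14 * D ^ 9 :=
    mul_le_mul_of_nonneg_right (le_trans (by norm_num) (p 14)) (by positivity)
  have h12 : D ^ 14 * D ^ 9 = D ^ 23 := by rw [← pow_add]
  linarith

end NRP

open Finset Filter Topology Pool.Agent.Lib27 Pool.Agent.KCC NRP in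
/-- ENRP : excess of the error of the area functional, explicit constants. -/
theorem t_ENRP (h2 : K2_Stmt) (h4 : K4_Stmt) (h5 : K5S_Stmt) (hc : K5C_Stmt) (ha : AR_Stmt)
    (hp : POS_Stmt) : ENRP_Stmt := by
  intro J
  refine ⟨48 * J + 66, fun D hD k n rho hk hn hrho hrho1 hmass ht => ?_⟩
  have hD0 : 0 < D := by linarith
  have hD1 : 1 ≤ D := by linarith
  have hθ0 := Pool.Agent.EXW.th_pos hD
  have hθ1 := Pool.Agent.EXW.th_lt hD
  obtain ⟨q, hq0, hq3⟩ : ∃ q : ℝ, 0 < q ∧ q ^ 3 = 1 - D⁻¹ :=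
    ⟨(1 - D⁻¹) ^ (((3 : ℕ) : ℝ)⁻¹), Real.rpow_pos_of_pos hθ0 _,
      Real.rpow_inv_natCast_pow hθ0.le (by norm_num)⟩
  have hq := Pool.Agent.EXW.cbrt_th hD hq0.le hq3
  have hi : 0 < (3 * D)⁻¹ := by positivity
  have hq1 : q < 1 := by linarith
  have hB : ∀ m : ℕ, 4 * (m : ℝ) ^ 2 * q ^ m ≤ 216 * D ^ 3 := by
    intro m
    have h1 := Pool.Agent.EXW.geo_le 2 hq0.le hi hq
    have h2 : ((m : ℝ) + 1) ^ 2 * q ^ m ≤ ∑' m : ℕ, ((m : ℝ) + 1) ^ 2 * q ^ m :=
      (Pool.Agent.EXW.summable_geo 2 hq0.le hq1).le_tsum m fun m _ => by positivity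
    have h3 : (m : ℝ) ^ 2 * q ^ m ≤ ((m : ℝ) + 1) ^ 2 * q ^ m := by gcongr; linarith
    have h4 : ((2 : ℕ).factorial : ℝ) / (3 * D)⁻¹ ^ (2 + 1) = 54 * D ^ 3 := by
      rw [inv_pow, div_inv_eq_mul]
      norm_num [Nat.factorial]
      ring
    rw [h4] at h1
    linarith
  have hcore := core h2 h4 h5 hc ha hp J hD0 hθ0 hθ1 hq3 hq0 hq1
    (by positivity : (0 : ℝ) < 216 * D ^ 3) hB k n rho hk hn hrho hrho1 hmass ht
  have hcst := const_le hD hq
  have hn1 : (1 : ℝ) ≤ n := by exact_mod_cast (by omega : 1 ≤ n)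
  have hlog : 0 ≤ Real.log n := Real.log_nonneg hn1
  have hn0 : (0 : ℝ) < n := by linarith
  have hlq : (3 * D)⁻¹ ≤ -Real.log q := by
    have := Real.log_le_sub_one_of_pos hq0
    linarith
  have hlq0 : 0 < -Real.log q := hi.trans_le hlq
  -- the constant in front of `log n`
  have hK : 16 * (((J + 1 : ℕ) : ℝ) / (-Real.log q) + 2) ≤ D ^ (48 * J + 66) := by
    push_cast
    have h1 : ((J : ℝ) + 1) / (-Real.log q) ≤ 3 * ((J : ℝ) + 1) * D := by
      rw [div_le_iff₀ hlq0]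
      have h2 := mul_le_mul_of_nonneg_left hlq (show 0 ≤ 3 * ((J : ℝ) + 1) * D by positivity)
      have e : 3 * ((J : ℝ) + 1) * D * (3 * D)⁻¹ = (J : ℝ) + 1 := by field_simp
      linarith
    have h2 : 16 * (3 * ((J : ℝ) + 1) * D + 2) ≤ (48 * (J : ℝ) + 64) * D := by
      nlinarith [hD]
    have h3 : (48 * (J : ℝ) + 64) ≤ D ^ (48 * J + 64) := by
      have h4 : (48 * J + 64 : ℕ) < 2 ^ (48 * J + 64) := Nat.lt_two_pow_self
      have h5 : ((48 * J + 64 : ℕ) : ℝ) ≤ 2 ^ (48 * J + 64) := by exact_mod_cast h4.le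
      have h6 : (2 : ℝ) ^ (48 * J + 64) ≤ D ^ (48 * J + 64) := pow_le_pow_left₀ (by norm_num) hD _
      push_cast at h5
      exact h5.trans h6
    calc 16 * (((J : ℝ) + 1) / (-Real.log q) + 2) ≤ 16 * (3 * ((J : ℝ) + 1) * D + 2) := by linarith
      _ ≤ (48 * (J : ℝ) + 64) * D := h2
      _ ≤ D ^ (48 * J + 64) * D := mul_le_mul_of_nonneg_right h3 hD0.le
      _ = D ^ (48 * J + 65) := by rw [← pow_succ]
      _ ≤ D ^ (48 * J + 66) := pow_le_pow_right₀ hD1 (by omega)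
  refine (sum_le_sum fun x _ => max_le_max le_rfl (sub_le_sub_left ?_ _)).trans (hcore.trans ?_)
  · have h1 := mul_le_mul_of_nonneg_right hK (show 0 ≤ Real.log n * n by positivity)
    linarith
  · apply div_le_div_of_nonneg_right _ (by positivity)
    have h2 : D ^ 23 ≤ D ^ (48 * J + 66) := pow_le_pow_right₀ hD1 (by omega)
    linarith

end Pool.Agent.KCE
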