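import Pool.Agent.KCE.Stmts2
import Pool.Agent.KCQ.Fin

/-!
# Column-convex polygons (MP_f6626d_co), explicit window: EORD, orders of the total weight and of
the mean (helper55)
-/

set_option autoImplicit false

namespace Pool.Agent.KCE

open Finset Filter Topology
open Pool.Agent.Gap (cap1 stair B0 B0_isSol epsn)
open Pool.Agent.EXW (Slow)
open Pool.Agent.KCS (airyMoment)

namespace OrdP

/-- upper bound of the coefficient of the area polynomials -/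
theorem upper {D : ℕ → ℝ} (hD : Slow D) (M : KCG.QModel D) :
    ∃ K : ℕ, ∀ᶠ n : ℕ in atTop,
      ((n : ℝ) * Real.sqrt n) * (M.G n).rho ^ n * (M.P n).eval 1 ≤ D n ^ K := by
  obtain ⟨oLT, oLT1, oM2, oBAL, oST, oSUP, oW⟩ := KCG.old_gap
  obtain ⟨L, m0, C', hL0, hm0, hC', hL, hexp⟩ := Gap.stair_side oLT1 oM2 oBAL
  have hL1 := hL 0 le_rfl
  obtain ⟨K0, K1, hQ⟩ := KCG.m_QLT
  obtain ⟨J0, J1, hP⟩ := KCG.m_QPAR
  obtain ⟨Kc, hcmp⟩ := KCG.MOMC.cmp KCG.m_QPAR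
  obtain ⟨W, lam, h1, hWt, hlim⟩ := KCG.MOMC.scales hD M (K0 + J0) K1 0
  have hD1 : ∀ n, 1 ≤ D n := fun n => by linarith [hD.two_le n]
  have hN0 := (hcmp D hD M).2
  obtain ⟨Kb, hKb⟩ : ∃ Kb : ℕ, L 0 + 1 < 2 ^ Kb := pow_unbounded_of_one_lt _ (by norm_num)
  have hst := (hL1.comp hN0).eventually (ge_mem_nhds (lt_add_one (L 0)))
  have herr := hlim.eventually (ge_mem_nhds one_pos)
  refine ⟨K1 + J1 + Kb + 1, ?_⟩
  filter_upwards [h1, hst, herr, eventually_ge_atTop 1, hWt.eventually_ge_atTop 1] with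
    n hS hst herr hn1 hW1
  obtain ⟨hS, hKW, hl0, hl1⟩ := hS
  have hn : (0 : ℝ) < n := by exact_mod_cast hn1
  have hDn := hD1 n
  have hD0 : 0 < D n := by linarith
  have hSQ : KCG.Sc K0 (D n) (W n) (M.G n) n (KCG.MOMC.N0 M n) 0 0 :=
    ⟨KCG.QSIDE.sc0_mono (by omega) hS, le_rfl, by rw [zero_mul]; linarith [hS.W2],
      by rw [mul_zero, mul_zero]⟩
  have hSP : KCG.Sc J0 (D n) (W n) (M.G n) n (KCG.MOMC.N0 M n) 0 0 :=
    ⟨KCG.QSIDE.sc0_mono (by omega) hS, le_rfl, by rw [zero_mul]; linarith [hS.W2],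
      by rw [mul_zero, mul_zero]⟩
  have hle := (hP (D n) (W n) (M.G n) n (KCG.MOMC.N0 M n) 0 0 hSP).1.2.2.2.2.2
  obtain ⟨c, hc1, hc2, hc⟩ := hQ (D n) (hD.two_le n) (M.G n) (M.cls n) (M.C0 n) (M.s n) (M.t n)
    (M.Vs n) (M.Vt n) (M.B n) B0 (M.cap_s n) (M.cap_t n) (M.crit_s n) (M.crit_t n) (M.sol n)
    B0_isSol
  have hq := hc (W n) n (KCG.MOMC.N0 M n) 0 0 hSQ
  have hc0 : 0 < c := lt_of_lt_of_le (by positivity) hc1
  simp only [neg_zero, Real.exp_zero] at hq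
  have hst' : ((KCG.MOMC.N0 M n : ℝ) * Real.sqrt (KCG.MOMC.N0 M n)) *
      (1 / 4 : ℝ) ^ (KCG.MOMC.N0 M n) * (Gap.closeP 1 cap1 B0 (KCG.MOMC.N0 M n)).eval 1 ≤
        L 0 + 1 := by
    simpa only [Function.comp_apply, epsn, zero_div, neg_zero, Real.exp_zero] using hst
  obtain ⟨X, hX⟩ : ∃ X, X = ((KCG.MOMC.N0 M n : ℝ) * Real.sqrt (KCG.MOMC.N0 M n)) *
      (1 / 4 : ℝ) ^ (KCG.MOMC.N0 M n) * (Gap.closeP 1 cap1 B0 (KCG.MOMC.N0 M n)).eval 1 :=
    ⟨_, rfl⟩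
  rw [← hX] at hst' hq
  have herr' : (D n * W n) ^ K1 / Gap.qn n + D n ^ K1 / Real.sqrt (W n) ≤ 1 := by
    have hlog : 0 ≤ Real.log n := Real.log_natCast_nonneg n
    have h2 : 0 ≤ D n ^ K1 * (Real.log n) ^ (0 + 1) * lam n := by positivity
    rw [pow_zero, div_one] at herr
    exact (le_add_of_nonneg_right h2).trans herr
  have hq2 : ((n : ℝ) * Real.sqrt n) * (M.G n).rho ^ n * (M.P n).eval 1 ≤
      c * Real.sqrt ((KCG.MOMC.N0 M n : ℝ) / n) * X + 1 := by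
    have h3 := (abs_le.1 (hq.trans herr')).2
    unfold KCG.QModel.P
    linarith
  have hsq : Real.sqrt ((KCG.MOMC.N0 M n : ℝ) / n) ≤ D n ^ J1 := by
    have h4 : (1 : ℝ) ≤ D n ^ J1 := one_le_pow₀ hDn
    rw [Real.sqrt_le_left (by positivity)]
    refine le_trans ?_ (le_self_pow₀ h4 (by norm_num))
    rw [div_le_iff₀ hn]
    exact hle
  have hXle : X ≤ D n ^ Kb :=
    hst'.trans (hKb.le.trans (pow_le_pow_left₀ (by norm_num) (hD.two_le n) _))
  have hKb1 : (1 : ℝ) ≤ D n ^ Kb := one_le_pow₀ hDn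
  have hprod : c * Real.sqrt ((KCG.MOMC.N0 M n : ℝ) / n) * X ≤ D n ^ (K1 + J1 + Kb) := by
    have hs0 := Real.sqrt_nonneg ((KCG.MOMC.N0 M n : ℝ) / n)
    calc c * Real.sqrt ((KCG.MOMC.N0 M n : ℝ) / n) * X
        ≤ c * Real.sqrt ((KCG.MOMC.N0 M n : ℝ) / n) * D n ^ Kb := by gcongr
      _ ≤ D n ^ K1 * D n ^ J1 * D n ^ Kb := by gcongr
      _ = D n ^ (K1 + J1 + Kb) := by rw [pow_add, pow_add]
  have h1le : (1 : ℝ) ≤ D n ^ (K1 + J1 + Kb) := one_le_pow₀ hDn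
  calc ((n : ℝ) * Real.sqrt n) * (M.G n).rho ^ n * (M.P n).eval 1
      ≤ D n ^ (K1 + J1 + Kb) + D n ^ (K1 + J1 + Kb) := hq2.trans (add_le_add hprod h1le)
    _ = 2 * D n ^ (K1 + J1 + Kb) := by ring
    _ ≤ D n * D n ^ (K1 + J1 + Kb) := by
        have := hD.two_le n
        gcongr
    _ = D n ^ (K1 + J1 + Kb + 1) := by rw [pow_succ]; ring

end OrdP

theorem t_EORD : EORD_Stmt := by
  intro D hD M hN hB
  obtain ⟨m1, ⟨K2, m2⟩, m3, ⟨K4, m4⟩⟩ := KCG.m_MOMC D hD M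
  obtain ⟨K3, m3'⟩ := m3 1
  obtain ⟨K5, m5⟩ := OrdP.upper hD M
  have hD1 : ∀ n, 1 ≤ D n := fun n => by have := hD.two_le n; linarith
  have hlim := KCG.momk_lim hD M hN hB m1 m2 m3 m4
  have hpos : ∀ᶠ n : ℕ in atTop, 0 < (M.P n).eval 1 ∧
      0 < KCG.mr 1 (M.P n) / (M.P n).eval 1 := by
    filter_upwards [m2, m4, eventually_ge_atTop 1] with n m2 m4 hn
    have hnp : (0 : ℝ) < n := by exact_mod_cast hn
    have hσ : 0 < Real.sqrt n := Real.sqrt_pos.2 hnp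
    have hD0 : 0 < D n := by have := hD1 n; linarith
    have hρ : 0 < (M.G n).rho ^ n := pow_pos (M.G n).rho_pos n
    refine ⟨?_, lt_of_lt_of_le (by positivity) m2⟩
    by_contra hcon
    have h1 : (n : ℝ) * Real.sqrt n * (M.G n).rho ^ n * (M.P n).eval 1 ≤ 0 :=
      mul_nonpos_of_nonneg_of_nonpos (by positivity) (not_lt.1 hcon)
    have h2 : 0 < (D n ^ K4)⁻¹ := by positivity
    linarith
  have a0 : airyMoment 0 = 1 := by
    refine tendsto_nhds_unique (m1 0) (tendsto_const_nhds.congr' ?_)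
    filter_upwards [hpos] with n hn
    rw [pow_zero, div_one, KCG.momk_mr_zero, div_self hn.1.ne']
  have a1 : airyMoment 1 = 1 := by
    refine tendsto_nhds_unique (m1 1) (tendsto_const_nhds.congr' ?_)
    filter_upwards [hpos] with n hn
    rw [pow_one, div_self hn.2.ne']
  have l0 := hlim 0
  have l1 := hlim 1
  rw [a0] at l0
  rw [a1] at l1
  -- W / (c P(1)) → 1 and mean / mu → 1
  have lW : Tendsto (fun n : ℕ => M.W n / (M.c n * (M.P n).eval 1)) atTop (𝓝 1) := by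
    refine l0.congr fun n => ?_
    unfold KCG.QModel.W
    simp only [pow_zero, mul_one]
  have lT : Tendsto (fun n : ℕ => (∑ y : M.Omega n, M.wt n y * M.T n y) /
      (M.c n * (M.P n).eval 1) / (KCG.mr 1 (M.P n) / (M.P n).eval 1)) atTop (𝓝 1) := by
    refine l1.congr fun n => ?_
    simp only [pow_one]
    rw [div_div]
  have lm := lT.div lW one_ne_zero
  rw [div_one] at lm
  refine ⟨K2 + K3 + K4 + K5 + 1, ?_⟩
  filter_upwards [hpos, m2, m3', m4, m5, lW.eventually (lt_mem_nhds (show (1 / 2 : ℝ) < 1 by norm_num)),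
    lW.eventually (ge_mem_nhds (show (1 : ℝ) < 2 by norm_num)),
    lm.eventually (lt_mem_nhds (show (1 / 2 : ℝ) < 1 by norm_num)),
    lm.eventually (ge_mem_nhds (show (1 : ℝ) < 2 by norm_num)), eventually_ge_atTop 1]
    with n hp m2 m3 m4 m5 w1 w2 t1 t2 hn1
  obtain ⟨hP0, hmu0⟩ := hp
  have hn : (0 : ℝ) < n := by exact_mod_cast hn1
  have hc0 := M.c_pos n
  have hDn := hD1 n
  have hD0 : 0 < D n := by linarith
  have hD2 := hD.two_le n
  have hlog : 0 ≤ Real.log n := Real.log_natCast_nonneg n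
  have hmono : ∀ i j : ℕ, i ≤ j → D n ^ i ≤ D n ^ j := fun i j h => pow_le_pow_right₀ hDn h
  obtain ⟨S, hS⟩ : ∃ S, S = ∑ y : M.Omega n, M.wt n y * M.T n y := ⟨_, rfl⟩
  obtain ⟨q, hq⟩ : ∃ q, q = (n : ℝ) * Real.sqrt n := ⟨_, rfl⟩
  obtain ⟨r, hr⟩ : ∃ r, r = (M.G n).rho ^ n := ⟨_, rfl⟩
  obtain ⟨p, hp⟩ : ∃ p, p = (M.P n).eval 1 := ⟨_, rfl⟩
  obtain ⟨μ, hμ⟩ : ∃ μ, μ = KCG.mr 1 (M.P n) / p := ⟨_, rfl⟩
  simp only [Pi.div_apply] at t1 t2
  rw [pow_one] at m3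
  rw [← hp] at hP0
  rw [← hp, ← hμ] at hmu0
  rw [← hp, ← hμ, ← hq] at m2 m3
  rw [← hp, ← hq, ← hr] at m4 m5
  rw [← hp] at w1 w2
  rw [← hp, ← hμ, ← hS] at t1 t2
  rw [← hS, ← hq, ← hr]
  have hq0 : 0 < q := by rw [hq]; have := Real.sqrt_pos.2 hn; positivity
  have hr0 : 0 < r := by rw [hr]; exact pow_pos (M.G n).rho_pos n
  have hcp : 0 < M.c n * p := by positivity
  rw [lt_div_iff₀ hcp] at w1
  rw [div_le_iff₀ hcp] at w2
  have hW0 : 0 < M.W n := by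
    have : 0 < 1 / 2 * (M.c n * p) := by positivity
    linarith
  have hmean : S / (M.c n * p) / μ / (M.W n / (M.c n * p)) = S / M.W n / μ := by
    field_simp
  rw [hmean, lt_div_iff₀ hmu0] at t1
  rw [hmean, div_le_iff₀ hmu0] at t2
  have hinv : ∀ i : ℕ, i ≤ K2 + K3 + K4 + K5 → (D n ^ (K2 + K3 + K4 + K5 + 1))⁻¹ ≤
      1 / 2 * (D n ^ i)⁻¹ := by
    intro i hi
    have h1 : 2 * D n ^ i ≤ D n ^ (K2 + K3 + K4 + K5 + 1) := by
      calc 2 * D n ^ i ≤ D n * D n ^ (K2 + K3 + K4 + K5) := by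
            have := hmono i _ hi
            gcongr
        _ = _ := by rw [pow_succ]; ring
    calc (D n ^ (K2 + K3 + K4 + K5 + 1))⁻¹ ≤ (2 * D n ^ i)⁻¹ := by gcongr
      _ = _ := by rw [mul_inv]; norm_num
  have htwo : ∀ i : ℕ, i ≤ K2 + K3 + K4 + K5 → 2 * D n ^ i ≤
      D n ^ (K2 + K3 + K4 + K5 + 1) := by
    intro i hi
    calc 2 * D n ^ i ≤ D n * D n ^ (K2 + K3 + K4 + K5) := by
          have := hmono i _ hi
          gcongr
      _ = _ := by rw [pow_succ]; ring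
  refine ⟨?_, ?_, ?_, ?_⟩
  · calc (D n ^ (K2 + K3 + K4 + K5 + 1))⁻¹ * M.c n
        ≤ 1 / 2 * (D n ^ K4)⁻¹ * M.c n := by
          have := hinv K4 (by omega)
          gcongr
      _ ≤ 1 / 2 * (q * r * p) * M.c n := by gcongr
      _ = q * r * (1 / 2 * (M.c n * p)) := by ring
      _ ≤ q * r * M.W n := by
          have := w1.le
          gcongr
  · calc q * r * M.W n ≤ q * r * (2 * (M.c n * p)) := by gcongr
      _ = 2 * (q * r * p) * M.c n := by ring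
      _ ≤ 2 * D n ^ K5 * M.c n := by gcongr
      _ ≤ _ := by
          have := htwo K5 (by omega)
          gcongr
  · calc (D n ^ (K2 + K3 + K4 + K5 + 1))⁻¹ * q ≤ 1 / 2 * (D n ^ K2)⁻¹ * q := by
          have := hinv K2 (by omega)
          gcongr
      _ = 1 / 2 * ((D n ^ K2)⁻¹ * q) := by ring
      _ ≤ 1 / 2 * μ := by gcongr
      _ ≤ S / M.W n := t1.le
  · calc S / M.W n ≤ 2 * μ := t2
      _ ≤ 2 * (D n ^ K3 * (q * Real.log n)) := by gcongr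
      _ = 2 * D n ^ K3 * (q * Real.log n) := by ring
      _ ≤ _ := by
          have := htwo K3 (by omega)
          gcongr

end Pool.Agent.KCE
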