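import Pool.Agent.KCE.Stmts
import Pool.Agent.KCS.StC
import Pool.Agent.EXW.PDIF

/-!
# Explicit window (MP_f6626d_co): moments of the error of the area functional (module KCE_PDF)
-/

set_option autoImplicit false

namespace Pool.Agent.KCE

open Finset Filter Topology MeasureTheory Pool.Agent.Lib27 Pool.Agent.AreaLaw Pool.Agent.KCC
open Pool.Agent.SapR (rot2 wordsUpTo)

/-- **PDF** -/
theorem t_EPDF (h : ENRP_Stmt) (ho : OMB_Stmt) : EPDF_Stmt := by
  constructor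
  · obtain ⟨K1, hK1⟩ := h 5
    refine ⟨K1, ?_⟩
    intro D hD k n rho hk hn hrho0 hrho1 hm ht
    have h1 := hK1 D hD k n rho hk hn hrho0 hrho1 hm ht
    set L : ℝ := D ^ K1 * n * Real.log n with hL
    have h2 : ∑ x ∈ Om k n, |((|dq x| : ℤ) : ℝ) / 2 - (Ar k n x.2.2.2 : ℝ)| ≤
        ∑ x ∈ Om k n, (L + max 0 (|((|dq x| : ℤ) : ℝ) / 2 - (Ar k n x.2.2.2 : ℝ)| - L)) := by
      apply sum_le_sum
      intro x _
      have := le_max_right 0 (|((|dq x| : ℤ) : ℝ) / 2 - (Ar k n x.2.2.2 : ℝ)| - L)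
      linarith
    rw [sum_add_distrib, sum_const, nsmul_eq_mul] at h2
    have h3 : ((Om k n).card : ℝ) * L = L * ((Om k n).card : ℝ) := mul_comm _ _
    rw [h3] at h2
    exact h2.trans (add_le_add le_rfl h1)
  · intro p
    obtain ⟨K1, hK1⟩ := h (2 * p + 2)
    refine ⟨K1 + 3 * p + 1, ?_⟩
    intro D hD k n rho hk hn hrho0 hrho1 hm ht
    have hkk := hK1 D hD k n rho hk hn hrho0 hrho1 hm ht
    have hn2 : (2 : ℝ) ≤ n := by exact_mod_cast hn
    have hn0 : (0 : ℝ) < n := by linarith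
    have hlog : 1 / 2 < Real.log n := by
      have h1 : Real.log 2 ≤ Real.log n := Real.log_le_log (by norm_num) hn2
      have h2 := Real.log_two_gt_d9
      norm_num at h2 ⊢
      linarith
    have hD0 : 0 < D := by linarith
    have hD1 : 1 ≤ D := by linarith
    set L : ℝ := D ^ K1 * n * Real.log n with hL
    have hL0 : 0 ≤ L := by positivity
    have hlog0 : 0 < Real.log n := by linarith
    have hnl : 1 ≤ (n : ℝ) * Real.log n := by nlinarith
    have hDK : 1 ≤ D ^ K1 := one_le_pow₀ hD1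
    have h1 : ∑ x ∈ Om k n, |((|dq x| : ℤ) : ℝ) / 2 - (Ar k n x.2.2.2 : ℝ)| ^ p ≤
        ∑ x ∈ Om k n, ((L + 1) ^ p + (8 * (n : ℝ) ^ 2) ^ p *
          max 0 (|((|dq x| : ℤ) : ℝ) / 2 - (Ar k n x.2.2.2 : ℝ)| - L)) := by
      apply sum_le_sum
      intro x hx
      have hb := ho k n x hk hn hx
      have hd0 : (0 : ℝ) ≤ ((|dq x| : ℤ) : ℝ) := by exact_mod_cast abs_nonneg (dq x)
      have ha0 : (0 : ℝ) ≤ (Ar k n x.2.2.2 : ℝ) := Nat.cast_nonneg _
      have hpw : |((|dq x| : ℤ) : ℝ) / 2 - (Ar k n x.2.2.2 : ℝ)| ≤ 8 * (n : ℝ) ^ 2 := by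
        rw [abs_le]
        have hn22 : 0 ≤ (n : ℝ) ^ 2 := by positivity
        constructor
        · linarith [hb.1, hb.2]
        · linarith [hb.1, hb.2]
      exact EXW.PDIF.pp p _ L (8 * (n : ℝ) ^ 2) (abs_nonneg _) hL0 hpw
    rw [sum_add_distrib, sum_const, nsmul_eq_mul, ← mul_sum] at h1
    have h4 : L + 1 ≤ D ^ (K1 + 3 * p + 1) * n * Real.log n := by
      have e1 : D ^ K1 * 2 ≤ D ^ K1 * D := mul_le_mul_of_nonneg_left hD (by positivity)
      have e2 : D ^ (K1 + 1) ≤ D ^ (K1 + 3 * p + 1) := pow_le_pow_right₀ hD1 (by omega)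
      have e3 : D ^ K1 * 2 ≤ D ^ (K1 + 3 * p + 1) := by
        rw [pow_succ] at e2
        linarith
      have e4 : D ^ K1 * 2 * ((n : ℝ) * Real.log n) ≤
          D ^ (K1 + 3 * p + 1) * ((n : ℝ) * Real.log n) :=
        mul_le_mul_of_nonneg_right e3 (by positivity)
      have e5 : 1 ≤ D ^ K1 * ((n : ℝ) * Real.log n) := by
        nlinarith
      rw [hL]
      nlinarith
    have h5 : ((Om k n).card : ℝ) * (L + 1) ^ p ≤
        (D ^ (K1 + 3 * p + 1) * n * Real.log n) ^ p * ((Om k n).card : ℝ) := by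
      rw [mul_comm]
      exact mul_le_mul_of_nonneg_right (pow_le_pow_left₀ (by positivity) h4 p) (Nat.cast_nonneg _)
    have h6 : (8 * (n : ℝ) ^ 2) ^ p * ∑ x ∈ Om k n,
          max 0 (|((|dq x| : ℤ) : ℝ) / 2 - (Ar k n x.2.2.2 : ℝ)| - L) ≤
        D ^ (K1 + 3 * p + 1) * (1 / ((n : ℝ) ^ 2 * rho ^ n)) := by
      refine (mul_le_mul_of_nonneg_left hkk (by positivity)).trans ?_
      have e1 : (8 * (n : ℝ) ^ 2) ^ p * (D ^ K1 / ((n : ℝ) ^ (2 * p + 2) * rho ^ n)) =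
          ((8 : ℝ) ^ p * D ^ K1) * (1 / ((n : ℝ) ^ 2 * rho ^ n)) := by
        rw [mul_pow, ← pow_mul, pow_add]
        have hnp : (n : ℝ) ^ (2 * p) ≠ 0 := by positivity
        have hrp : rho ^ n ≠ 0 := by positivity
        field_simp
      rw [e1]
      apply mul_le_mul_of_nonneg_right _ (by positivity)
      have e2 : (8 : ℝ) ^ p ≤ D ^ (3 * p) := by
        rw [pow_mul]
        apply pow_le_pow_left₀ (by norm_num)
        calc (8 : ℝ) = 2 ^ 3 := by norm_num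
          _ ≤ D ^ 3 := pow_le_pow_left₀ (by norm_num) hD 3
      calc (8 : ℝ) ^ p * D ^ K1 ≤ D ^ (3 * p) * D ^ K1 :=
            mul_le_mul_of_nonneg_right e2 (by positivity)
        _ = D ^ (K1 + 3 * p) := by rw [← pow_add]; congr 1; omega
        _ ≤ D ^ (K1 + 3 * p + 1) := pow_le_pow_right₀ hD1 (by omega)
    exact h1.trans (add_le_add h5 h6)

end Pool.Agent.KCE
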