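import Pool.Agent.KCE.Stmts

/-!
# Column-convex polygons (MP_f6626d_co), explicit window: EPSM, finite sums of the arrays below a
supersolution (helper55)
-/

set_option autoImplicit false

namespace Pool.Agent.KCE

open Finset Pool.Agent.Gap Pool.Agent.KCC

namespace PSM

/-- shifting a sum by `k`. -/
lemma psum_shift (k : ℕ) (f : ℕ → ℝ) : ∀ M : ℕ,
    ∑ m ∈ range M, (if k ≤ m then f (m - k) else 0) = ∑ m ∈ range (M - k), f m := by
  intro M
  induction M with
  | zero => simp
  | succ M ih =>
    rw [sum_range_succ, ih]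
    by_cases h : k ≤ M
    · rw [if_pos h, show M + 1 - k = (M - k) + 1 by omega, sum_range_succ]
    · rw [if_neg h, show M + 1 - k = 0 by omega, show M - k = 0 by omega]
      simp

/-- the finite sums of the source are at most the full source. -/
lemma psum_src (G : KCG.GapKernel) (C0 : ℕ) (s : ℕ → ℤ → ℝ) (hs : IsCap C0 s) (M : ℕ) (g : ℤ) :
    ∑ m ∈ range M, G.rho ^ m * s m g ≤ KCG.GE.sr G.rho C0 s g := by
  have hrho := G.rho_pos
  have h0 : ∀ m, 0 ≤ G.rho ^ m * s m g := fun m => mul_nonneg (pow_nonneg hrho.le _) (hs.nonneg m g)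
  have h1 : ∑ m ∈ range M, G.rho ^ m * s m g ≤ ∑ m ∈ range (M + (C0 + 1)), G.rho ^ m * s m g :=
    sum_le_sum_of_subset_of_nonneg (range_subset_range.2 (by omega)) fun m _ _ => h0 m
  have h2 : ∑ m ∈ range (C0 + 1), G.rho ^ m * s m g =
      ∑ m ∈ range (M + (C0 + 1)), G.rho ^ m * s m g := by
    refine sum_subset (range_subset_range.2 (by omega)) fun m _ hm => ?_
    rw [hs.supp_m m g (by simpa using hm), mul_zero]
  rw [← h2] at h1
  exact h1

end PSM

theorem t_EPSM : EPSM_Stmt := by
  intro G C0 s B v hs hB hv hsol M g _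
  have hrho := G.rho_pos
  have main : ∀ M : ℕ, ∀ g : ℤ, ∑ m ∈ range M, G.rho ^ m * (B m g).eval 1 ≤ v g := by
    intro M
    induction M using Nat.strong_induction_on with
    | _ M ih =>
    intro g
    by_cases hg : g < 1
    · have : ∑ m ∈ range M, G.rho ^ m * (B m g).eval 1 = 0 := by
        refine sum_eq_zero fun m _ => ?_
        rw [hB.zero m g hg]; simp
      rw [this]; exact hv g
    push Not at hg
    rcases Nat.eq_zero_or_pos M with hM | hM
    · subst hM; simpa using hv g
    have hev : ∀ m : ℕ, (B m g).eval 1 = s m g + ∑ i ∈ G.S, if i.1 ≤ m then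
        ∑ g' ∈ Icc (g - G.R) (g + G.R), G.K i g g' * (B (m - i.1) g').eval 1 else 0 := by
      intro m
      rw [hB.step m g hg, Polynomial.eval_add, Polynomial.eval_C, Polynomial.eval_finsetSum]
      congr 1
      refine sum_congr rfl fun i _ => ?_
      by_cases h : i.1 ≤ m
      · rw [if_pos h, if_pos h, Polynomial.eval_finsetSum]
        refine sum_congr rfl fun g' _ => ?_
        rw [Polynomial.eval_mul, Polynomial.eval_mul, Polynomial.eval_C, Polynomial.eval_pow,
          Polynomial.eval_X, one_pow, mul_one]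
      · rw [if_neg h, if_neg h, Polynomial.eval_zero]
    have key : ∑ m ∈ range M, G.rho ^ m * (B m g).eval 1 =
        ∑ m ∈ range M, G.rho ^ m * s m g + ∑ g' ∈ Icc (g - G.R) (g + G.R), ∑ i ∈ G.S,
          G.rho ^ i.1 * G.K i g g' *
            ∑ m ∈ range (M - i.1), G.rho ^ m * (B m g').eval 1 := by
      have e1 : ∀ m ∈ range M, G.rho ^ m * (B m g).eval 1 = G.rho ^ m * s m g +
          ∑ g' ∈ Icc (g - G.R) (g + G.R), ∑ i ∈ G.S, G.rho ^ i.1 * G.K i g g' *
            (if i.1 ≤ m then (fun j => G.rho ^ j * (B j g').eval 1) (m - i.1) else 0) := by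
        intro m _
        rw [hev m, mul_add, mul_sum, sum_comm]
        congr 1
        refine sum_congr rfl fun i _ => ?_
        by_cases h : i.1 ≤ m
        · simp only [if_pos h]
          rw [mul_sum]
          refine sum_congr rfl fun g' _ => ?_
          have : G.rho ^ m = G.rho ^ i.1 * G.rho ^ (m - i.1) := by
            rw [← pow_add]; congr 1; omega
          rw [this]; ring
        · simp only [if_neg h, mul_zero, sum_const_zero]
      rw [sum_congr rfl e1, sum_add_distrib]
      congr 1
      rw [sum_comm]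
      refine sum_congr rfl fun g' _ => ?_
      rw [sum_comm]
      refine sum_congr rfl fun i _ => ?_
      rw [← mul_sum, PSM.psum_shift i.1 (fun j => G.rho ^ j * (B j g').eval 1) M]
    rw [key]
    refine le_trans ?_ (hsol g hg)
    refine add_le_add (PSM.psum_src G C0 s hs M g) (sum_le_sum fun g' _ => ?_)
    unfold KCG.GapKernel.Kc
    rw [sum_mul]
    refine sum_le_sum fun i hi => ?_
    refine mul_le_mul_of_nonneg_left ?_ (mul_nonneg (pow_nonneg hrho.le _) (G.K_nonneg _ _ _))
    have h1 := (G.pos_mem i hi).1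
    exact ih (M - i.1) (by omega) g'
  exact main (M + 1) g

end Pool.Agent.KCE
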