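import Pool.Agent.KCE.Stmts2
import Pool.Agent.KCQ.Base
import Pool.Agent.EXW.Base

/-!
# KCE_QCS (MP_f6626d_co): the critical solutions with polynomial bounds
-/

set_option autoImplicit false

namespace Pool.Agent.KCE

open Finset Filter Topology MeasureTheory Pool.Agent.Lib27 Pool.Agent.AreaLaw Pool.Agent.KCC
open Pool.Agent.Gap (IsCap closeP AreaModel)
open Pool.Agent.EXW (th_pos th_lt th_mono)
open scoped NNReal ENNReal

namespace QCSx

/-- the pieces of half length larger than `L` -/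
lemma tail_pieces {M : ℝ} (hM : 2 ≤ M) {k n : ℕ} {rho : ℝ} (hT : Tails M (1 - M⁻¹) k n rho)
    (L : ℕ) :
    ∑ p ∈ (Pc k n).filter (fun p => L < hl p), rho ^ hl p ≤ M ^ 2 * (1 - M⁻¹) ^ (L + 1) := by
  classical
  have hM0 : 0 < M := by linarith
  have hθ := th_pos hM
  have hθ1 := th_lt hM
  set S := (Pc k n).filter (fun p => L < hl p) with hS
  set N := S.sup hl + 1 with hN
  have hmap : ∀ p ∈ S, hl p ∈ Ico (L + 1) N := by
    intro p hp
    have h1 : hl p ≤ S.sup hl := Finset.le_sup (f := hl) hp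
    have h2 : L < hl p := (mem_filter.1 hp).2
    rw [mem_Ico]
    omega
  rw [← sum_fiberwise_of_maps_to hmap]
  have h1 : ∀ m ∈ Ico (L + 1) N, ∑ p ∈ S.filter (fun p => hl p = m), rho ^ hl p ≤
      M * (1 - M⁻¹) ^ m := by
    intro m hm
    refine le_trans (le_of_eq ?_) (hT.1 m)
    have e : S.filter (fun p => hl p = m) = (Pc k n).filter (fun p => hl p = m) := by
      rw [hS, filter_filter]
      refine filter_congr fun p _ => ?_
      rw [mem_Ico] at hm
      constructor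
      · exact fun h => h.2
      · exact fun h => ⟨by omega, h⟩
    rw [e, ← nsmul_eq_mul, ← sum_const]
    refine sum_congr ?_ fun p hp => ?_
    · congr
    · rw [(mem_filter.1 hp).2]
  refine (sum_le_sum h1).trans ?_
  rw [← mul_sum]
  have h2 := geom_sum_Ico_le_of_lt_one (m := L + 1) (n := N) hθ.le hθ1
  calc M * ∑ i ∈ Ico (L + 1) N, (1 - M⁻¹) ^ i
      ≤ M * ((1 - M⁻¹) ^ (L + 1) / (1 - (1 - M⁻¹))) := mul_le_mul_of_nonneg_left h2 hM0.le
    _ = M ^ 2 * (1 - M⁻¹) ^ (L + 1) := by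
        rw [sub_sub_cancel, div_inv_eq_mul]
        ring

/-- the tail is small for `L` of the order `M ^ 2` -/
lemma tail_small {M : ℝ} (hM : 2 ≤ M) (J L : ℕ) (hL : ((J : ℝ) + 2) * M ^ 2 ≤ L) :
    M ^ 2 * (1 - M⁻¹) ^ (L + 1) ≤ (M ^ J)⁻¹ := by
  have hM0 : 0 < M := by linarith
  have hθ := th_pos hM
  have h1 : (1 - M⁻¹) ^ (L + 1) ≤ Real.exp (-(((J : ℝ) + 2) * M)) := by
    have h2 : 1 - M⁻¹ ≤ Real.exp (-M⁻¹) := Real.one_sub_le_exp_neg _
    calc (1 - M⁻¹) ^ (L + 1) ≤ Real.exp (-M⁻¹) ^ (L + 1) := pow_le_pow_left₀ hθ.le h2 _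
      _ = Real.exp (-(M⁻¹ * (L + 1))) := by
          rw [← Real.exp_nat_mul]
          congr 1
          push_cast
          ring
      _ ≤ Real.exp (-(((J : ℝ) + 2) * M)) := by
          refine Real.exp_le_exp.2 (neg_le_neg ?_)
          calc ((J : ℝ) + 2) * M = M⁻¹ * (((J : ℝ) + 2) * M ^ 2) := by
                field_simp
            _ ≤ M⁻¹ * (L + 1) :=
                mul_le_mul_of_nonneg_left (by linarith) (inv_pos.2 hM0).le
  have h3 : M ^ (J + 2) ≤ Real.exp (((J : ℝ) + 2) * M) := by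
    have h4 : M ≤ Real.exp M := by
      have := Real.add_one_le_exp M
      linarith
    calc M ^ (J + 2) ≤ Real.exp M ^ (J + 2) := pow_le_pow_left₀ hM0.le h4 _
      _ = Real.exp (((J : ℝ) + 2) * M) := by
          rw [← Real.exp_nat_mul]
          congr 1
          push_cast
          ring
  have h5 : M ^ (J + 2) * (1 - M⁻¹) ^ (L + 1) ≤ 1 := by
    calc M ^ (J + 2) * (1 - M⁻¹) ^ (L + 1)
        ≤ Real.exp (((J : ℝ) + 2) * M) * Real.exp (-(((J : ℝ) + 2) * M)) :=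
          mul_le_mul h3 h1 (pow_nonneg hθ.le _) (Real.exp_pos _).le
      _ = 1 := by rw [← Real.exp_add, add_neg_cancel, Real.exp_zero]
  rw [inv_eq_one_div (M ^ J), le_div_iff₀ (pow_pos hM0 J)]
  calc M ^ 2 * (1 - M⁻¹) ^ (L + 1) * M ^ J = M ^ (J + 2) * (1 - M⁻¹) ^ (L + 1) := by ring
    _ ≤ 1 := h5

/-- the two cases of the pieces which are not allowed -/
lemma split_sum {α : Type} (S : Finset α) (q : α → Prop) [DecidablePred q] (l : α → ℕ) (L : ℕ)
    (f : α → ℝ) (hf : ∀ p, 0 ≤ f p) :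
    ∑ p ∈ S.filter q, f p ≤ ∑ p ∈ S.filter (fun p => q p ∧ l p ≤ L), f p +
      ∑ p ∈ S.filter (fun p => L < l p), f p := by
  rw [← sum_filter_add_sum_filter_not (S.filter q) (fun p => l p ≤ L), filter_filter,
    filter_filter]
  refine add_le_add_right (sum_le_sum_of_subset_of_nonneg ?_ fun p _ _ => hf p) _
  intro p hp
  rw [mem_filter] at hp ⊢
  exact ⟨hp.1, not_le.1 hp.2.2⟩

lemma pow_bound {M : ℝ} (hM : 2 ≤ M) (c : ℕ) : (c : ℝ) ≤ M ^ c := by
  have h1 : (c : ℝ) ≤ 2 ^ c := by exact_mod_cast c.lt_two_pow_self.le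
  exact h1.trans (pow_le_pow_left₀ (by norm_num) hM c)

/-- the critical source of a cap, in the class with parameter `M ^ 4` -/
lemma crit_sr {M : ℝ} (hM : 2 ≤ M) {G : KCG.GapKernel} (hG : KCG.Cls M (1 - M⁻¹) G) {C0 : ℕ}
    {s : ℕ → ℤ → ℝ} (hs : KCG.ClsCap M (1 - M⁻¹) G C0 s) :
    KCG.CritSrc (M ^ 4) (1 - (M ^ 4)⁻¹) C0 (KCG.GE.sr G.rho C0 s) := by
  have hM0 : 0 < M := by linarith
  have h := KCG.GE.critSrc_sr hM0 (th_pos hM) (th_lt hM) hG hs
  have e1 : M ^ 3 + M ^ 2 + M / (1 - (1 - M⁻¹)) = M ^ 3 + 2 * M ^ 2 := by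
    rw [sub_sub_cancel, div_inv_eq_mul]
    ring
  rw [e1] at h
  have h23 : 2 * M ^ 2 ≤ M ^ 3 := by nlinarith [sq_nonneg M]
  have h34 : 2 * M ^ 3 ≤ M ^ 4 := by
    have : 0 ≤ M ^ 3 := by positivity
    nlinarith
  have h24 : M ^ 3 + 2 * M ^ 2 ≤ M ^ 4 := by linarith
  have hM4 : M ≤ M ^ 4 := le_self_pow₀ (by linarith) (by norm_num)
  refine ⟨h.nonneg, h.supp, ?_, fun g => ?_⟩
  · refine le_trans ?_ h.one
    exact inv_anti₀ (by positivity) h24
  · exact (h.dec g).trans <|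
      mul_le_mul h24 (pow_le_pow_left₀ (th_pos hM).le (th_mono hM hM4) g)
        (pow_nonneg (th_pos hM).le g) (by positivity)

/-- the source of the right caps is at most that of the left caps -/
lemma src_le {C θ : ℝ} {k n : ℕ} (d : Dat C θ k n) (g : ℤ) (hg : 1 ≤ g) :
    KCG.GE.sr d.G.rho n (capS k n) g ≤ KCG.GE.sr d.G.rho n (capT k n) g := by
  have hr := d.G.rho_pos
  have hr1 := d.rho_le
  have h0 : capS k n 0 g = 0 := d.cap_s.supp 0 g (by push_cast; omega)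
  unfold KCG.GE.sr
  rw [sum_range_succ', h0, mul_zero, add_zero, sum_range_succ]
  have hT : ∀ m, 0 ≤ capT k n m g := fun m => d.cap_t.cap.nonneg m g
  have hlast : 0 ≤ d.G.rho ^ n * capT k n n g := mul_nonneg (pow_nonneg hr.le _) (hT n)
  have hterm : ∀ m ∈ range n, d.G.rho ^ (m + 1) * capS k n (m + 1) g ≤
      d.G.rho ^ m * capT k n m g := by
    intro m hm
    have hm' := mem_range.1 hm
    have e : capS k n (m + 1) g = capT k n m g := by
      unfold capS capT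
      rw [if_pos ⟨hg, by omega⟩, if_pos ⟨hg, by omega⟩, show 2 * (m + 1) = 2 * m + 2 by ring]
    rw [e]
    refine mul_le_mul_of_nonneg_right ?_ (hT m)
    rw [pow_succ]
    exact mul_le_of_le_one_right (pow_nonneg hr.le _) hr1
  have := sum_le_sum hterm
  linarith

end QCSx

open QCSx in
/-- **KCE_QCS.** -/
theorem t_EQCS (hGV2 : KCG.GV2_Stmt) (hPSM : EPSM_Stmt) (hKAP : EKAP_Stmt)
    (hROOM : EROOM_Stmt) : EQCS_Stmt := by
  classical
  obtain ⟨Kg, J, hV2⟩ := hGV2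
  obtain ⟨B', hB', hR⟩ := hROOM
  intro B hB
  set a := ⌈B'⌉₊ with ha
  set j := 4 * J with hj
  set b := a + 2 * (j + 3) + 7 with hb
  refine ⟨4 * Kg + b, ?_⟩
  intro k n hk hn d
  have hB0 : 0 < B := by linarith
  have hB1 : 1 ≤ B := by linarith
  obtain ⟨X, hXdef⟩ : ∃ X, X = Mk B' k := ⟨_, rfl⟩
  have hk2 : 1 ≤ k ^ 2 := Nat.one_le_pow _ _ hk
  have hX : X ≤ Mk B k ^ a := by
    rw [hXdef]
    unfold Mk
    have h1 : B' ≤ B ^ a := (Nat.le_ceil B').trans (pow_bound hB a)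
    calc B' ^ (k ^ 2) ≤ (B ^ a) ^ (k ^ 2) := pow_le_pow_left₀ (by linarith) h1 _
      _ = (B ^ (k ^ 2)) ^ a := by rw [← pow_mul, ← pow_mul, mul_comm]
  have hX0 : 0 < X := by
    rw [hXdef]
    unfold Mk
    positivity
  have hM2 : 2 ≤ Mk B k := by
    unfold Mk
    exact hB.trans (le_self_pow₀ hB1 (by omega))
  have hR' := hR k hk
  rw [← hXdef] at hR'
  generalize Mk B k = M at hn d hX hM2 ⊢
  have hM0 : 0 < M := by linarith
  have hM1 : 1 ≤ M := by linarith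
  have hM4 : M ≤ M ^ 4 := le_self_pow₀ hM1 (by norm_num)
  have hpm : ∀ {x y : ℕ}, x ≤ y → M ^ x ≤ M ^ y := fun h => pow_le_pow_right₀ hM1 h
  have hcls := KCG.cls_mono hM2 hM4 d.cls
  set L := ⌈((j : ℝ) + 2) * M ^ 2⌉₊ with hL
  have hL1 : ((j : ℝ) + 2) * M ^ 2 ≤ L := Nat.le_ceil _
  have hM2' : 1 ≤ M ^ 2 := one_le_pow₀ hM1
  have hL2 : (L : ℝ) ≤ ((j : ℝ) + 3) * M ^ 2 := by
    have h1 := (Nat.ceil_lt_add_one (show 0 ≤ ((j : ℝ) + 2) * M ^ 2 by positivity)).le
    have h2 : ((j : ℝ) + 3) * M ^ 2 = ((j : ℝ) + 2) * M ^ 2 + M ^ 2 := by ring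
    rw [h2]
    linarith
  have hL3 : 1 ≤ L := by
    have h1 : (1 : ℝ) ≤ L := by
      refine le_trans ?_ hL1
      have h2 : (0 : ℝ) ≤ j := Nat.cast_nonneg j
      nlinarith
    exact_mod_cast h1
  have hL4 : (L : ℝ) ≤ M ^ (j + 5) := by
    have h1 := pow_bound hM2 (j + 3)
    push_cast at h1
    calc (L : ℝ) ≤ ((j : ℝ) + 3) * M ^ 2 := hL2
      _ ≤ M ^ (j + 3) * M ^ 2 := mul_le_mul_of_nonneg_right h1 (by positivity)
      _ = M ^ (j + 5) := by ring
  have hLn : L ≤ n := by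
    have h1 : (L : ℝ) ≤ n := hL4.trans ((hpm (by omega)).trans hn)
    exact_mod_cast h1
  have hn2 : 2 ≤ n := by
    have h1 : (2 : ℝ) ≤ n := by
      refine hM2.trans (le_trans ?_ hn)
      exact le_self_pow₀ hM1 (by omega)
    exact_mod_cast h1
  have hroom : X * L ≤ n := by
    refine le_trans ?_ hn
    calc X * L ≤ M ^ a * M ^ (j + 5) := mul_le_mul hX hL4 (Nat.cast_nonneg _) (by positivity)
      _ = M ^ (a + (j + 5)) := (pow_add _ _ _).symm
      _ ≤ _ := hpm (by omega)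
  obtain ⟨z, hz, hzk⟩ := hR' n L d.G.rho hL3 hroom d.G.rho_pos d.crit
  -- the exponent
  have hP1 : (2 * (L : ℝ) + 1) * (L + 1) * X ≤ M ^ b := by
    have h1 : (1 : ℝ) ≤ L := by exact_mod_cast hL3
    have h2 : (2 * (L : ℝ) + 1) * (L + 1) ≤ 8 * (L : ℝ) ^ 2 := by nlinarith
    have h3 : (L : ℝ) ^ 2 ≤ (M ^ (j + 5)) ^ 2 := pow_le_pow_left₀ (by linarith) hL4 2
    have h4 : (8 : ℝ) ≤ M ^ 3 := by
      calc (8 : ℝ) = 2 ^ 3 := by norm_num
        _ ≤ M ^ 3 := pow_le_pow_left₀ (by norm_num) hM2 3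
    calc (2 * (L : ℝ) + 1) * (L + 1) * X ≤ (M ^ 3 * (M ^ (j + 5)) ^ 2) * M ^ a := by
          refine mul_le_mul (h2.trans ?_) hX hX0.le (by positivity)
          exact mul_le_mul h4 h3 (by positivity) (by positivity)
      _ = M ^ b := by
          rw [hb, ← pow_mul, ← pow_add, ← pow_add]
          congr 1
          omega
  -- one source
  have main : ∀ s' : ℤ → ℝ, KCG.CritSrc (M ^ 4) (1 - (M ^ 4)⁻¹) n s' →
      (∀ g, 1 ≤ g → KCG.GE.sr d.G.rho n (capS k n) g ≤ s' g) →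
      ∃ v : ℤ → ℝ, KCG.CritSol (M ^ (4 * Kg + b)) d.G s' v := by
    intro s' hs' hss
    obtain ⟨v, hv0, hveq, hv⟩ := hV2 (M ^ 4) (hM2.trans hM4) d.G hcls _ _ hs'
    refine ⟨v, ?_⟩
    have hP0 : 1 ≤ M ^ b := one_le_pow₀ hM1
    have hsol := hv (M ^ b) hP0 ?_
    · refine KCG.critSol_mono ?_ ?_ hsol
      · have h1 : 1 ≤ (M ^ 4) ^ Kg := one_le_pow₀ (by linarith)
        have h2 : 2 ≤ M ^ b := by
          refine hM2.trans ?_
          exact le_self_pow₀ hM1 (by omega)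
        nlinarith
      · rw [← pow_mul, ← pow_add]
    · intro g hg
      rw [d.kapEq g hg]
      have hf0 : ∀ p : Wd × Wd, 0 ≤ d.G.rho ^ hl p :=
        fun p => pow_nonneg d.G.rho_pos.le _
      have hsp := split_sum (Pc k n) (fun p => p ∉ allowed k n g) hl L
        (fun p => d.G.rho ^ hl p) hf0
      have ht := (tail_pieces hM2 d.tails L).trans (tail_small hM2 j L hL1)
      have hk := hKAP k n L d.G.rho X z hk hn2 d.G.rho_pos hX0.le hz hzk g hg
      have hps := hPSM d.G n (capS k n) d.B v d.cap_s.cap d.sol hv0 (fun g hg => by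
        rw [hveq g hg]
        have := hss g hg
        linarith) L g hg
      have har : ∑ m ∈ range (L + 1), ((ArchSet k g (2 * m)).card : ℝ) * d.G.rho ^ m =
          ∑ m ∈ range (L + 1), d.G.rho ^ m * (d.B m g).eval 1 := by
        refine sum_congr rfl fun m hm => ?_
        have hm' := mem_range.1 hm
        rw [d.arEq m g (by omega) hg, mul_comm]
      rw [har] at hk
      have hvg := hv0 g
      have hk2 : ∑ p ∈ (Pc k n).filter (fun p => p ∉ allowed k n g ∧ hl p ≤ L),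
          d.G.rho ^ hl p ≤ M ^ b * v g := by
        refine le_trans (le_trans (le_of_eq ?_) hk) ?_
        · congr
        · refine mul_le_mul hP1 hps (sum_nonneg fun m hm => mul_nonneg
            (pow_nonneg d.G.rho_pos.le _) ?_) (by positivity)
          have hm' := mem_range.1 hm
          rw [d.arEq m g (by omega) hg]
          exact Nat.cast_nonneg _
      have ej : (M ^ 4) ^ J = M ^ j := by rw [← pow_mul]
      rw [ej]
      refine le_trans (le_of_eq ?_) (hsp.trans ?_)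
      · congr
      · linarith
  obtain ⟨Vs, hVs⟩ := main _ (crit_sr hM2 d.cls d.cap_s) fun g _ => le_rfl
  obtain ⟨Vt, hVt⟩ := main _ (crit_sr hM2 d.cls d.cap_t) fun g hg => src_le d.toDat g hg
  exact ⟨Vs, Vt, hVs, hVt⟩

end Pool.Agent.KCE
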