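import Pool.Agent.KCE.Stmts
import Pool.Agent.KCC.Rho

/-!
# Column-convex polygons (MP_f6626d_co), explicit window, module RHO: the critical weights
-/

set_option autoImplicit false

namespace Pool.Agent.KCE

open Finset Pool.Agent.Lib27 Pool.Agent.KCC Pool.Agent.KCC.RHO

namespace RHOX

/-- the power `(1 + D⁻¹) ^ n` for large `n` -/
lemma pow_large {D : ℝ} (hD : 2 ≤ D) {n : ℕ} (hn : D ^ 10 ≤ n) :
    8 * D ^ 2 ≤ (1 + D⁻¹) ^ n ∧ 2 * n * D ≤ (1 + D⁻¹) ^ n := by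
  have hD0 : 0 < D := by linarith
  have hn1 : (1024 : ℝ) ≤ n := by
    have h1 : (2 : ℝ) ^ 10 ≤ D ^ 10 := pow_le_pow_left₀ (by norm_num) hD 10
    have h2 : (2 : ℝ) ^ 10 = 1024 := by norm_num
    linarith
  have hn2 : 1024 ≤ n := by exact_mod_cast hn1
  obtain ⟨j, hj⟩ : ∃ j, j = n / 3 := ⟨_, rfl⟩
  have hj1 : 3 * j ≤ n := by omega
  have hj2 : n ≤ 6 * j := by omega
  have hj3 : (n : ℝ) / 6 ≤ j := by
    have : (n : ℝ) ≤ 6 * j := by exact_mod_cast hj2
    linarith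
  have hbase : (1 : ℝ) ≤ 1 + D⁻¹ := by
    have : 0 < D⁻¹ := inv_pos.2 hD0
    linarith
  have h1 : ((n : ℝ) / (6 * D)) ^ 3 ≤ (1 + D⁻¹) ^ n := by
    have h2 := one_add_mul_le_pow (show (-2 : ℝ) ≤ D⁻¹ by
      have : 0 < D⁻¹ := inv_pos.2 hD0
      linarith) j
    have h3 : (n : ℝ) / (6 * D) ≤ (1 + D⁻¹) ^ j := by
      refine le_trans ?_ h2
      have h4 : (n : ℝ) / (6 * D) = n / 6 * D⁻¹ := by
        field_simp
      rw [h4]
      have h5 := mul_le_mul_of_nonneg_right hj3 (inv_pos.2 hD0).le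
      linarith
    calc ((n : ℝ) / (6 * D)) ^ 3 ≤ ((1 + D⁻¹) ^ j) ^ 3 := pow_le_pow_left₀ (by positivity) h3 3
      _ = (1 + D⁻¹) ^ (3 * j) := by rw [← pow_mul, mul_comm]
      _ ≤ (1 + D⁻¹) ^ n := pow_le_pow_right₀ hbase hj1
  have hn0 : (0 : ℝ) < n := by linarith
  -- `n ^ 2 ≥ 432 D ^ 4`
  have h6 : 432 * D ^ 4 ≤ (n : ℝ) ^ 2 := by
    have h7 : (D ^ 10) ^ 2 ≤ (n : ℝ) ^ 2 := pow_le_pow_left₀ (by positivity) hn 2
    have h8 : (2 : ℝ) ^ 16 ≤ D ^ 16 := pow_le_pow_left₀ (by norm_num) hD 16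
    have h9 : (D ^ 10) ^ 2 = D ^ 16 * D ^ 4 := by ring
    have h10 : 432 * D ^ 4 ≤ D ^ 16 * D ^ 4 := by
      refine mul_le_mul_of_nonneg_right ?_ (by positivity)
      have : (2 : ℝ) ^ 16 = 65536 := by norm_num
      linarith
    linarith
  have h11 : ((n : ℝ) / (6 * D)) ^ 3 = (n : ℝ) ^ 2 * n / (216 * D ^ 3) := by
    rw [div_pow]
    ring
  have h12 : 2 * n * D ≤ ((n : ℝ) / (6 * D)) ^ 3 := by
    rw [h11, le_div_iff₀ (by positivity)]
    have h13 := mul_le_mul_of_nonneg_right h6 hn0.le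
    linarith [show 2 * (n : ℝ) * D * (216 * D ^ 3) = 432 * D ^ 4 * n by ring]
  refine ⟨?_, h12.trans h1⟩
  refine le_trans ?_ (h12.trans h1)
  have h14 : 4 * D ≤ n := by
    have h15 : D ^ 10 = D ^ 9 * D := by ring
    have h16 : (2 : ℝ) ^ 9 ≤ D ^ 9 := pow_le_pow_left₀ (by norm_num) hD 9
    have h17 : 4 * D ≤ D ^ 9 * D := by
      refine mul_le_mul_of_nonneg_right ?_ hD0.le
      have : (2 : ℝ) ^ 9 = 512 := by norm_num
      linarith
    linarith
  have h18 := mul_le_mul_of_nonneg_right h14 hD0.le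
  linarith [show 8 * D ^ 2 = 2 * (4 * D * D) by ring]

end RHOX

open RHOX in
/-- Module RHO. -/
theorem t_ERHO : ERHO_Stmt := by
  refine ⟨10, fun D hD k q _ hTP n rho hn hrho hsum => ?_⟩
  obtain ⟨hq, he, hC, h1, h2, h3, _, _⟩ := hTP
  have hD0 : 0 < D := by linarith
  obtain ⟨hP1, hP2⟩ := pow_large hD hn
  have hle : q ≤ rho := by
    by_contra hcon
    push Not at hcon
    have hne : (Pc k n).Nonempty := by
      by_contra h
      rw [not_nonempty_iff_eq_empty] at h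
      rw [h, sum_empty] at hsum
      exact zero_ne_one hsum
    have h4 : ∑ p ∈ Pc k n, rho ^ hl p < ∑ p ∈ Pc k n, q ^ hl p :=
      sum_lt_sum_of_nonempty hne fun p hp =>
        pow_lt_pow_left₀ hcon hrho.le (by have := hl_pos hp; omega)
    linarith [h1 n]
  refine ⟨hle, ?_⟩
  have hp0 : (0 : ℝ) < (1 + D⁻¹) ^ n := by positivity
  set ε : ℝ := D / (1 + D⁻¹) ^ n with hε
  have hε0 : 0 < ε := by positivity
  have hε8 : 8 * D * ε ≤ 1 := by
    rw [hε, mul_div_assoc', div_le_one hp0]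
    linarith [show 8 * D * D = 8 * D ^ 2 by ring]
  have hεn : 2 * n * ε ≤ 1 := by
    rw [hε, mul_div_assoc', div_le_one hp0]
    exact hP2
  have hε1 : ε ≤ 1 / 2 := by nlinarith
  have hS : 1 ≤ ∑ p ∈ Pc k n, q ^ hl p + ε := by
    refine le_of_forall_pos_lt_add fun δ hδ => ?_
    obtain ⟨N, hN⟩ := near_one hq he hC h2 h3 hδ
    have h5 := tail_le hq he h3 (n := n) (N := N)
    linarith
  have hx1 : 1 ≤ rho / q := by rwa [one_le_div hq]
  have h6 : rho / q * ∑ p ∈ Pc k n, q ^ hl p ≤ 1 := by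
    rw [← hsum, mul_sum]
    refine sum_le_sum fun p hp => ?_
    have h7 : rho ^ hl p = (rho / q) ^ hl p * q ^ hl p := by
      rw [← mul_pow, div_mul_cancel₀ _ hq.ne']
    rw [h7]
    refine mul_le_mul_of_nonneg_right ?_ (by positivity)
    calc rho / q = (rho / q) ^ 1 := (pow_one _).symm
      _ ≤ (rho / q) ^ hl p := pow_le_pow_right₀ hx1 (hl_pos hp)
  have h8 : rho / q * (1 - ε) ≤ 1 :=
    le_trans (mul_le_mul_of_nonneg_left (by linarith) (by linarith)) h6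
  have h9 : rho / q ≤ 1 + 2 * ε := by
    have h10 : (1 : ℝ) ≤ (1 + 2 * ε) * (1 - ε) := by nlinarith
    have h11 : 0 < 1 - ε := by linarith
    by_contra hcon
    push Not at hcon
    have := mul_lt_mul_of_pos_right hcon h11
    linarith
  refine ⟨?_, ?_⟩
  · have h12 : 2 * ε ≤ D⁻¹ / 2 := by
      have h13 : D⁻¹ * D = 1 := inv_mul_cancel₀ hD0.ne'
      have h14 : 0 < D⁻¹ := inv_pos.2 hD0
      have h15 : D⁻¹ * (8 * D * ε) ≤ D⁻¹ * 1 := mul_le_mul_of_nonneg_left hε8 h14.le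
      have h16 : D⁻¹ * (8 * D * ε) = 8 * ε := by
        calc D⁻¹ * (8 * D * ε) = (D⁻¹ * D) * (8 * ε) := by ring
          _ = 8 * ε := by rw [h13, one_mul]
      rw [h16, mul_one] at h15
      linarith
    have h17 : rho = rho / q * q := by rw [div_mul_cancel₀ _ hq.ne']
    rw [h17]
    exact mul_le_mul_of_nonneg_right (h9.trans (by linarith)) hq.le
  · calc (rho / q) ^ n ≤ (Real.exp (2 * ε)) ^ n :=
          pow_le_pow_left₀ (by linarith) (h9.trans (by linarith [Real.add_one_le_exp (2 * ε)])) n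
      _ = Real.exp (n * (2 * ε)) := by rw [← Real.exp_nat_mul]
      _ ≤ Real.exp 1 := Real.exp_le_exp.2 (by linarith)
      _ ≤ 3 := by
          have := Real.exp_one_lt_d9
          linarith

end Pool.Agent.KCE
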