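import Pool.Agent.KCE.Stmts

/-!
# EROOM: the generating function slightly beyond the critical point
-/

set_option autoImplicit false

namespace Pool.Agent.KCE

open Finset Pool.Agent.Lib27 Pool.Agent.KCC
open scoped NNReal ENNReal

namespace ROOM

/-- `(1 + 1 / L) ^ (b + 1) ≤ 8` -/
theorem pow8 (L b : ℕ) (hL : 1 ≤ L) (hb : b ≤ L) : (1 + 1 / (L : ℝ)) ^ (b + 1) ≤ 8 := by
  have h0 : (0 : ℝ) < L := by exact_mod_cast hL
  have h00 : (1 : ℝ) ≤ L := by exact_mod_cast hL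
  have hpos : 0 < 1 / (L : ℝ) := by positivity
  have hle1 : 1 / (L : ℝ) ≤ 1 := by
    rw [div_le_iff₀ h0]
    linarith
  have h1 : (1 + 1 / (L : ℝ)) ^ (b + 1) ≤ (1 + 1 / (L : ℝ)) ^ (L + 1) :=
    pow_le_pow_right₀ (by linarith) (by omega)
  have h2 : (1 + 1 / (L : ℝ)) ≤ Real.exp (1 / L) := by
    have := Real.add_one_le_exp (1 / (L : ℝ))
    linarith
  have h3 : (1 + 1 / (L : ℝ)) ^ (L + 1) ≤ Real.exp (1 / L) ^ (L + 1) :=
    pow_le_pow_left₀ (by positivity) h2 _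
  have h4 : Real.exp (1 / (L : ℝ)) ^ (L + 1) = Real.exp (1 + 1 / L) := by
    rw [← Real.exp_nat_mul]
    congr 1
    push_cast
    field_simp
  have h5 : Real.exp (1 + 1 / (L : ℝ)) ≤ Real.exp 2 := Real.exp_le_exp.2 (by linarith)
  have h6 : Real.exp 2 ≤ 8 := by
    have h7 : Real.exp 2 = Real.exp 1 * Real.exp 1 := by
      rw [← Real.exp_add]
      norm_num
    have h8 := Real.exp_one_lt_d9
    have h9 := Real.exp_pos 1
    rw [h7]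
    nlinarith
  rw [h4] at h3
  linarith

/-- the root -/
theorem root (n : ℕ) (hn : 1 ≤ n) (z z0 : ℝ) (h0 : 0 < z0)
    (h : (z ^ 2 / z0 ^ 2) ^ n ≤ 3) : z ≤ (1 + 1 / (n : ℝ)) * z0 := by
  by_contra hc
  rw [not_le] at hc
  have hn0 : (0 : ℝ) < n := by exact_mod_cast hn
  have hpos : 0 < 1 / (n : ℝ) := by positivity
  have h1 : 1 + 1 / (n : ℝ) < z / z0 := by rwa [lt_div_iff₀ h0]
  have h2 : 1 + (n : ℝ) * (1 / n) ≤ (1 + 1 / (n : ℝ)) ^ n :=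
    one_add_mul_le_pow (by linarith) n
  have h2' : (n : ℝ) * (1 / n) = 1 := by field_simp
  rw [h2'] at h2
  have h4 : (1 + 1 / (n : ℝ)) ^ n ≤ (z / z0) ^ n :=
    pow_le_pow_left₀ (by linarith) h1.le n
  have h5 : (z ^ 2 / z0 ^ 2) ^ n = ((z / z0) ^ n) ^ 2 := by
    rw [← div_pow, ← pow_mul, ← pow_mul, mul_comm]
  rw [h5] at h
  have h6 : 2 ≤ (z / z0) ^ n := by linarith
  nlinarith

end ROOM

open ROOM in
theorem t_EROOM (h1 : ETAL_Stmt) (h2 : ERHO_Stmt) (h3 : XMX.XLOOP_Stmt) (h4 : XMX.XYEPS_Stmt)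
    (h5 : XMX.XGL_Stmt) : EROOM_Stmt := by
  obtain ⟨B0, hB0, hT⟩ := h1
  obtain ⟨K, hR⟩ := h2
  obtain ⟨B1, hB1, hL⟩ := h3
  obtain ⟨B2, hB2, hY⟩ := h4
  have hB1' : (2 : ℝ) ≤ B1 := by exact_mod_cast hB1
  have hB2' : (2 : ℝ) ≤ B2 := by exact_mod_cast hB2
  have hP0 : (1 : ℝ) ≤ B0 ^ K := one_le_pow₀ (by linarith)
  have hP18 : (1 : ℝ) ≤ (B1 : ℝ) ^ 8 := one_le_pow₀ (by linarith)
  have hP1 : (1 : ℝ) ≤ 8 * (B1 : ℝ) ^ 8 := by linarith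
  have hP2 : (1 : ℝ) ≤ 4 * (B2 : ℝ) := by linarith
  obtain ⟨B, hB⟩ : ∃ B : ℝ, B = B0 ^ K * (8 * (B1 : ℝ) ^ 8) * (4 * (B2 : ℝ)) := ⟨_, rfl⟩
  have hP01 : (1 : ℝ) ≤ B0 ^ K * (8 * (B1 : ℝ) ^ 8) := one_le_mul_of_one_le_of_one_le hP0 hP1
  have g0 : B0 ^ K ≤ B := by
    rw [hB, mul_assoc]
    exact le_mul_of_one_le_right (by linarith) (one_le_mul_of_one_le_of_one_le hP1 hP2)
  have g1 : 8 * (B1 : ℝ) ^ 8 ≤ B := by
    rw [hB]
    refine le_trans ?_ (le_mul_of_one_le_right (by linarith) hP2)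
    exact le_mul_of_one_le_left (by linarith) hP0
  have g2 : 4 * (B2 : ℝ) ≤ B := by
    rw [hB]
    exact le_mul_of_one_le_left (by linarith) hP01
  have g3 : (B1 : ℝ) ^ 2 ≤ B := by
    refine le_trans ?_ g1
    have : (B1 : ℝ) ^ 2 ≤ (B1 : ℝ) ^ 8 := pow_le_pow_right₀ (by linarith) (by norm_num)
    linarith
  have hB2B : 2 ≤ B := by linarith
  refine ⟨B, hB2B, fun k hk n L rho hL1 hn hr hF => ?_⟩
  have hk2 : 1 ≤ k ^ 2 := Nat.one_le_pow _ _ hk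
  have hk0 : k ^ 2 ≠ 0 := by omega
  have hkk : k ≤ k ^ 2 := by nlinarith
  -- the numerical facts
  have hD : 2 ≤ Mk B0 k := by
    unfold Mk
    exact hB0.trans (le_self_pow₀ (by linarith) hk0)
  have f0 : Mk B0 k ^ K ≤ Mk B k := by
    unfold Mk
    calc (B0 ^ (k ^ 2)) ^ K = (B0 ^ K) ^ (k ^ 2) := by rw [← pow_mul, ← pow_mul, mul_comm]
      _ ≤ B ^ (k ^ 2) := pow_le_pow_left₀ (by linarith) g0 _
  have f1 : (B1 : ℝ) ^ (2 * k) ≤ Mk B k := by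
    unfold Mk
    calc (B1 : ℝ) ^ (2 * k) ≤ (B1 : ℝ) ^ (2 * k ^ 2) :=
          pow_le_pow_right₀ (by linarith) (by omega)
      _ = ((B1 : ℝ) ^ 2) ^ (k ^ 2) := by rw [pow_mul]
      _ ≤ B ^ (k ^ 2) := pow_le_pow_left₀ (by positivity) g3 _
  have f2 : (B2 : ℝ) * (2 * k) ≤ Mk B k := by
    unfold Mk
    have a1 : (k : ℝ) ≤ 2 ^ (k ^ 2) := by
      have a2 : k < 2 ^ k := Nat.lt_two_pow_self
      have a3 : 2 ^ k ≤ 2 ^ (k ^ 2) := Nat.pow_le_pow_right (by norm_num) hkk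
      exact_mod_cast (a2.le.trans a3)
    have a4 : 2 * (B2 : ℝ) ≤ (2 * (B2 : ℝ)) ^ (k ^ 2) := le_self_pow₀ (by linarith) hk0
    calc (B2 : ℝ) * (2 * k) = k * (2 * (B2 : ℝ)) := by ring
      _ ≤ 2 ^ (k ^ 2) * (2 * (B2 : ℝ)) ^ (k ^ 2) := by gcongr
      _ = (4 * (B2 : ℝ)) ^ (k ^ 2) := by
          rw [← mul_pow]
          congr 1
          ring
      _ ≤ B ^ (k ^ 2) := pow_le_pow_left₀ (by linarith) g2 _
  have f3 : ((B1 : ℝ) ^ ((2 * k) ^ 2)) ^ 2 * 8 ≤ Mk B k := by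
    unfold Mk
    have a1 : (8 : ℝ) ≤ 8 ^ (k ^ 2) := le_self_pow₀ (by norm_num) hk0
    have a2 : ((B1 : ℝ) ^ ((2 * k) ^ 2)) ^ 2 = ((B1 : ℝ) ^ 8) ^ (k ^ 2) := by
      rw [← pow_mul, ← pow_mul]
      congr 1
      ring
    calc ((B1 : ℝ) ^ ((2 * k) ^ 2)) ^ 2 * 8 ≤ ((B1 : ℝ) ^ 8) ^ (k ^ 2) * 8 ^ (k ^ 2) := by
          rw [a2]
          gcongr
      _ = (8 * (B1 : ℝ) ^ 8) ^ (k ^ 2) := by
          rw [← mul_pow]
          congr 1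
          ring
      _ ≤ B ^ (k ^ 2) := pow_le_pow_left₀ (by linarith) g1 _
  have hN0 : 0 < Mk B k := by
    unfold Mk
    exact pow_pos (by linarith) _
  have hLr : (1 : ℝ) ≤ L := by exact_mod_cast hL1
  have hL0 : (0 : ℝ) < L := by linarith
  have hNn : Mk B k ≤ n := le_trans (le_mul_of_one_le_right hN0.le hLr) hn
  have hn0 : (0 : ℝ) < n := by linarith
  have hn1 : 1 ≤ n := by exact_mod_cast hn0
  -- the critical points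
  obtain ⟨q1, q2, hTP⟩ := hT k hk
  obtain ⟨r1, r2, r3⟩ := hR (Mk B0 k) hD k (qk k) hk hTP n rho (f0.trans hNn) hr hF
  obtain ⟨z0, hz0⟩ : ∃ z0 : ℝ≥0, z0 = (XM.zst (2 * k - 2)).toNNReal := ⟨_, rfl⟩
  have hq : qk k = (z0 : ℝ) ^ 2 := by
    rw [hz0]
    rfl
  have hne : XM.zst (2 * k - 2) ≠ ⊤ := by
    intro htop
    rw [hq, hz0, htop] at q1
    norm_num at q1
  have hzst : XM.zst (2 * k - 2) = (z0 : ℝ≥0∞) := by
    rw [hz0]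
    exact (ENNReal.coe_toNNReal hne).symm
  have hz0p : (0 : ℝ) < z0 := by
    rcases (NNReal.coe_nonneg z0).eq_or_lt with h | h
    · rw [hq, ← h] at q1
      norm_num at q1
    · exact h
  obtain ⟨z, hz⟩ : ∃ z : ℝ≥0, z = (Real.sqrt rho).toNNReal := ⟨_, rfl⟩
  have hzr : (z : ℝ) = Real.sqrt rho := by
    rw [hz]
    exact Real.coe_toNNReal _ (Real.sqrt_nonneg _)
  have hz2 : (z : ℝ) ^ 2 = rho := by
    rw [hzr]
    exact Real.sq_sqrt hr.le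
  have hroot : (z : ℝ) ≤ (1 + 1 / (n : ℝ)) * z0 := by
    refine root n hn1 z z0 hz0p ?_
    rw [hz2, ← hq]
    exact r3
  have hc : 2 * k - 2 + 2 = 2 * k := by omega
  have hcr : (((2 * k - 2 : ℕ) : ℝ) + 2) = 2 * k := by exact_mod_cast hc
  -- loops
  have hz1 : (z : ℝ≥0∞) ≤ ((1 + (XMX.Ba B1 (2 * k - 2))⁻¹ : ℝ≥0) : ℝ≥0∞) *
      XM.zst (2 * k - 2) := by
    rw [hzst, ← ENNReal.coe_mul, ENNReal.coe_le_coe, ← NNReal.coe_le_coe]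
    unfold XMX.Ba
    rw [hc]
    push_cast
    refine hroot.trans (mul_le_mul_of_nonneg_right ?_ hz0p.le)
    have a1 : 1 / (n : ℝ) ≤ ((B1 : ℝ) ^ (2 * k))⁻¹ := by
      rw [one_div]
      exact inv_anti₀ (by positivity) (f1.trans hNn)
    linarith
  have hz3 : (z : ℝ≥0∞) ≤ ((1 + (1 / (L : ℝ≥0)) / (B2 * (((2 * k - 2 : ℕ) : ℝ≥0) + 2)) : ℝ≥0) :
      ℝ≥0∞) * XM.zst (2 * k - 2) := by
    rw [hzst, ← ENNReal.coe_mul, ENNReal.coe_le_coe, ← NNReal.coe_le_coe]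
    rw [NNReal.coe_mul, NNReal.coe_add, NNReal.coe_div, NNReal.coe_div, NNReal.coe_mul,
      NNReal.coe_add, NNReal.coe_natCast, NNReal.coe_natCast, NNReal.coe_one,
      NNReal.coe_ofNat, hcr]
    refine hroot.trans (mul_le_mul_of_nonneg_right ?_ hz0p.le)
    have hkr : (1 : ℝ) ≤ k := by exact_mod_cast hk
    have a0 : 0 < (B2 : ℝ) * (2 * k) := by positivity
    have a1 : 1 / (n : ℝ) ≤ 1 / (L : ℝ) / ((B2 : ℝ) * (2 * k)) := by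
      rw [div_div]
      refine one_div_le_one_div_of_le (by positivity) ?_
      calc (L : ℝ) * ((B2 : ℝ) * (2 * k)) ≤ L * Mk B k := by gcongr
        _ = Mk B k * L := mul_comm _ _
        _ ≤ n := hn
    linarith
  have hLoop : OC.gs (XM.wz z) (XM.Lp (2 * k - 2)) ≤
      ((XMX.Bl B1 (2 * k - 2) : ℝ≥0) : ℝ≥0∞) := by
    refine le_trans (OC.gs_le _ _ subset_rfl fun l _ => ?_) (hL (2 * k - 2) z hz1)
    refine le_mul_of_one_le_right' (one_le_pow₀ ?_)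
    exact_mod_cast (le_self_add : (1 : ℝ≥0) ≤ 1 + (XMX.Ba B1 (2 * k - 2))⁻¹)
  refine ⟨z, hz2.ge, fun b hb => ?_⟩
  have ha0 : (0 : ℝ≥0) < 1 / (L : ℝ≥0) := by
    have : (0 : ℝ≥0) < L := by exact_mod_cast hL1
    positivity
  have ha1 : 1 / (L : ℝ≥0) ≤ 1 := by
    rw [← NNReal.coe_le_coe, NNReal.coe_div, NNReal.coe_one, NNReal.coe_natCast,
      div_le_iff₀ hL0]
    linarith
  have hYb := hY (2 * k - 2) (1 / (L : ℝ≥0)) ha0 ha1 z hz3 b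
  refine (h5 (2 * k - 2) b z).trans ((mul_le_mul' (pow_le_pow_left' hLoop 2) hYb).trans ?_)
  have key : ((XMX.Bl B1 (2 * k - 2) ^ 2 * (1 + 1 / (L : ℝ≥0)) ^ (b + 1) : ℝ≥0) : ℝ) ≤
      Mk B k := by
    unfold XMX.Bl
    rw [hc]
    push_cast
    have a1 := pow8 L b hL1 hb
    refine le_trans (mul_le_mul_of_nonneg_left a1 (by positivity)) f3
  calc ((XMX.Bl B1 (2 * k - 2) : ℝ≥0) : ℝ≥0∞) ^ 2 *
        ((1 + 1 / (L : ℝ≥0) : ℝ≥0) : ℝ≥0∞) ^ (b + 1)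
      = ((XMX.Bl B1 (2 * k - 2) ^ 2 * (1 + 1 / (L : ℝ≥0)) ^ (b + 1) : ℝ≥0) : ℝ≥0∞) := by
        rw [ENNReal.coe_mul, ENNReal.coe_pow, ENNReal.coe_pow]
    _ = ENNReal.ofReal ((XMX.Bl B1 (2 * k - 2) ^ 2 * (1 + 1 / (L : ℝ≥0)) ^ (b + 1) : ℝ≥0) : ℝ) :=
        (ENNReal.ofReal_coe_nnreal).symm
    _ ≤ ENNReal.ofReal (Mk B k) := ENNReal.ofReal_le_ofReal key

end Pool.Agent.KCE
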