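import Pool.Agent.KCE.Stmts

/-!
# Column-convex polygons (MP_f6626d_co), explicit window: sequences (module SLW)
-/

set_option autoImplicit false

namespace Pool.Agent.KCE

open Finset Filter Topology MeasureTheory Pool.Agent.KCC

namespace SLWaux

lemma tend_log : Tendsto (fun n : ℕ => Real.log (n : ℝ)) atTop atTop :=
  Real.tendsto_log_atTop.comp tendsto_natCast_atTop_atTop

lemma nat_exp {n : ℕ} (hn : 1 ≤ Real.log n) : (n : ℝ) = Real.exp (Real.log n) ∧ (0 : ℝ) < n := by
  have h0 : (0 : ℝ) < n := by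
    rcases Nat.eq_zero_or_pos n with h | h
    · subst h
      rw [Nat.cast_zero, Real.log_zero] at hn
      linarith
    · exact_mod_cast h
  exact ⟨(Real.exp_log h0).symm, h0⟩

lemma Mk_one {B : ℝ} (hB : 2 ≤ B) (k : ℕ) : 1 ≤ Mk B k := one_le_pow₀ (by linarith)

lemma Mk_exp {B : ℝ} (hB : 2 ≤ B) (k T : ℕ) :
    Mk B k ^ T = Real.exp (T * (Real.log B * (k : ℝ) ^ 2)) := by
  have h0 : 0 < B := by linarith
  have h1 : B ^ (k ^ 2) = Real.exp (((k ^ 2 : ℕ) : ℝ) * Real.log B) := by
    rw [Real.exp_nat_mul, Real.exp_log h0]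
  rw [Mk, h1, ← Real.exp_nat_mul]
  congr 1
  push_cast
  ring

/-- the class parameter is a small power of `n` -/
lemma ev_M {B : ℝ} (hB : 2 ≤ B) (k : ℕ → ℕ)
    (hk : Tendsto (fun n : ℕ => (k n : ℝ) ^ 2 / Real.log n) atTop (𝓝 0)) (T : ℕ) (e : ℝ)
    (he : 0 < e) : ∀ᶠ n : ℕ in atTop, Mk B (k n) ^ T ≤ Real.exp (e * Real.log n) := by
  have hlB : 0 < Real.log B := Real.log_pos (by linarith)
  have hc : 0 < T * Real.log B + 1 := by positivity
  filter_upwards [hk.eventually (gt_mem_nhds (show (0 : ℝ) < e / (T * Real.log B + 1) by positivity)),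
    tend_log.eventually_ge_atTop 1] with n h1 h2
  have hl : 0 < Real.log n := by linarith
  rw [Mk_exp hB]
  refine Real.exp_le_exp.2 ?_
  have h3 : (k n : ℝ) ^ 2 ≤ e / (T * Real.log B + 1) * Real.log n := by
    rw [div_lt_iff₀ hl] at h1
    exact h1.le
  calc (T : ℝ) * (Real.log B * (k n : ℝ) ^ 2) ≤ (T * Real.log B + 1) * (k n : ℝ) ^ 2 := by
        nlinarith [sq_nonneg (k n : ℝ)]
    _ ≤ (T * Real.log B + 1) * (e / (T * Real.log B + 1) * Real.log n) :=
        mul_le_mul_of_nonneg_left h3 hc.le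
    _ = e * Real.log n := by field_simp

lemma sqrt_eq {n : ℕ} (hn : 1 ≤ Real.log n) : Real.sqrt n = Real.exp (1 / 2 * Real.log n) := by
  obtain ⟨h6, -⟩ := nat_exp hn
  have h : Real.sqrt (Real.exp (Real.log n)) = Real.exp (Real.log n / 2) := (Real.exp_half _).symm
  rw [← h6] at h
  rw [h]
  congr 1
  ring

end SLWaux

open SLWaux in
theorem t_ESLW : ESLW_Stmt := by
  intro B Kn hB k hk
  have hM1 : ∀ n, 1 ≤ Mk B (k n) := fun n => Mk_one hB _
  have hM0 : ∀ n, 0 < Mk B (k n) := fun n => by linarith [hM1 n]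
  have hθ : ∀ n, 0 ≤ 1 - (Mk B (k n))⁻¹ := fun n => by
    have := inv_le_one_of_one_le₀ (hM1 n)
    linarith
  have c2 : ∀ j : ℕ, Tendsto (fun n : ℕ => Mk B (k n) ^ j / (n : ℝ)) atTop (𝓝 0) := by
    intro j
    have hg : Tendsto (fun n : ℕ => Real.exp (-(1 / 2 * Real.log n))) atTop (𝓝 0) := by
      refine Real.tendsto_exp_neg_atTop_nhds_zero.comp ?_
      exact tend_log.const_mul_atTop (by norm_num)
    refine squeeze_zero' ?_ ?_ hg
    · refine Eventually.of_forall fun n => ?_
      have := hM0 n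
      positivity
    · filter_upwards [ev_M hB k hk j (1 / 2) (by norm_num), tend_log.eventually_ge_atTop 1]
        with n h1 h2
      obtain ⟨h6, h7⟩ := nat_exp h2
      calc Mk B (k n) ^ j / (n : ℝ) ≤ Real.exp (1 / 2 * Real.log n) / n :=
            div_le_div_of_nonneg_right h1 h7.le
        _ = Real.exp (1 / 2 * Real.log n - Real.log n) := by rw [Real.exp_sub, ← h6]
        _ = _ := by congr 1; ring
  have c4 : ∀ i j : ℕ, Tendsto (fun n : ℕ =>
      (n : ℝ) ^ i * Mk B (k n) ^ j * (1 - (Mk B (k n))⁻¹) ^ n) atTop (𝓝 0) := by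
    intro i j
    have hg : Tendsto (fun n : ℕ => Real.sqrt n ^ (2 * (i + 1)) * Real.exp (-Real.sqrt n))
        atTop (𝓝 0) :=
      (Real.tendsto_pow_mul_exp_neg_atTop_nhds_zero (2 * (i + 1))).comp
        (Real.tendsto_sqrt_atTop.comp tendsto_natCast_atTop_atTop)
    refine squeeze_zero' ?_ ?_ hg
    · refine Eventually.of_forall fun n => ?_
      have := hM0 n
      have := hθ n
      positivity
    · filter_upwards [ev_M hB k hk j 1 one_pos, ev_M hB k hk 1 (1 / 2) (by norm_num),
        tend_log.eventually_ge_atTop 1] with n h1 h3 h2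
      obtain ⟨h6, h7⟩ := nat_exp h2
      rw [one_mul, ← h6] at h1
      rw [pow_one, ← sqrt_eq h2] at h3
      have hs : 0 < Real.sqrt n := Real.sqrt_pos.2 h7
      have h8 : (1 - (Mk B (k n))⁻¹) ^ n ≤ Real.exp (-Real.sqrt n) := by
        have h9 : 1 - (Mk B (k n))⁻¹ ≤ Real.exp (-(Mk B (k n))⁻¹) := by
          have := Real.add_one_le_exp (-(Mk B (k n))⁻¹)
          linarith
        calc (1 - (Mk B (k n))⁻¹) ^ n ≤ Real.exp (-(Mk B (k n))⁻¹) ^ n :=
              pow_le_pow_left₀ (hθ n) h9 n
          _ = Real.exp (n * -(Mk B (k n))⁻¹) := (Real.exp_nat_mul _ _).symm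
          _ ≤ _ := by
            refine Real.exp_le_exp.2 ?_
            have h10 : Real.sqrt n ≤ n * (Mk B (k n))⁻¹ := by
              rw [← div_eq_mul_inv, le_div_iff₀ (hM0 n)]
              calc Real.sqrt n * Mk B (k n) ≤ Real.sqrt n * Real.sqrt n :=
                    mul_le_mul_of_nonneg_left h3 hs.le
                _ = n := Real.mul_self_sqrt h7.le
            linarith
      have h11 : Real.sqrt n ^ (2 * (i + 1)) = (n : ℝ) ^ i * n := by
        rw [pow_mul, Real.sq_sqrt h7.le, pow_succ]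
      rw [h11]
      have h12 : (0 : ℝ) ≤ (n : ℝ) ^ i := by positivity
      have h13 : 0 ≤ (1 - (Mk B (k n))⁻¹) ^ n := pow_nonneg (hθ n) n
      exact mul_le_mul (mul_le_mul_of_nonneg_left h1 h12) h8 h13 (by positivity)
  refine ⟨?_, c2, ?_, c4⟩
  · intro K
    filter_upwards [ev_M hB k hk K 1 one_pos, tend_log.eventually_ge_atTop 1] with n h1 h2
    obtain ⟨h6, -⟩ := nat_exp h2
    rwa [one_mul, ← h6] at h1
  · intro j
    have t1 : Tendsto (fun n : ℕ => Mk B (k n) ^ (Kn + j) * (Real.log n / Real.sqrt n))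
        atTop (𝓝 0) := by
      have hg : Tendsto (fun n : ℕ => Real.log n * Real.exp (-(1 / 4 * Real.log n)))
          atTop (𝓝 0) := by
        have h2 := (Real.tendsto_pow_mul_exp_neg_atTop_nhds_zero 1).comp
          (tend_log.const_mul_atTop (show (0 : ℝ) < 1 / 4 by norm_num))
        have h3 := h2.const_mul (4 : ℝ)
        rw [mul_zero] at h3
        refine h3.congr fun n => ?_
        simp only [Function.comp_apply, pow_one]
        ring
      refine squeeze_zero' ?_ ?_ hg
      · filter_upwards [tend_log.eventually_ge_atTop 1] with n h2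
        have := hM0 n
        have h3 : 0 ≤ Real.log n := by linarith
        positivity
      · filter_upwards [ev_M hB k hk (Kn + j) (1 / 4) (by norm_num),
          tend_log.eventually_ge_atTop 1] with n h1 h2
        obtain ⟨h6, h7⟩ := nat_exp h2
        have h3 : 0 ≤ Real.log n := by linarith
        have h4 : 0 ≤ Real.log n / Real.sqrt n := div_nonneg h3 (Real.sqrt_nonneg _)
        calc Mk B (k n) ^ (Kn + j) * (Real.log n / Real.sqrt n)
            ≤ Real.exp (1 / 4 * Real.log n) * (Real.log n / Real.sqrt n) :=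
              mul_le_mul_of_nonneg_right h1 h4
          _ = Real.log n * (Real.exp (1 / 4 * Real.log n) / Real.exp (1 / 2 * Real.log n)) := by
              rw [← sqrt_eq h2]; ring
          _ = _ := by
              rw [← Real.exp_sub]
              congr 2
              ring
    have t2 : Tendsto (fun n : ℕ => Mk B (k n) ^ (Kn + j) / (n : ℝ) ^ 5) atTop (𝓝 0) := by
      refine squeeze_zero' ?_ ?_ (c2 (Kn + j))
      · refine Eventually.of_forall fun n => ?_
        have := hM0 n
        positivity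
      · filter_upwards [eventually_ge_atTop 1] with n hn
        have h1 : (1 : ℝ) ≤ n := by exact_mod_cast hn
        have h2 := hM0 n
        refine div_le_div_of_nonneg_left (by positivity) (by linarith) ?_
        calc (n : ℝ) = n ^ 1 := (pow_one _).symm
          _ ≤ (n : ℝ) ^ 5 := pow_le_pow_right₀ h1 (by norm_num)
    have t3 := (c4 4 (j + 1)).const_mul (2 : ℝ)
    have h := (t1.add t2).add t3
    simp only [mul_zero, add_zero] at h
    refine h.congr fun n => ?_
    unfold SEQ.kap0
    ring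

end Pool.Agent.KCE
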