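import Pool.Agent.KCE.Stmts
import Pool.Agent.XM.Lib
import Pool.Agent.KCC.Lib

/-!
# Column-convex polygons (MP_f6626d_co), explicit window: the splitting of the strands
-/

set_option autoImplicit false

namespace Pool.Agent.KCE

open Finset Filter Topology MeasureTheory Pool.Agent.Lib27 Pool.Agent.AreaLaw Pool.Agent.KCC
open Pool.Agent.SapR (rot2 wordsUpTo)
open Pool.Agent.Gap (IsCap closeP AreaModel)
open scoped NNReal ENNReal

namespace ESPLM

/-- a vertex of a word is its first vertex or one of the others -/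
theorem mem_head {w : Wd} {q p : ℤ × ℤ} (hp : p ∈ vt q w) : p = q ∨ p ∈ (vt q w).tail := by
  rw [vt_head q w, List.mem_cons] at hp
  exact hp

theorem cross (hx : XBR_Stmt) (U1 V D1 D2 : Wd) (H x h : ℤ) (hx1 : (ep 0 U1).1 = x)
    (hh : (ep 0 (U1 ++ V)).1 = h) (hD1 : (ep 0 D1).1 = x - h) :
    cr ((U1 ++ V) ++ (D1 ++ D2)) H =
      cr (U1 ++ D2) H + (XM.cr V (H - x) + XM.cr (rv D1) (H - x)) := by
  rw [← hx.1, ← hx.1, XM.cr_append, XM.cr_append, XM.cr_append, XM.cr_append, XM.cr_rv, hh, hD1,
    hx1]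
  have e1 : H - x + (x - h) = H - h := by ring
  have e2 : H - h - (x - h) = H - x := by ring
  rw [e1, e2]
  ring

end ESPLM

open ESPLM in
/-- ESPL -/
theorem t_ESPL (hx : XBR_Stmt) : ESPL_Stmt := by
  rintro k n a ⟨U, D⟩ hk ha hp hD
  obtain ⟨⟨⟨h0, h1, hU, hDn, hUi, hDi⟩, hev, hnar, -⟩, hlen⟩ := (mem_Pc k n _).1 hp
  simp only at h0 h1 hU hDn hUi hDi hev hnar hlen
  unfold Disj at hD
  simp only at hD
  obtain ⟨h, hh⟩ : ∃ h : ℤ, h = (ep 0 U).1 := ⟨_, rfl⟩
  set Q : ℤ × ℤ := ep 0 U + (0, 2 * (a + jump (U, D))) with hQ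
  have hQ1 : Q.1 = h := by
    rw [hQ, Prod.fst_add, hh]
    simp
  have hQD : ep Q D = (0, 2 * a) := by
    have hpar : Even ((ep 0 U).2 + (ep 0 D).2) := by
      have e1 := XM.length_parity U
      have e2 := XM.length_parity D
      have e3 := e1.add e2
      have e4 : Even (((U.length + D.length : ℕ) : ℤ)) := by exact_mod_cast hev
      have e5 : (U.length : ℤ) + (ep 0 U).1 + (ep 0 U).2 + ((D.length : ℤ) + (ep 0 D).1 +
          (ep 0 D).2) = ((U.length + D.length : ℕ) : ℤ) + ((ep 0 U).2 + (ep 0 D).2) := by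
        rw [h1]
        push_cast
        ring
      rw [e5, Int.even_add] at e3
      exact e3.1 e4
    obtain ⟨c, hc⟩ := hpar
    have hj : jump (U, D) = -c := by
      unfold jump
      simp only
      rw [hc]
      omega
    rw [ep_eq, hQ]
    refine Prod.ext ?_ ?_
    · simp only [Prod.fst_add]
      omega
    · simp only [Prod.snd_add, hj]
      omega
  -- the vertices of `D` placed at `Q`
  have hDv : ∀ p ∈ vs Q D, 0 < p.1 ∧ p.1 ≤ h := by
    intro p hp
    rw [vs_eq, List.mem_map] at hp
    obtain ⟨q, hq, rfl⟩ := hp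
    have := hDi q hq
    rw [Prod.fst_add, hQ1]
    omega
  have hex : ∃ v ∈ vt 0 U, v ∈ vt Q D := by
    by_contra hcon
    push Not at hcon
    exact hD fun v hv hv' => hcon v hv hv'
  obtain ⟨U1, V, hUe, hz, hmin⟩ := split_first (fun w => w ∈ vt Q D) U 0 hex
  obtain ⟨D1, D2, hDe, hz2', -⟩ := split_first (fun w => w = ep 0 U1) D Q ⟨_, hz, rfl⟩
  -- the column of the common vertex
  have hz0 : ep 0 U1 ∈ vt 0 U := by
    rw [hUe, vt_append, List.mem_append]
    exact Or.inr (mem_vt_self _ _)
  have hzc : 0 < (ep 0 U1).1 ∧ (ep 0 U1).1 ≤ h := by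
    rcases mem_head hz0 with e | e
    · rcases (KCC.mem_vt_iff Q D _).1 hz with e' | e'
      · have := (hDv _ e').1
        rw [e] at this
        exact absurd this (lt_irrefl _)
      · exfalso
        rw [hQD, e] at e'
        have e2 := congrArg Prod.snd e'
        simp only [Prod.snd_zero] at e2
        omega
    · rw [hh]
      exact hUi _ e
  obtain ⟨x, hxe⟩ : ∃ x : ℤ, x = (ep 0 U1).1 := ⟨_, rfl⟩
  rw [← hxe] at hzc
  have hU1 : U1 ≠ [] := by
    rintro rfl
    rw [hxe] at hzc
    exact absurd hzc.1 (lt_irrefl _)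
  have hD2 : D2 ≠ [] := by
    rintro rfl
    rw [List.append_nil] at hDe
    rw [← hDe, hQD] at hz2'
    rw [hxe, ← hz2'] at hzc
    exact absurd hzc.1 (lt_irrefl _)
  have hD1 : (ep 0 D1).1 = x - h := by
    have e := congrArg Prod.fst hz2'
    rw [ep_eq, Prod.fst_add, hQ1, ← hxe] at e
    omega
  -- the conditions of an arch
  have hTe : ep 0 (U1 ++ D2) = (0, 2 * a) := by
    rw [ep_append, ← hz2', ← ep_append, ← hDe, hQD]
  have hDn' : (vt Q D).Nodup := (nodup_vt Q D).2 hDn
  have hsplit : vt Q D = vs Q D1 ++ vt (ep 0 U1) D2 := by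
    rw [hDe, vt_append, hz2']
  have hTn : (vt 0 (U1 ++ D2)).Nodup := by
    rw [vt_append, List.nodup_append']
    refine ⟨?_, ?_, ?_⟩
    · rw [hUe, vt_append] at hU
      exact hU.of_append_left
    · rw [hsplit] at hDn'
      exact hDn'.of_append_right
    · intro v hv hv'
      refine hmin v hv ?_
      rw [hsplit, List.mem_append]
      exact Or.inr hv'
  have hne : vs 0 U1 ≠ [] := by
    intro h
    have := congrArg List.length h
    rw [vs_length, List.length_nil, List.length_eq_zero_iff] at this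
    exact hU1 this
  have hvU : (vt 0 U).tail = (vs 0 U1).tail ++ vt (ep 0 U1) V := by
    rw [hUe, vt_append, List.tail_append_of_ne_nil hne]
  have hTi : ∀ p ∈ (vs 0 (U1 ++ D2)).tail, 0 < p.1 := by
    intro p hp
    rw [vs_append, List.tail_append_of_ne_nil hne, List.mem_append] at hp
    rcases hp with hp | hp
    · refine (hUi p ?_).1
      rw [hvU, List.mem_append]
      exact Or.inl hp
    · refine (hDv p ?_).1
      rw [hDe, vs_append, hz2', List.mem_append]
      exact Or.inr hp
  -- the even length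
  have hTl : Even (U1 ++ D2).length := by
    have e := XM.length_parity (U1 ++ D2)
    rw [hTe] at e
    simp only [add_zero] at e
    rw [Int.even_add] at e
    have e2 : Even (2 * a) := even_two_mul a
    exact_mod_cast e.2 e2
  obtain ⟨m, hm⟩ := hTl
  have hl2 : 2 * hl (U, D) = U.length + D.length := by
    unfold hl
    simp only
    obtain ⟨c, hc⟩ := hev
    omega
  have hUl : U.length = U1.length + V.length := by rw [hUe, List.length_append]
  have hDl : D.length = D1.length + D2.length := by rw [hDe, List.length_append]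
  have hTlen : (U1 ++ D2).length = U1.length + D2.length := List.length_append
  -- the crossings
  have hcr : ∀ H : ℤ, cr (U ++ D) H =
      cr (U1 ++ D2) H + (XM.cr V (H - x) + XM.cr (rv D1) (H - x)) := by
    intro H
    have e := cross hx U1 V D1 D2 H x h hxe.symm (by rw [← hUe, hh]) hD1
    rw [← hUe, ← hDe] at e
    exact e
  have hneg : ∀ H : ℤ, H < 0 → cr (U ++ D) H = 0 := by
    intro H hH
    rw [← hx.1, XM.cr_append, XM.cr_eq_zero_of_gt (w := U), XM.cr_eq_zero_of_gt (w := D)]
    · intro p hp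
      rcases (KCC.mem_vt_iff 0 D p).1 hp with e | e
      · have := (hDi p e).1
        omega
      · rw [e, h1]
        omega
    · intro p hp
      rcases mem_head hp with e | e
      · rw [e]
        exact hH
      · have := (hUi p e).1
        omega
  have hpos : ∀ H : ℤ, 0 ≤ H → H < x → 2 ≤ cr (U1 ++ D2) H := by
    intro H h3 h4
    rw [← hx.1, XM.cr_append]
    have e1 : 1 ≤ XM.cr U1 H := XM.cr_pos_of_lt h3 (by rw [← hxe]; exact h4)
    have e3 : (ep 0 D2).1 = -x := by
      have e := congrArg Prod.fst hTe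
      rw [ep_append, ep_eq, Prod.fst_add, ← hxe] at e
      simp only at e
      omega
    have e2 : 1 ≤ XM.cr (rv D2) H := XM.cr_pos_of_lt h3 (by
      rw [XM.ep_rv0, Prod.fst_neg, e3]
      omega)
    rw [XM.cr_rv, e3] at e2
    have e5 : H + -x = H - (ep 0 U1).1 := by rw [← hxe]; ring
    rw [e5] at e2
    omega
  have hNarT : Nar k (U1 ++ D2) := by
    intro H
    have := hnar H
    rw [hcr H] at this
    omega
  have hxh : 0 ≤ h - x := by omega
  have hVe : (ep 0 V).1 = h - x := by
    have e : (ep 0 U).1 = (ep 0 U1).1 + (ep 0 V).1 := by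
      rw [hUe, ep_append, ep_eq, Prod.fst_add]
      ring
    rw [← hh, ← hxe] at e
    omega
  refine ⟨U1 ++ D2, V, rv D1, U1.length, (h - x).toNat, m, ?_, ?_, ?_, ?_, ?_,
    ⟨⟨?_, ?_, ?_⟩, ⟨?_, ?_, ?_⟩, ?_⟩, ?_, ?_⟩
  · rw [List.take_left]
    exact hUe
  · rw [List.drop_left, rv_rv]
    exact hDe
  · simp
  · rw [mem_ArchSet]
    exact ⟨by omega, ⟨by simp [hU1], hTe, hTn, hTi⟩, hNarT⟩
  · omega
  · rw [hUe, vt_append, List.nodup_append'] at hU
    exact (nodup_vt _ V).1 hU.2.1
  · rw [Int.toNat_of_nonneg hxh]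
    exact hVe
  · intro p hp
    rw [Int.toNat_of_nonneg hxh]
    have e : p + ep 0 U1 ∈ (vt 0 U).tail := by
      rw [hvU, List.mem_append]
      right
      rw [vt_eq, List.mem_map]
      exact ⟨p, hp, rfl⟩
    have := (hUi _ e).2
    rw [Prod.fst_add, ← hxe, ← hh] at this
    omega
  · have e : SAWs D1 := (SAWs_append D1 D2 (by rw [← hDe]; exact hDn)).1
    unfold SAWs at e ⊢
    rw [← nodup_vt (ep 0 D1) (rv D1), vt_rv, List.nodup_reverse]
    exact e
  · rw [Int.toNat_of_nonneg hxh, XM.ep_rv0, Prod.fst_neg, hD1]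
    ring
  · intro p hp
    rw [Int.toNat_of_nonneg hxh]
    have e : p + ep 0 D1 ∈ vt 0 D1 := by
      have e1 : p + ep 0 D1 ∈ vt (ep 0 D1) (rv D1) := by
        rw [vt_eq, List.mem_map]
        exact ⟨p, hp, rfl⟩
      rw [vt_rv, List.mem_reverse] at e1
      exact e1
    have e2 : (p + ep 0 D1).1 ≤ 0 := by
      have e3 : p + ep 0 D1 ∈ vs 0 D := by
        cases hD2' : D2 with
        | nil => exact absurd hD2' hD2
        | cons s t =>
          rw [hDe, hD2', vs_append, vs_cons, List.mem_append, List.mem_cons]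
          rcases (KCC.mem_vt_iff 0 D1 _).1 e with e4 | e4
          · exact Or.inl e4
          · exact Or.inr (Or.inl e4)
      exact (hDi _ e3).2
    rw [Prod.fst_add, hD1] at e2
    omega
  · intro H'
    have e1 := hnar (H' + x)
    rw [hcr (H' + x), add_sub_cancel_right] at e1
    simp only
    split_ifs with hH
    · rcases lt_or_ge (H' + x) 0 with e2 | e2
      · have e3 := hneg _ e2
        rw [hcr (H' + x), add_sub_cancel_right] at e3
        omega
      · have e3 := hpos (H' + x) e2 (by omega)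
        omega
    · omega
  · unfold htn ht
    simp only
    rw [← hh]
    omega
  · have e : (rv D1).length = D1.length := XM.rv_length D1
    rw [e]
    omega

end Pool.Agent.KCE
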