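import Pool.Agent.KCE.Stmts
import Pool.Agent.KCC.Tal
import Pool.Agent.KCC.Xbr
import Pool.Agent.XM.Main

/-!
# KCE, module TAL: the tails with explicit constants (helper85; text of KCC/Tal.lean)
-/

set_option autoImplicit false

namespace Pool.Agent.KCE

open Finset Pool.Agent.Lib27 Pool.Agent.OC Pool.Agent.KCC
open scoped NNReal ENNReal

namespace ETAL

open TAL in
/-- the old proof, for given constants -/
theorem tp_of (hx : XBR_Stmt) (k : ℕ) (z : ℝ≥0∞) (eta C : ℝ≥0) (heta : 0 < eta)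
    (z1 : (8 : ℝ≥0∞)⁻¹ ≤ z) (z2 : z ≤ 2⁻¹) (h1 : ∑' l : ℕ, XM.we (2 * k) z (l + 1) = 1)
    (B1 : ∑' l : ℕ, XM.we (2 * k) ((1 + eta) * z) l ≤ C)
    (B2 : gs (XM.wz ((1 + eta) * z)) (XM.Cap (2 * k)) ≤ C)
    (B3 : ∀ n : ℕ, 1 ≤ n →
      ((XM.NoE (2 * k) n).card : ℝ≥0∞) * ((1 + eta) * z) ^ (2 * n) ≤ C * n) :
    TP k (z.toReal ^ 2) eta (64 * C + 1) := by
  have heta' : (0 : ℝ) < eta := by exact_mod_cast heta
  have hzt : z ≠ ∞ := ne_top_of_le_ne_top (by simp) z2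
  set ζ : ℝ := z.toReal with hζ
  have hZ : ENNReal.ofReal ζ = z := ENNReal.ofReal_toReal hzt
  have hζ8 : (8 : ℝ)⁻¹ ≤ ζ := by
    have := ENNReal.toReal_mono hzt z1
    simpa using this
  have hζ0 : 0 < ζ := lt_of_lt_of_le (by norm_num) hζ8
  set ζ1 : ℝ := (1 + eta) * ζ with hζ1
  have hζ10 : 0 ≤ ζ1 := by positivity
  have hZ1 : ENNReal.ofReal ζ1 = (1 + eta) * z := by
    rw [hζ1, ENNReal.ofReal_mul (by positivity), hZ, ENNReal.ofReal_add (by norm_num) heta'.le,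
      ENNReal.ofReal_one, ENNReal.ofReal_coe_nnreal]
  have hmono : (1 + (eta : ℝ)) * ζ ^ 2 ≤ ζ1 ^ 2 := by
    rw [hζ1, mul_pow]
    apply mul_le_mul_of_nonneg_right _ (by positivity)
    nlinarith
  have hpow : ∀ m : ℕ, ((1 + (eta : ℝ)) * ζ ^ 2) ^ m ≤ (ζ1 ^ 2) ^ m := fun m =>
    pow_le_pow_left₀ (by positivity) hmono m
  have hC0 : (0 : ℝ) ≤ C := C.2
  refine ⟨by positivity, heta', by positivity, ?_, ?_, ?_, ?_, ?_⟩
  · intro n
    have h2 := pieces_le hx k n hζ0.le hZ (B := 1) ((gs_UU_le k z).trans (by rw [h1]; simp))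
    simpa using h2
  · intro r hr
    have hr0 : 0 < r := lt_trans (by positivity) hr
    have ht : ζ ^ 2 / r < 1 := (div_lt_one hr0).2 hr
    obtain ⟨n, hn⟩ := pieces_ge hx k hζ0.le hZ (h1.symm.le.trans (le_gs_UU k z)) ht
    refine ⟨n, ?_⟩
    have h2 : (∑ p ∈ Pc k n, (ζ ^ 2) ^ hl p) ≤ (ζ ^ 2 / r) * ∑ p ∈ Pc k n, r ^ hl p := by
      rw [Finset.mul_sum]
      refine Finset.sum_le_sum fun p hp => ?_
      obtain ⟨j, hj⟩ : ∃ j, hl p = j + 1 := ⟨hl p - 1, by have := one_le_hl hp; omega⟩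
      rw [hj, pow_succ (ζ ^ 2), pow_succ r]
      have h3 : ζ ^ 2 / r * (r ^ j * r) = r ^ j * ζ ^ 2 := by
        field_simp
      rw [h3]
      exact mul_le_mul_of_nonneg_right (pow_le_pow_left₀ (by positivity) hr.le j)
        (by positivity)
    have h3 : 0 < ζ ^ 2 / r := by positivity
    by_contra hcon
    rw [not_lt] at hcon
    have h4 : (ζ ^ 2 / r) * ∑ p ∈ Pc k n, r ^ hl p ≤ (ζ ^ 2 / r) * 1 :=
      mul_le_mul_of_nonneg_left hcon h3.le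
    linarith
  · intro n
    have h2 : gs (XM.Wz ((1 + eta) * z)) (UU k) ≤ C := by
      refine (gs_UU_le k _).trans (le_trans ?_ B1)
      exact ENNReal.tsum_comp_le_tsum_of_injective (add_left_injective 1)
        (XM.we (2 * k) ((1 + eta) * z))
    have h3 := pieces_le hx k n hζ10 hZ1 h2
    have h4 : ∑ p ∈ Pc k n, ((1 + (eta : ℝ)) * ζ ^ 2) ^ hl p ≤ ∑ p ∈ Pc k n, (ζ1 ^ 2) ^ hl p :=
      Finset.sum_le_sum fun p _ => hpow _
    linarith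
  · intro M
    have h3 := caps_le hx k M hζ10 hZ1 B2
    have hζ1' : (8 : ℝ)⁻¹ ≤ ζ1 := by
      rw [hζ1]
      nlinarith
    have h5 : (1 : ℝ) ≤ 64 * ζ1 ^ 2 := by nlinarith
    have h4 : ∑ m ∈ range (M + 1), ∑ g ∈ Icc (1 : ℤ) m,
        ((CapSet k g (2 * m + 2)).card : ℝ) * ((1 + (eta : ℝ)) * ζ ^ 2) ^ m ≤
        64 * ∑ m ∈ range (M + 1), ∑ g ∈ Icc (1 : ℤ) m,
          ((CapSet k g (2 * m + 2)).card : ℝ) * (ζ1 ^ 2) ^ (m + 1) := by
      rw [Finset.mul_sum]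
      refine Finset.sum_le_sum fun m _ => ?_
      rw [Finset.mul_sum]
      refine Finset.sum_le_sum fun g _ => ?_
      have h6 : (0 : ℝ) ≤ ((CapSet k g (2 * m + 2)).card : ℝ) := Nat.cast_nonneg _
      have h7 : ((1 + (eta : ℝ)) * ζ ^ 2) ^ m ≤ 64 * (ζ1 ^ 2) ^ (m + 1) := by
        refine (hpow m).trans ?_
        rw [pow_succ (ζ1 ^ 2)]
        have h8 : 0 ≤ (ζ1 ^ 2) ^ m := by positivity
        nlinarith
      calc _ ≤ ((CapSet k g (2 * m + 2)).card : ℝ) * (64 * (ζ1 ^ 2) ^ (m + 1)) :=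
            mul_le_mul_of_nonneg_left h7 h6
        _ = _ := by ring
    linarith
  · intro n hn
    have h2 := B3 n hn
    rw [← hx.2.2.2.2 k n, ← hZ1, ← ENNReal.ofReal_pow hζ10, ← ENNReal.ofReal_natCast,
      ← ENNReal.ofReal_mul (Nat.cast_nonneg _)] at h2
    have h3 : (C : ℝ≥0∞) * (n : ℝ≥0∞) = ENNReal.ofReal ((C : ℝ) * n) := by
      rw [ENNReal.ofReal_mul hC0, ENNReal.ofReal_coe_nnreal, ENNReal.ofReal_natCast]
    rw [h3, ENNReal.ofReal_le_ofReal_iff (by positivity)] at h2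
    have h4 := hpow n
    rw [← pow_mul] at h4
    have h5 : ((NoCut k n).card : ℝ) * ((1 + (eta : ℝ)) * ζ ^ 2) ^ n ≤
        ((NoCut k n).card : ℝ) * ζ1 ^ (2 * n) :=
      mul_le_mul_of_nonneg_left h4 (Nat.cast_nonneg _)
    have h6 : (C : ℝ) * n ≤ (64 * C + 1) * n :=
      mul_le_mul_of_nonneg_right (by linarith) (Nat.cast_nonneg _)
    linarith


/-- monotonicity -/
theorem tp_mono {k : ℕ} {q eta eta' C C' : ℝ} (h : TP k q eta C) (h0 : 0 < eta')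
    (he : eta' ≤ eta) (hC : C ≤ C') : TP k q eta' C' := by
  obtain ⟨hq, _, hC0, h1, h2, h3, h4, h5⟩ := h
  have hp : ∀ m : ℕ, ((1 + eta') * q) ^ m ≤ ((1 + eta) * q) ^ m := fun m =>
    pow_le_pow_left₀ (by positivity) (mul_le_mul_of_nonneg_right (by linarith) hq.le) m
  refine ⟨hq, h0, hC0.trans_le hC, h1, h2, fun n => ?_, fun M => ?_, fun n hn => ?_⟩
  · exact ((sum_le_sum fun p _ => hp _).trans (h3 n)).trans hC
  · refine le_trans (sum_le_sum fun m _ => sum_le_sum fun g _ => ?_) ((h4 M).trans hC)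
    exact mul_le_mul_of_nonneg_left (hp m) (Nat.cast_nonneg _)
  · refine (mul_le_mul_of_nonneg_left (hp n) (Nat.cast_nonneg _)).trans ((h5 n hn).trans ?_)
    exact mul_le_mul_of_nonneg_right hC (Nat.cast_nonneg _)

end ETAL

open ETAL in
theorem t_ETAL (h : XMX.XBEY_Stmt) : ETAL_Stmt := by
  obtain ⟨B0, hB0, hbey⟩ := h
  have hB0' : (2 : ℝ) ≤ B0 := by exact_mod_cast hB0
  have hB4 : (1 : ℝ) ≤ (B0 : ℝ) ^ 4 := one_le_pow₀ (by linarith)
  refine ⟨65 * (B0 : ℝ) ^ 4, by linarith, fun k hk => ?_⟩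
  obtain ⟨z1, z2, h1, -⟩ := XM.bey_main (2 * k - 2)
  obtain ⟨B1, B2, B3⟩ := hbey (2 * k - 2)
  have hc : 2 * k - 2 + 2 = 2 * k := by omega
  rw [hc] at h1 B1 B2 B3
  have hzt : XM.zst (2 * k - 2) ≠ ∞ := ne_top_of_le_ne_top (by simp) z2
  have hz8 : (8 : ℝ)⁻¹ ≤ (XM.zst (2 * k - 2)).toReal := by
    have := ENNReal.toReal_mono hzt z1
    simpa using this
  have hz2 : (XM.zst (2 * k - 2)).toReal ≤ (2 : ℝ)⁻¹ := by
    have := ENNReal.toReal_mono (by simp) z2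
    simpa using this
  have hDpos : 0 < XMX.Bl B0 (2 * k - 2) := by
    unfold XMX.Bl
    exact pow_pos (lt_of_lt_of_le (by norm_num) hB0) _
  have hD : ((XMX.Bl B0 (2 * k - 2) : ℝ≥0) : ℝ) = ((B0 : ℝ) ^ 4) ^ (k ^ 2) := by
    unfold XMX.Bl
    rw [hc, NNReal.coe_pow, ← pow_mul]
    congr 1
    ring
  have hD1 : (1 : ℝ) ≤ ((B0 : ℝ) ^ 4) ^ (k ^ 2) := one_le_pow₀ hB4
  have hM : 64 * ((B0 : ℝ) ^ 4) ^ (k ^ 2) + 1 ≤ Mk (65 * (B0 : ℝ) ^ 4) k := by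
    unfold Mk
    rw [mul_pow]
    have h65 : (65 : ℝ) ≤ 65 ^ (k ^ 2) := by
      calc (65 : ℝ) = 65 ^ 1 := (pow_one _).symm
        _ ≤ 65 ^ (k ^ 2) := pow_le_pow_right₀ (by norm_num) (Nat.one_le_pow _ _ hk)
    nlinarith
  refine ⟨?_, ?_, ?_⟩
  · unfold qk
    nlinarith
  · unfold qk
    nlinarith
  · have key := tp_of xbr_thm k (XM.zst (2 * k - 2)) (XMX.Bl B0 (2 * k - 2))⁻¹
      (XMX.Bl B0 (2 * k - 2)) (inv_pos.2 hDpos) z1 z2 h1 (by simpa using B1) (by simpa using B2)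
      (by simpa using B3)
    refine tp_mono key (inv_pos.2 (by linarith)) ?_ (by rw [hD]; exact hM)
    rw [NNReal.coe_inv, hD]
    exact inv_anti₀ (by linarith) (by linarith)

end Pool.Agent.KCE
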