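import Pool.Agent.KCE.Stmts
import Pool.Agent.KCC.Cdf

/-!
TRM: the moments of the area of the `k`-column-convex polygons on the sample space.
-/

set_option autoImplicit false

namespace Pool.Agent.KCE

open Finset Filter Topology Pool.Agent.Lib27 Pool.Agent.AreaLaw Pool.Agent.KCC

/-- ETRM (from TR; VCR is not needed) -/
theorem t_ETRM (h : TR_Stmt) (_hv : VCR_Stmt) : ETRM_Stmt := by
  classical
  intro k n r hk hn
  have hn0 : (0 : ℝ) < n := by exact_mod_cast (by omega : 0 < n)
  obtain ⟨K, hK⟩ : ∃ K, K = 4 * (n : ℝ) := ⟨_, rfl⟩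
  have hK0 : 0 < K := by rw [hK]; positivity
  have hZ : ((ColConvex k n).card : ℝ) = K * ∑ y : OmS k n, wtS k n y := by
    have := CDF.transfer h k n hk hn (fun _ => 1)
    simp only [mul_one, sum_const, nsmul_eq_mul] at this
    rw [this, hK]
  have harea : ∀ s : Fin (2 * n) → Fin 4, area n s = ((|dbl 0 (List.ofFn s)| : ℤ) : ℝ) / 2 := by
    intro s
    rw [area_eq]
    rfl
  have hS : ∑ t ∈ ColConvex k n, area n t =
      K * ∑ y : OmS k n, wtS k n y * ((TZ k n y : ℝ) / 2) := by
    have := CDF.transfer h k n hk hn (fun a => (a : ℝ) / 2)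
    simp only [harea]
    rw [this, hK]
  have hR : ∑ t ∈ ColConvex k n, area n t ^ r =
      K * ∑ y : OmS k n, wtS k n y * ((TZ k n y : ℝ) / 2) ^ r := by
    have := CDF.transfer h k n hk hn (fun a => ((a : ℝ) / 2) ^ r)
    simp only [harea]
    rw [this, hK]
  unfold areaMoment momS
  rw [hZ, hS, hR, mul_div_mul_left _ _ hK0.ne', mul_div_mul_left _ _ hK0.ne']

end Pool.Agent.KCE
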