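import Pool.Agent.XMX.Main
import Pool.Agent.KCE.TAL
import Pool.Agent.KCE.RHO
import Pool.Agent.KCE.DAT
import Pool.Agent.KCE.NRP
import Pool.Agent.KCE.PDF
import Pool.Agent.KCE.SPL
import Pool.Agent.KCE.KAP
import Pool.Agent.KCE.ROOM
import Pool.Agent.KCE.PSM
import Pool.Agent.KCE.TRM
import Pool.Agent.KCE.SLW
import Pool.Agent.KCE.QCS
import Pool.Agent.KCE.MOD
import Pool.Agent.KCE.ORD
import Pool.Agent.KCE.LOG
import Pool.Agent.KCE.FIN
import Pool.Agent.KCQ.Fin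
import Pool.Agent.KCS.Main

/-!
# Column-convex polygons (MP_f6626d_co), explicit window: the final theorem
-/

set_option autoImplicit false

namespace Pool.Agent.KCE

open Pool.Agent.KCC

/-- the area law for uniform `k n`-column-convex polygons, `(k n) ^ 2 / log n → 0` -/
theorem main4 : FINAL4_Stmt := by
  have hK2 : K2_Stmt := k2_thm pla_thm
  have hAR : AR_Stmt := ar_thm hK2
  have hK1 : K1_Stmt := k1_thm rot_thm (glub_thm pos_thm) pos_thm
  have hTR : TR_Stmt := tr_thm hK1 vcr_thm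
  have hOMB : OMB_Stmt := omb hK2 k5s_thm k5c_thm hAR
  have hTAL : ETAL_Stmt := t_ETAL XMX.m_BEY
  have hROOM : EROOM_Stmt := t_EROOM hTAL t_ERHO XMX.m_LOOP XMX.m_YEPS XMX.m_GL
  have hKAP : EKAP_Stmt := t_EKAP (t_ESPL xbr_thm) pla_thm k5s_thm
  have hPDF : EPDF_Stmt := t_EPDF (t_ENRP hK2 k4_thm k5s_thm k5c_thm hAR pos_thm) hOMB
  exact t_EFIN hTAL t_ERHO (t_EDAT hTAL t_ERHO hK2 k5s_thm k5f_thm k5r_thm k5b_thm k5c_thm hAR)
    (t_EQCS KCG.m_GV2 t_EPSM hKAP hROOM) (t_EMOD hPDF) t_EORD t_ESLW t_ELOG (t_ETRM hTR vcr_thm)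

end Pool.Agent.KCE
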