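import Pool.Agent.KCQ.QSIDE

/-!
# KCE_ORD, first part (MP_f6626d_co): the upper bound of the total weight of the area polynomials
-/

set_option autoImplicit false

open Finset Filter Topology

namespace Pool.Agent.KCE

open Pool.Agent.Gap Pool.Agent.FL Pool.Agent.EXW Pool.Agent.KCG Pool.Agent.KCG.QSIDE

/-- the upper bound of the coefficients of a slowly varying sequence of models -/
theorem ord_up (hQ : KCG.QLT_Stmt) (hP : KCG.QPAR_Stmt) (oLT1 : Gap.LT1_Stmt)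
    (oM2 : Gap.M2_Stmt) (oBAL : Gap.BAL_Stmt) :
    ∀ D : ℕ → ℝ, Slow D → ∀ M : KCG.QModel D, ∃ K : ℕ, ∀ᶠ n : ℕ in atTop,
      ((n : ℝ) * Real.sqrt n) * (M.G n).rho ^ n * (M.P n).eval 1 ≤ D n ^ K := by
  intro D hD M
  obtain ⟨L, m0, C', -, -, -, hL, -⟩ := stair_side oLT1 oM2 oBAL
  obtain ⟨K0, K1, hQ⟩ := hQ
  obtain ⟨K0', K1', hP⟩ := hP
  obtain ⟨Kp, hpar⟩ := KCG.par_bounds
  have hD1 : ∀ n, 1 ≤ D n := fun n => by linarith [hD.two_le n]
  have hDp : ∀ n, 0 < D n := fun n => by linarith [hD.two_le n]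
  -- the scales
  obtain ⟨J, hJ⟩ : ∃ J, J = K0 + K0' := ⟨_, rfl⟩
  obtain ⟨m, hm⟩ : ∃ m, m = 4 * (J + K1) + 2 := ⟨_, rfl⟩
  have hm0' : m ≠ 0 := by omega
  have h4m : 4 * m ≠ 0 := by omega
  obtain ⟨u, hu⟩ : ∃ u : ℕ → ℝ, u = U (4 * m) := ⟨_, rfl⟩
  have hu0 : ∀ n, 0 ≤ u n := fun n => by rw [hu]; exact U_nonneg _ _
  have hun : ∀ n, u n ^ (4 * m) = n := fun n => by rw [hu]; exact U_pow h4m n
  have huq : ∀ n, Gap.qn n = u n ^ m := fun n => by rw [hu]; exact sqrt_U hm0' n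
  have hut : Tendsto u atTop atTop := by rw [hu]; exact U_tendsto h4m
  have hslow : ∀ K : ℕ, Tendsto (fun n : ℕ => D n ^ K / u n) atTop (𝓝 0) := by
    rw [hu]; exact slow_U hD h4m
  obtain ⟨W, hW⟩ : ∃ W : ℕ → ℝ, W = fun n => u n ^ 4 := ⟨_, rfl⟩
  have hWt : Tendsto W atTop atTop := by
    rw [hW]; exact (tendsto_pow_atTop (by norm_num)).comp hut
  have hsW : ∀ n, Real.sqrt (W n) = u n ^ 2 := by
    intro n
    rw [hW]
    have : u n ^ 4 = (u n ^ 2) ^ 2 := by ring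
    simp only [this]
    exact Real.sqrt_sq (by positivity)
  obtain ⟨n0, hn0⟩ : ∃ n0 : ℕ → ℕ, n0 = fun n => ⌊2 * (M.G n).sig2 * n / (M.G n).mbar⌋₊ :=
    ⟨_, rfl⟩
  have hDU : ∀ K : ℕ, ∀ᶠ n : ℕ in atTop, D n ^ K ≤ u n := by
    intro K
    filter_upwards [(hslow K).eventually (ge_mem_nhds one_pos), hut.eventually_ge_atTop 1]
      with n h1 h2
    have h3 : 0 < u n := by linarith
    rwa [div_le_one h3] at h1
  have hSc : ∀ᶠ n : ℕ in atTop, Sc0 J (D n) (W n) (M.G n) n (n0 n) := by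
    filter_upwards [hWt.eventually_ge_atTop 2, hDU J, hut.eventually_ge_atTop 1]
      with n h1 h2 h3
    refine ⟨hD.two_le n, h1, M.cls n, ?_, ?_⟩
    · have e : (D n * W n) ^ J = D n ^ J * u n ^ (4 * J) := by
        rw [hW, mul_pow, ← pow_mul]
      rw [e, ← hun n]
      calc D n ^ J * u n ^ (4 * J) ≤ u n * u n ^ (4 * J) :=
            mul_le_mul_of_nonneg_right h2 (by have := hu0 n; positivity)
        _ = u n ^ (4 * J + 1) := by ring
        _ ≤ u n ^ (4 * m) := pow_le_pow_right₀ h3 (by omega)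
    · obtain ⟨p1, -, -, -, p5, -⟩ := hpar (D n) (hD.two_le n) (M.G n) (M.cls n)
      have hmb : 0 < (M.G n).mbar := by linarith
      have hsg : 0 < (M.G n).sig2 := (M.G n).sig2_pos
      obtain ⟨x, hx⟩ : ∃ x, x = 2 * (M.G n).sig2 * n / (M.G n).mbar := ⟨_, rfl⟩
      have hx0 : 0 ≤ x := by rw [hx]; positivity
      have e : (n0 n : ℝ) * (M.G n).mbar - 2 * (M.G n).sig2 * n =
          ((n0 n : ℝ) - x) * (M.G n).mbar := by
        rw [hx]; field_simp
      have hfl : n0 n = ⌊x⌋₊ := by rw [hn0, hx]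
      rw [e, abs_mul, abs_of_pos hmb]
      refine mul_le_of_le_one_left hmb.le ?_
      rw [hfl, abs_le]
      constructor
      · have := Nat.lt_floor_add_one x
        linarith
      · have := Nat.floor_le hx0
        linarith
  -- the scales are comparable
  have hcmp : ∀ᶠ n : ℕ in atTop, 1 ≤ n ∧ 1 ≤ n0 n ∧ W n ≤ n0 n ∧
      (n0 n : ℝ) ≤ D n ^ K1' * n := by
    filter_upwards [hSc] with n hS
    have hS' := sc0_mono (K := K0') (by omega) hS
    have h1 := (hP (D n) (W n) (M.G n) n (n0 n) 0 0 ⟨hS', le_rfl, by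
      rw [zero_mul]; linarith [hS'.W2], by rw [mul_zero, mul_zero]⟩).1
    exact ⟨h1.1, h1.2.1, h1.2.2.2.1, h1.2.2.2.2.2⟩
  have hn0t : Tendsto n0 atTop atTop := by
    have h1 : Tendsto (fun n => (n0 n : ℝ)) atTop atTop := by
      refine tendsto_atTop_mono' atTop ?_ hWt
      filter_upwards [hcmp] with n hn using hn.2.2.1
    exact tendsto_natCast_atTop_iff.1 h1
  -- the errors
  have herr1 : ∀ᶠ n : ℕ in atTop,
      (D n * W n) ^ K1 / Gap.qn n + D n ^ K1 / Real.sqrt (W n) ≤ 2 := by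
    filter_upwards [hut.eventually_ge_atTop 1, hDU K1] with n h3 h4
    have hu' : 0 < u n := by linarith
    simp only [huq, hsW]
    have e2 : D n ^ K1 / u n ^ 2 ≤ 1 := by
      rw [div_le_one (by positivity)]
      exact h4.trans (le_self_pow₀ h3 (by norm_num))
    have e : (D n * W n) ^ K1 / u n ^ m ≤ D n ^ K1 / u n ^ 2 := by
      rw [hW, mul_pow, ← pow_mul, div_le_div_iff₀ (by positivity) (by positivity)]
      have h5 : u n ^ (4 * K1) * u n ^ 2 ≤ u n ^ m := by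
        rw [← pow_add]; exact pow_le_pow_right₀ h3 (by omega)
      calc D n ^ K1 * u n ^ (4 * K1) * u n ^ 2 = D n ^ K1 * (u n ^ (4 * K1) * u n ^ 2) := by ring
        _ ≤ D n ^ K1 * u n ^ m := mul_le_mul_of_nonneg_left h5 (by have := hDp n; positivity)
    linarith
  -- the staircase coefficient
  have hst : Tendsto (fun n : ℕ => ((n0 n : ℝ) * Real.sqrt (n0 n)) * (1 / 4 : ℝ) ^ (n0 n)
      * (closeP 1 cap1 B0 (n0 n)).eval 1) atTop (𝓝 (L 0)) := by
    have h1 := hL 0 le_rfl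
    simp only [epsn_zero, neg_zero, Real.exp_zero] at h1
    exact h1.comp hn0t
  obtain ⟨c0, hc0⟩ : ∃ c0 : ℕ, |L 0| + 1 ≤ c0 := exists_nat_ge _
  have hst1 : ∀ᶠ n : ℕ in atTop, ((n0 n : ℝ) * Real.sqrt (n0 n)) * (1 / 4 : ℝ) ^ (n0 n)
      * (closeP 1 cap1 B0 (n0 n)).eval 1 ≤ D n ^ c0 := by
    have h1 : L 0 < |L 0| + 1 := by linarith [le_abs_self (L 0)]
    filter_upwards [hst.eventually (gt_mem_nhds h1)] with n hn
    refine hn.le.trans (hc0.trans ?_)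
    have h2 : (c0 : ℝ) ≤ 2 ^ c0 := by exact_mod_cast c0.lt_two_pow_self.le
    exact h2.trans (pow_le_pow_left₀ (by norm_num) (hD.two_le n) c0)
  refine ⟨K1 + K1' + c0 + 2, ?_⟩
  filter_upwards [hSc, hcmp, herr1, hst1] with n hS hc he hs1
  have hD2 := hD.two_le n
  have hS' := sc0_mono (K := K0) (by omega) hS
  obtain ⟨c, -, hcD, hlt⟩ := hQ (D n) hD2 (M.G n) (M.cls n) (M.C0 n) (M.s n) (M.t n)
    (M.Vs n) (M.Vt n) (M.B n) B0 (M.cap_s n) (M.cap_t n) (M.crit_s n) (M.crit_t n) (M.sol n)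
    B0_isSol
  have h1 := hlt (W n) n (n0 n) 0 0 ⟨hS', le_rfl, by
      rw [zero_mul]; linarith [hS'.W2], by rw [mul_zero, mul_zero]⟩
  rw [neg_zero, Real.exp_zero] at h1
  have h2 := (le_abs_self _).trans (h1.trans he)
  obtain ⟨st, hstd⟩ : ∃ st, st = ((n0 n : ℝ) * Real.sqrt (n0 n)) * (1 / 4 : ℝ) ^ (n0 n)
      * (closeP 1 cap1 B0 (n0 n)).eval 1 := ⟨_, rfl⟩
  rw [← hstd] at h2 hs1
  have hst0 : 0 ≤ st := by
    rw [hstd]
    have h3 := QSIDE.coeff0 (n0 n)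
    have h4 : 0 ≤ (closeP 1 cap1 B0 (n0 n)).eval 1 := by
      rw [Polynomial.eval_eq_sum_range]
      refine sum_nonneg fun k _ => ?_
      have := h3 k
      simp only [one_pow, mul_one]
      exact this
    positivity
  have hn1 : (0 : ℝ) < n := by exact_mod_cast hc.1
  have hr0 : 0 ≤ Real.sqrt ((n0 n : ℝ) / n) := Real.sqrt_nonneg _
  have hr1 : Real.sqrt ((n0 n : ℝ) / n) ≤ D n ^ K1' := by
    have h5 : (n0 n : ℝ) / n ≤ D n ^ K1' := by
      rw [div_le_iff₀ hn1]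
      exact hc.2.2.2
    have h6 : 1 ≤ D n ^ K1' := one_le_pow₀ (hD1 n)
    calc Real.sqrt ((n0 n : ℝ) / n) ≤ Real.sqrt (D n ^ K1' * D n ^ K1') :=
          Real.sqrt_le_sqrt (h5.trans (le_mul_of_one_le_left (by linarith) h6))
      _ = D n ^ K1' := Real.sqrt_mul_self (by linarith)
  have hc1 : c * Real.sqrt ((n0 n : ℝ) / n) * st ≤ D n ^ (K1 + K1' + c0) := by
    have h7 : c * Real.sqrt ((n0 n : ℝ) / n) ≤ D n ^ K1 * D n ^ K1' :=
      mul_le_mul hcD hr1 hr0 (by have := hDp n; positivity)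
    calc c * Real.sqrt ((n0 n : ℝ) / n) * st ≤ (D n ^ K1 * D n ^ K1') * D n ^ c0 :=
          mul_le_mul h7 hs1 hst0 (by have := hDp n; positivity)
      _ = D n ^ (K1 + K1' + c0) := by rw [pow_add, pow_add]
  have h8 : (1 : ℝ) ≤ D n ^ (K1 + K1' + c0) := one_le_pow₀ (hD1 n)
  have h9 : D n ^ (K1 + K1' + c0 + 2) = D n ^ (K1 + K1' + c0) * D n ^ 2 := pow_add _ _ _
  have h10 : (4 : ℝ) ≤ D n ^ 2 := by nlinarith
  have h11 : ((n : ℝ) * Real.sqrt n) * (M.G n).rho ^ n * (M.P n).eval 1 ≤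
      c * Real.sqrt ((n0 n : ℝ) / n) * st + 2 := by
    have h12 : (M.P n).eval 1 = (closeP (M.C0 n) (M.t n) (M.B n) n).eval 1 := rfl
    rw [h12]
    linarith
  rw [h9]
  nlinarith

end Pool.Agent.KCE
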