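import Pool.Agent.XMX.Stmts
import Pool.Agent.XMX.Stmts2
import Pool.Agent.KCC.Stmts2
import Pool.Agent.KCC.Stmts3
import Pool.Agent.KCC.Seq
import Pool.Agent.KCG.GE
import Pool.Agent.KCS.FinalDefs

/-!
# Column-convex polygons (MP_f6626d_co), explicit window: statements over `Pool/Agent/KCC`

The class parameter is `Mk B k = B ^ (k ^ 2)`. Templates: `Pool/Agent/KCC`, `Pool/Agent/KCS` (columns) and
`Pool/Agent/EXW` (explicit constants; diagonals, force). Every doc string contains the proof.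
-/

set_option autoImplicit false

namespace Pool.Agent.KCE

open Finset Filter Topology MeasureTheory Pool.Agent.Lib27 Pool.Agent.AreaLaw Pool.Agent.KCC
open Pool.Agent.SapR (rot2 wordsUpTo)
open Pool.Agent.Gap (IsCap closeP AreaModel)
open scoped NNReal ENNReal

/-- the class parameter of `k` -/
noncomputable def Mk (B : ℝ) (k : ℕ) : ℝ := B ^ (k ^ 2)

/-- the square of the critical point -/
noncomputable def qk (k : ℕ) : ℝ := (XM.zst (2 * k - 2)).toReal ^ 2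

/-! ### A. tails -/

/-- ETAL (from `XMX.XBEY_Stmt`, `XM.BEY_Stmt` (theorem `XM.bey_main`), `XBR_Stmt`; text of KCC/Tal.lean, the lemmas of
its namespace `TAL` can be imported). PROOF. `c = 2 k - 2`, `c + 2 = 2 k`, `(c + 2)^2 = 4 k^2`, so `XMX.Bl B0 c = (B0^4)^(k^2)`.
`z = (zst c).toReal ∈ [1/8, 1/2]`. The clauses (i), (ii) of `TP` are those of the old proof (`∑ we (zst) = 1`). The others:
`(1 + eta) z^2 ≤ ((1 + eta) z)^2`, so it is enough to have the bounds at `(1 + eta) z`, `eta = (Bl B0 c)⁻¹` (smaller `eta`: monotone). Caps: the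
sum with `(..)^(m+1)` is at most `Bl B0 c`, divide by `(1 + eta) q ≥ 1/64`. So `B = max (64 * B0^4) 2` works
(`64 B0^(4 k^2) ≤ (64 B0^4)^(k^2)` for `k ≥ 1`). -/
def ETAL_Stmt : Prop := ∃ B : ℝ, 2 ≤ B ∧ ∀ k : ℕ, 1 ≤ k →
  1 / 64 ≤ qk k ∧ qk k ≤ 1 / 4 ∧ TP k (qk k) (Mk B k)⁻¹ (Mk B k)

/-- ERHO : the critical weights of the truncated kernels (proof of `rho_thm` in KCC/Rho.lean). PROOF. With
`eta = D⁻¹`, `C = D` the old proof gives `q ≤ rho`, and `rho / q ≤ 1 + 2 ε`, `ε = D / (1 + D⁻¹)^n ≤ 1/2`. `(1 + D⁻¹)^n ≥ exp(n/(2D)) ≥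
(n/(2D))^3 / 6` (or Bernoulli for `(1 + D⁻¹)^(n/3)`), so for `n ≥ D^K`: `ε ≤ 1/(8 D)` and `2 n ε ≤ 1`. Hence `rho ≤ (1 + D⁻¹/2) q`
and `(rho / q)^n ≤ exp(2 n ε) ≤ 3`. -/
def ERHO_Stmt : Prop := ∃ K : ℕ, ∀ D : ℝ, 2 ≤ D → ∀ (k : ℕ) (q : ℝ), 1 ≤ k → TP k q D⁻¹ D →
  ∀ (n : ℕ) (rho : ℝ), D ^ K ≤ n → 0 < rho → ∑ p ∈ Pc k n, rho ^ hl p = 1 →
    q ≤ rho ∧ rho ≤ (1 + D⁻¹ / 2) * q ∧ (rho / q) ^ n ≤ 3

/-- the killing probability of the kernel is the weight of the pieces which are not allowed -/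
def KapEq (k n : ℕ) (G : KCG.GapKernel) : Prop := ∀ a : ℤ, 1 ≤ a →
  G.kap a = ∑ p ∈ (Pc k n).filter (fun p => p ∉ allowed k n a), G.rho ^ hl p

/-- the arrays are the numbers of arches -/
def ArEq (k n : ℕ) (B : ℕ → ℤ → Polynomial ℝ) : Prop := ∀ (m : ℕ) (a : ℤ), m ≤ n → 1 ≤ a →
  (B m a).eval 1 = ((ArchSet k a (2 * m)).card : ℝ)

/-- the kernel, arrays and bounds for half perimeter `n`, with two more facts -/
structure Dat2 (C θ : ℝ) (k n : ℕ) extends Dat C θ k n where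
  kapEq : KapEq k n G
  arEq : ArEq k n B

/-- EDAT (from ETAL, ERHO and the kernel of KCC/Kw.lean; text of KCC/Dat.lean, `KCS/DTX.lean` shows how to use the
explicit kernel `KW.kern`). PROOF. `D0 = Mk B0 k` of ETAL, `D = Mk B k` with `B ≥ B0^K0`, so that `D ≤ n` gives `D0^K ≤ n` for ERHO and
`n ≥ 2`. `rho ≤ (1 + D0⁻¹/2) q` by ERHO; `DAT.tails` with `r = (1 + D0⁻¹) q`, `θ0 = (1 + D0⁻¹/2)/(1 + D0⁻¹)`, `1 - θ0 ≥ 1/(4 D0)`: `Tails D0 θ0`; caps with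
the factor `θ0⁻¹ ≤ 2`. All is monotone in the parameter: `D ≥ 64 D0`. `KapEq`: `G.Kc a g' = ∑ over the allowed pieces` (grouping as in
`KCC/Kw.lean` `group`, EXW/KW2.lean `group_al`), `G.kap a = 1 - ∑_{g'} G.Kc a g'` and `∑_{Pc} rho ^ hl = 1`. `ArEq`: strong
induction on `m` with `K2_Stmt` (`F = 1`), `IsSol.step` at `X = 1`; or from `KW.Bv_eq` (the array is `∑_{ArchSet} X ^ Ar` for
`m ≤ n`; see `arB`). -/
def EDAT_Stmt : Prop := ∃ B : ℝ, 2 ≤ B ∧ ∀ k n : ℕ, 1 ≤ k → Mk B k ≤ n →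
  Nonempty (Dat2 (Mk B k) (1 - (Mk B k)⁻¹) k n)

/-! ### B. the error of the area functional -/

/-- ENRP (text of KCS/NED.lean = KCC/Near.lean with the excess over `C n log n`; explicit constants as in EXW/NEARP.lean).
PROOF. `θ = 1 - D⁻¹`. In the old proof `q = θ^(1/j)` for some small `j`, `K0 = (J + 1)/(-log q) ≤ D^K`, `L = ⌈K0 log n⌉`, and all
other constants are sums like `∑ (m+1)^k q^m ≤ D^K` (`EXW.PB.geo`). -/
def ENRP_Stmt : Prop := ∀ J : ℕ, ∃ K : ℕ, ∀ D : ℝ, 2 ≤ D →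
  ∀ (k n : ℕ) (rho : ℝ), 1 ≤ k → 2 ≤ n → 0 < rho → rho ≤ 1 →
    ∑ p ∈ Pc k n, rho ^ hl p = 1 → Tails D (1 - D⁻¹) k n rho →
    ∑ x ∈ Om k n, max 0 (|((|dq x| : ℤ) : ℝ) / 2 - (Ar k n x.2.2.2 : ℝ)| -
      D ^ K * n * Real.log n) ≤ D ^ K / ((n : ℝ) ^ J * rho ^ n)

/-- EPDF (from ENRP, `OMB_Stmt` of KCS; text of EXW/PDIF.lean). PROOF. First part: ENRP with `J = 5`, `|x| ≤ L + max 0 (|x| - L)`.
Second part: `δ` the error, `δ ≤ 8 n^2` (`OMB`), `L = D^K n log n` of ENRP with `J = 2 p + 2`. If `δ ≤ L + 1` then `δ^p ≤ (L+1)^p ≤ (2 L + ..)^p`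
(`D^K n log n ≥ 1`), else `δ^p ≤ (8 n^2)^p max 0 (δ - L)`. -/
def EPDF_Stmt : Prop := (∃ K : ℕ, ∀ D : ℝ, 2 ≤ D → SEQ.NB D (1 - D⁻¹) (D ^ K)) ∧
  ∀ p : ℕ, ∃ K : ℕ, ∀ D : ℝ, 2 ≤ D →
  ∀ (k n : ℕ) (rho : ℝ), 1 ≤ k → 2 ≤ n → 0 < rho → rho ≤ 1 →
    ∑ p ∈ Pc k n, rho ^ hl p = 1 → Tails D (1 - D⁻¹) k n rho →
    ∑ x ∈ Om k n, |((|dq x| : ℤ) : ℝ) / 2 - (Ar k n x.2.2.2 : ℝ)| ^ p ≤
      (D ^ K * n * Real.log n) ^ p * ((Om k n).card : ℝ) + D ^ K * (1 / ((n : ℝ) ^ 2 * rho ^ n))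

/-! ### C. the critical solution -/

/-- ESPL : if the two strands of a piece placed at the gap `a` intersect, they contain an arch of gap `a`; the remaining
parts lead from a vertex of the arch to the last column (text of EXW/SPL.lean; `XBR_Stmt` for `XM.cr = cr`). PROOF. `p = (U, D)`, `U` from `(0, 0)`
to the column `h = htn p`, `D` from the column `h` to `(0, 2 a)` (`(ep U).2 + (ep D).2 = -2 jump` since the total length is even). Let `P` be the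
first vertex of `U` which is a vertex of `D`: `U = U1 ++ V`, `D = D1 ++ D2` with `U1`, `D1` ending at `P`, `T = U1 ++ D2`, `j = U1.length`,
`E = rv D1`. `P ≠ (0,0)`, `P ≠ (0, 2a)` (`a ≥ 1`; the other vertices are in columns `1..h`), so `P` is in a column `x`, `1 ≤ x ≤ h`. `T` is
self-avoiding (choice of `P`), goes from `(0,0)` to `(0, 2a)`, its interior vertices are in columns `≥ 1`: `Arch a T`, even length `2 m` (parity of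
the end point). `b = h - x`. `V` and `E` start at `P`, end in the column `h`, stay in columns `≤ h`, and are self-avoiding: in `Gx b`. Crossings:
`cr (U ++ D) H = cr T H + cr V (H - x) + cr E (H - x) ≤ 2 k` for every line `H` (`cr_append`, `cr_rv`); so `Nar k T`, and for
`0 ≤ H < x` `cr T H ≥ 2` (`U1` and `D2` cross the line `H`), for `H < 0` nothing is crossed: `Tc (2k-2) (V, E)`. Lengths: `|U| + |D| = 2 hl`. -/
def ESPL_Stmt : Prop := ∀ (k n : ℕ) (a : ℤ) (p : Wd × Wd), 1 ≤ k → 1 ≤ a → p ∈ Pc k n →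
  ¬ Disj a p → ∃ (T V E : Wd) (j b m : ℕ), p.1 = T.take j ++ V ∧ p.2 = rv E ++ T.drop j ∧
    j ≤ T.length ∧ T ∈ ArchSet k a (2 * m) ∧ m ≤ hl p ∧ (V, E) ∈ XMX.Gxp (2 * k - 2) b ∧
    b ≤ htn p ∧ 2 * hl p = 2 * m + V.length + E.length

/-- EKAP : the weight of the pieces of half length at most `L` which are not allowed at the gap `a` (from ESPL,
`PLA_Stmt`, `K5S_Stmt`; text of EXW/KAP.lean). PROOF. `p ∉ allowed k n a`, `a ≥ 1`: by PLA (`x = 2a`, `x' = 2 (a + jump p)`) the strands are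
not disjoint. `p ↦ (b, j, m, T, (V, E))` is injective; `b ≤ htn p ≤ hl p ≤ L`, `j ≤ 2 m ≤ 2 L`, `m ≤ L`, and
`rho ^ hl p ≤ rho ^ m * z ^ (|V| + |E|)` because `|V| + |E| = 2 (hl p - m)` and `rho ≤ z^2`. Sum over `(V, E)`: at most `X`. -/
def EKAP_Stmt : Prop := ∀ (k n L : ℕ) (rho X : ℝ) (z : ℝ≥0), 1 ≤ k → 2 ≤ n → 0 < rho → 0 ≤ X →
  rho ≤ (z : ℝ) ^ 2 →
  (∀ b : ℕ, b ≤ L → OC.gs (XM.Wz z) (XMX.Gxp (2 * k - 2) b) ≤ ENNReal.ofReal X) →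
  ∀ a : ℤ, 1 ≤ a →
    ∑ p ∈ (Pc k n).filter (fun p => p ∉ allowed k n a ∧ hl p ≤ L), rho ^ hl p ≤
    (2 * L + 1) * (L + 1) * X *
      ∑ m ∈ range (L + 1), ((ArchSet k a (2 * m)).card : ℝ) * rho ^ m

/-- EROOM (from ETAL, ERHO, `XMX.XLOOP_Stmt`, `XMX.XYEPS_Stmt`, `XMX.XGL_Stmt`). PROOF. `c = 2 k - 2`. `z = sqrt rho`, `z0 = (zst c).toReal = sqrt (qk k)`.
By ERHO `(rho / qk k)^n ≤ 3`, so `z / z0 ≤ exp(log 3 / (2 n)) ≤ 1 + 1/n` (for `n ≥ 2`). If `n ≥ Mk B k * L` with `B` large, then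
`1/n ≤ (Ba B1 c)⁻¹` (XLOOP: `Λ = gs (wz z) (Lp c) ≤ Bl B1 c`) and `1/n ≤ (1/L) / (B2 (c+2))` (XYEPS with `a = 1/L`:
`Y (c+2) z b ≤ (1 + 1/L)^(L+1) ≤ 8` for `b ≤ L`). XGL: `≤ 8 (Bl B1 c)^2`, `(c+2)^2 = 4 k^2`. -/
def EROOM_Stmt : Prop := ∃ B : ℝ, 2 ≤ B ∧ ∀ k : ℕ, 1 ≤ k → ∀ (n L : ℕ) (rho : ℝ), 1 ≤ L →
  Mk B k * L ≤ n → 0 < rho → ∑ p ∈ Pc k n, rho ^ hl p = 1 →
    ∃ z : ℝ≥0, rho ≤ (z : ℝ) ^ 2 ∧ ∀ b : ℕ, b ≤ L →
      OC.gs (XM.Wz z) (XMX.Gxp (2 * k - 2) b) ≤ ENNReal.ofReal (Mk B k)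

/-- EPSM : a supersolution is at least the finite sums of the arrays (text of EXW/PSUM.lean, equality replaced by
`≤`). PROOF. By induction on `M`: `∑_{m ≤ M} rho^m (B m g).eval 1 ≤ sr g + ∑_{g'} Kc g g' ∑_{m ≤ M-1} rho^m (B m g').eval 1`
(`IsSol.step` at `X = 1`, all numbers are nonnegative, `1 ≤ i.1`, and `s m g = 0` for `m > C0`). -/
def EPSM_Stmt : Prop := ∀ (G : KCG.GapKernel) (C0 : ℕ) (s : ℕ → ℤ → ℝ)
  (B : ℕ → ℤ → Polynomial ℝ) (v : ℤ → ℝ), IsCap C0 s → KCG.IsSol G s B → (∀ g, 0 ≤ v g) →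
  (∀ g : ℤ, 1 ≤ g → KCG.GE.sr G.rho C0 s g +
    ∑ g' ∈ Icc (g - G.R) (g + G.R), G.Kc g g' * v g' ≤ v g) →
  ∀ (M : ℕ) (g : ℤ), 1 ≤ g → ∑ m ∈ range (M + 1), G.rho ^ m * (B m g).eval 1 ≤ v g

/-! ### D. the sample space -/

/-- the moment of order `r` on the sample space -/
noncomputable def momS (k n r : ℕ) : ℝ :=
  ((∑ y : OmS k n, wtS k n y * ((TZ k n y : ℝ) / 2) ^ r) / ∑ y : OmS k n, wtS k n y) /
    ((∑ y : OmS k n, wtS k n y * ((TZ k n y : ℝ) / 2)) / ∑ y : OmS k n, wtS k n y) ^ r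

/-- ETRM (from `TR_Stmt`, `VCR_Stmt`; `area n s = |dbl 0 (List.ofFn s)| / 2`, see KCC/Cnt.lean and KCS/CNX.lean; text of EXW/TRM.lean). PROOF.
`TR` with `F x = (x / 2) ^ r`, `F = 1` and `F x = x / 2`: each sum over `ColConvex k n` is `4 n` times the weighted sum over `OmS k n`. -/
def ETRM_Stmt : Prop := ∀ k n r : ℕ, 1 ≤ k → 2 ≤ n →
  areaMoment n (ColConvex k n) r = momS k n r

/-- ESLW : sequences (pure analysis). PROOF. `log (Mk B (k n)) = k(n)^2 log B = o(log n)`, so `Mk B (k n)^j ≤ n^δ` eventually for every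
`j`, `δ > 0`. (1), (2): `δ = 1/2`. (3): `SEQ.kap0 C1 C θ n = C1 log n/√n + C1/n^5 + 2 C n^4 θ^n`, and (4). (4): `(1 - 1/M)^n ≤ exp(-n/M) ≤
exp(-√n)` (`M ≤ √n`), for large `n`. (If `k n = 0` then `Mk = 1` and `1 - 1/M = 0`, no problem: `0 ^ n = 0`.) -/
def ESLW_Stmt : Prop := ∀ (B : ℝ) (Kn : ℕ), 2 ≤ B → ∀ k : ℕ → ℕ,
  Tendsto (fun n : ℕ => (k n : ℝ) ^ 2 / Real.log n) atTop (𝓝 0) →
    (∀ K : ℕ, ∀ᶠ n : ℕ in atTop, Mk B (k n) ^ K ≤ n) ∧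
    (∀ j : ℕ, Tendsto (fun n : ℕ => Mk B (k n) ^ j / (n : ℝ)) atTop (𝓝 0)) ∧
    (∀ j : ℕ, Tendsto (fun n : ℕ =>
      SEQ.kap0 (Mk B (k n) ^ Kn) (Mk B (k n)) (1 - (Mk B (k n))⁻¹) n * Mk B (k n) ^ j)
        atTop (𝓝 0)) ∧
    ∀ i j : ℕ, Tendsto (fun n : ℕ =>
      (n : ℝ) ^ i * Mk B (k n) ^ j * (1 - (Mk B (k n))⁻¹) ^ n) atTop (𝓝 0)

end Pool.Agent.KCE
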