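import Pool.Agent.KCE.Stmts
import Pool.Agent.KCQ.Stmts3
import Pool.Agent.KCS.FN3

/-!
# Column-convex polygons (MP_f6626d_co), explicit window: critical solutions, sequence of models, final theorem

`Slow D` (in EXW/StmtsA.lean) means `2 ≤ D n` and `(D n)^K / n → 0` for every `K`. The models are those of
`Pool/Agent/KCQ` (rates over `KCG.GapKernel`). Every doc string contains the proof.
-/

set_option autoImplicit false

namespace Pool.Agent.KCE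

open Finset Filter Topology MeasureTheory Pool.Agent.Lib27 Pool.Agent.AreaLaw Pool.Agent.KCC
open Pool.Agent.SapR (rot2 wordsUpTo)
open Pool.Agent.Gap (IsCap closeP AreaModel)
open Pool.Agent.EXW (Slow)
open Pool.Agent.KCS (airyMoment)
open scoped NNReal ENNReal

/-- EQCS : the critical solutions with polynomial bounds (from `KCG.GV2_Stmt`, EPSM, EKAP, EROOM; text of
EXW/QCS.lean). PROOF. `D = Mk B k`. `KCG.GE.critSrc_sr`: both sources are in `CritSrc (D^K1) (1 - D⁻¹) n`; pass to `D' = D^K1`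
(`EXW.cls_mono` etc. in the KCG version) and apply GV2: solutions `v`. Let `L = ⌈D^K2⌉`, `L ≤ n`.
`kap a = ∑_{not allowed} rho ^ hl` (KapEq). Pieces with `hl > L`: at most `∑_{m > L} D θ^m ≤ D^2 θ^L ≤ (D'^J)⁻¹` (`tails`, first
part; `θ^L ≤ exp(-L/D)`). Pieces with `hl ≤ L`: EKAP with `X = Mk B' k`, `z` of EROOM (`B'` of EROOM; `B' ≤ B^K3`, so
`Mk B' k ≤ D^K3` and `Mk B' k * L ≤ n`): at most `P ∑_{m ≤ L} card (ArchSet k a (2m)) rho^m ≤ P v a`,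
`P = (2 L + 1)(L + 1) D^K3`, by ArEq and EPSM with `C0 = n`, `s = capS k n`, `B` of the data: for `capS` the solution satisfies the
equality, for `capT`: `sr capS ≤ sr capT`, since `capT m g = capS (m+1) g` for `m + 1 ≤ n`, `capS 0 g = 0` and `rho ≤ 1`. GV2:
`CritSol (D'^K P)`, monotone in the constant. -/
def EQCS_Stmt : Prop := ∀ B : ℝ, 2 ≤ B → ∃ K : ℕ, ∀ k n : ℕ, 1 ≤ k → Mk B k ^ K ≤ n →
  ∀ d : Dat2 (Mk B k) (1 - (Mk B k)⁻¹) k n, ∃ Vs Vt : ℤ → ℝ,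
    KCG.CritSol (Mk B k ^ K) d.G (KCG.GE.sr d.G.rho n (capS k n)) Vs ∧
    KCG.CritSol (Mk B k ^ K) d.G (KCG.GE.sr d.G.rho n (capT k n)) Vt

/-- EMOD : the sequence of models (from EPDF; text of KCC/Seq.lean and EXW/MOD3.lean). PROOF. The structure is `SEQ.seqM`
with `k n` instead of `k` (`Omega n = OmS (k n) (mx N0 n)`, `T = TZ / 2`, `c = 1`, `κ n = SEQ.kap0 (M n ^ Kn) (M n) (1 - (M n)⁻¹) n`,
`near_bound`, `bad_bound` of KCC/Seq.lean hold for each `k`, classes by monotonicity from `M n` to `D n`).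
`cdf`: `SEQ.seqM_cdf`. Moments: `rfl` or `unfold`. NearP: EPDF for `mx N0 n = n` (`n ≥ N0`), `M ≤ D`. BadP: the difference is
`∑_{w ∈ NoCut} 1/(4n) (|dbl 0 w| / 2)^p`, `|dbl 0 w| ≤ 4 n^2` (`H66.abs_dbl_le`), `Tails` third part; at most `1/(n^2 rho^n)` eventually by
the last hypothesis (MOD3.bad_p). -/
def EMOD_Stmt : Prop := ∃ Kn : ℕ, ∀ (M D : ℕ → ℝ) (k : ℕ → ℕ) (N0 : ℕ), 2 ≤ N0 →
  (∀ n, 2 ≤ M n) → (∀ n, M n ≤ D n) → (∀ n, 1 ≤ k n) →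
  (∀ j : ℕ, Tendsto (fun n : ℕ => SEQ.kap0 (M n ^ Kn) (M n) (1 - (M n)⁻¹) n * D n ^ j)
    atTop (𝓝 0)) →
  (∀ i j : ℕ, Tendsto (fun n : ℕ => (n : ℝ) ^ i * D n ^ j * (1 - (M n)⁻¹) ^ n) atTop (𝓝 0)) →
  ∀ (d : ∀ n, Dat (M n) (1 - (M n)⁻¹) (k n) (SEQ.mx N0 n)) (Vs Vt : ℕ → ℤ → ℝ),
    (∀ n, KCG.CritSol (D n) (d n).G
      (KCG.GE.sr (d n).G.rho (SEQ.mx N0 n) (capS (k n) (SEQ.mx N0 n))) (Vs n)) →
    (∀ n, KCG.CritSol (D n) (d n).G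
      (KCG.GE.sr (d n).G.rho (SEQ.mx N0 n) (capT (k n) (SEQ.mx N0 n))) (Vt n)) →
  ∃ Q : KCG.QModel D, (∀ n x, Q.cdf n x = cdfS (k n) (SEQ.mx N0 n) x) ∧
    (∀ n r, Q.mom n r = momS (k n) (SEQ.mx N0 n) r) ∧ KCG.NearP Q ∧ KCG.BadP Q ∧
    ∀ n, Q.c n = 1 ∧ (Q.G n).rho = (d n).G.rho ∧
      Q.W n = ∑ y : OmS (k n) (SEQ.mx N0 n), wtS (k n) (SEQ.mx N0 n) y ∧
      ∑ y : Q.Omega n, Q.wt n y * Q.T n y =
        ∑ y : OmS (k n) (SEQ.mx N0 n), wtS (k n) (SEQ.mx N0 n) y *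
          ((TZ (k n) (SEQ.mx N0 n) y : ℝ) / 2)

/-- EORD : orders of the total weight and of the mean, up to powers of the parameter (from `KCG.MOMC_Stmt`, `KCG.QLT_Stmt`,
`KCG.QPAR_Stmt` and the old `LT1`/`M2`/`BAL` for `stair`). PROOF. `P = M.P n`, `Wg = ∑_good wt = c P(1)`. Lower bound of `n√n rho^n P(1)`: MOMC (4). Upper bound:
QLT with `eps = eps' = 0`, `W = D^K`, `n0 = ⌊2 sig2 n / mbar⌋` (as in the proof of MOMC or QRAT): `n√n rho^n P(1) ≤ c' sqrt(n0/n) (n0√n0 4^(-n0)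
P0(1)) + (D W)^K1 / qn n + D^K1 / √W`, `c' ≤ D^K1`, `n0 ≤ D^K1 n` (QPAR), and the staircase coefficient is bounded (it converges: the old
LT1 or M2; `KCG.QSIDE`'s proof). BadP with `p = 0`: `0 ≤ W - Wg ≤ c/(n^2 rho^n)`, so `n√n rho^n W ≤ D^K c`. Mean: `|∑_good wt T - ∑_good wt A| ≤ D^K n log n Wg + D^K c/(n^2 rho^n)`
(NearP, `p = 1`), `∑_good wt A = c P'(1)`, MOMC (2), (3) for `r = 1`, BadP with `p = 1`; `(D n)^K (log n)^j / √n → 0`. -/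
def EORD_Stmt : Prop := ∀ D : ℕ → ℝ, Slow D → ∀ M : KCG.QModel D, KCG.NearP M → KCG.BadP M →
  ∃ K : ℕ, ∀ᶠ n : ℕ in atTop,
    (D n ^ K)⁻¹ * M.c n ≤ ((n : ℝ) * Real.sqrt n) * (M.G n).rho ^ n * M.W n ∧
    ((n : ℝ) * Real.sqrt n) * (M.G n).rho ^ n * M.W n ≤ D n ^ K * M.c n ∧
    (D n ^ K)⁻¹ * ((n : ℝ) * Real.sqrt n) ≤
      (∑ y : M.Omega n, M.wt n y * M.T n y) / M.W n ∧
    (∑ y : M.Omega n, M.wt n y * M.T n y) / M.W n ≤
      D n ^ K * ((n : ℝ) * Real.sqrt n * Real.log n)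

/-- the final theorem with the explicit window -/
def FINAL4_Stmt : Prop := ∃ ν : Measure ℝ, IsProbabilityMeasure ν ∧
  (∀ r : ℕ, Integrable (fun x : ℝ => x ^ r) ν ∧ ∫ x, x ^ r ∂ν = airyMoment r) ∧
  (∀ x : ℝ, ν {x} = 0 →
    Tendsto (fun n : ℕ => areaCdf n (Staircase n) x) atTop (𝓝 (ν (Set.Iic x)).toReal)) ∧
  ∃ (μ : ℕ → ℝ) (M : ℝ), (∀ k, 1 ≤ k → 0 < μ k ∧ μ k < μ (k + 1)) ∧ Tendsto μ atTop (𝓝 M) ∧
    Tendsto (fun n : ℕ => ((SAP n).card : ℝ) ^ ((1 : ℝ) / n)) atTop (𝓝 M) ∧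
    (∀ k : ℕ → ℕ, (∀ᶠ n : ℕ in atTop, 1 ≤ k n) →
      Tendsto (fun n : ℕ => (k n : ℝ) ^ 2 / Real.log n) atTop (𝓝 0) →
      (∀ x : ℝ, ν {x} = 0 →
        Tendsto (fun n : ℕ => areaCdf n (ColConvex (k n) n) x) atTop (𝓝 (ν (Set.Iic x)).toReal)) ∧
      (∀ r : ℕ, Tendsto (fun n : ℕ => areaMoment n (ColConvex (k n) n) r) atTop
        (𝓝 (airyMoment r))) ∧
      Tendsto (fun n : ℕ => Real.log (((ColConvex (k n) n).card : ℝ) / μ (k n) ^ n) / Real.log n)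
        atTop (𝓝 (-(1 / 2))) ∧
      Tendsto (fun n : ℕ => Real.log ((∑ s ∈ ColConvex (k n) n, area n s) /
        ((ColConvex (k n) n).card : ℝ)) / Real.log n) atTop (𝓝 (3 / 2))) ∧
    (∀ k : ℕ → ℕ, Tendsto k atTop atTop → ∀ ε : ℝ, 0 < ε → ∀ᶠ n : ℕ in atTop,
      Real.exp (-(ε * n)) * ((SAP n).card : ℝ) ≤ ((ColConvex (k n) n).card : ℝ)) ∧
    ∀ k, 1 ≤ k → ∃ a b : ℝ, 0 < a ∧ 0 < b ∧
      Tendsto (fun n : ℕ => ((ColConvex k n).card : ℝ) * Real.sqrt n / μ k ^ n) atTop (𝓝 a) ∧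
      Tendsto (fun n : ℕ => (∑ s ∈ ColConvex k n, area n s) / ((ColConvex k n).card : ℝ) /
        ((n : ℝ) * Real.sqrt n)) atTop (𝓝 b)

/-- ELOG (pure): PROOF. `|log (x n) / log n - a| ≤ K log (D n) / log n + log log n / log n → 0`
because `log (D n) / log n → 0` (`Slow`: `(D n)^K ≤ n` eventually for every `K`). -/
def ELOG_Stmt : Prop := ∀ (D : ℕ → ℝ), Slow D → ∀ (x : ℕ → ℝ) (a : ℝ) (K : ℕ),
  (∀ᶠ n : ℕ in atTop, (D n ^ K)⁻¹ * (n : ℝ) ^ a ≤ x n ∧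
    x n ≤ D n ^ K * ((n : ℝ) ^ a * Real.log n)) →
  Tendsto (fun n : ℕ => Real.log (x n) / Real.log n) atTop (𝓝 a)

/-- EFIN : assembly. Templates: EXW/FINAL3.lean, KCS/FN3.lean, KCC/Fin.lean. PROOF. `B` of EDAT, made larger so that also ETAL and ERHO
apply (`Mk` is monotone in `B`, `TP` is monotone in its parameters), `K` of EQCS, `K' = K + 1` (or larger), `M n = Mk B (k' n)`,
`D n = M n ^ K'`, `k' n = k (mx N0 n)`, `N0` such that for `n ≥ N0`: `1 ≤ k n`, `M^K' ≤ n`. `Slow D` from ESLW. EMOD gives the model `Q`;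
`KCG.QFIN_Stmt` and `CDF_Stmt` the law, `KCG.MOMK_Stmt` and ETRM the moments. `μ k = (qk k)⁻¹`. Numbers: `card (ColConvex k n) = 4 n W` (`TR_Stmt`,
`VCR_Stmt` with `F = 1`), `rho^n = qk^n (rho/qk)^n`, `1 ≤ (rho/qk)^n ≤ 3` (ERHO with `TP` of ETAL, `D^K0 ≤ n`), EORD and ELOG with `a = -1/2`. Mean: the quotient
of the two sums over `OmS` is the mean area (as ETRM), EORD and ELOG with `a = 3/2` (`n √n = n^(3/2)`). Exhaustion: GRO gives a `k0` for `ε`, `k n ≥ k0`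
eventually, `FIN.colConvex_mono`. Monotonicity, limit and fixed `k`: `MUM_Stmt`, `LMQ_Stmt`, `CMO`/`CNX_Stmt` for `q = qk k` (ETAL gives
`TP`). Moments of `ν`: `KCS.IDN_Stmt`; staircase polygons: `STC_Stmt` for `GF ν` or as in EXW/FINAL3. The law `ν` of `KCG.QFIN_Stmt` satisfies
`(∀ M : AreaModel, M.Conv ν)`. -/
def EFIN_Stmt : Prop := ETAL_Stmt → ERHO_Stmt → EDAT_Stmt → EQCS_Stmt → EMOD_Stmt → EORD_Stmt →
  ESLW_Stmt → ELOG_Stmt → ETRM_Stmt → FINAL4_Stmt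

end Pool.Agent.KCE
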